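import Pool.Agent.P.MP_ecb9b3_al.Ded

/-! The monic relation in the first graded piece of a frame, and the purely algebraic lemma that
turns it into a relation for long products. -/

namespace Pool.Agent.P.MP_ecb9b3_al

open Function LaurentPolynomial

set_option maxHeartbeats 400000

variable {L : Set (FreeGroup ℕ)} {B S D : Type} [AddCommGroup B] [Module Lam B] [CommRing S]
  [AddCommGroup D] [Module S D] {ψ : AddChar B S} {τ : D ≃ₗ[ℤ] D}

/-- The augmentation ideal of a set of elements of `B`. -/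
def JJ {B S : Type} [AddCommGroup B] [CommRing S] (ψ : AddChar B S) (X : Set B) : Ideal S :=
  Ideal.span ((fun b => ψ b - 1) '' X)

omit [Module Lam B] in
theorem mem_JJ {X : Set B} {b : B} (hb : b ∈ X) : ψ b - 1 ∈ JJ ψ X :=
  Ideal.subset_span ⟨b, hb, rfl⟩

omit [Module Lam B] in
theorem JJ_mono {X X' : Set B} (h : X ⊆ X') : JJ ψ X ≤ JJ ψ X' :=
  Ideal.span_mono (Set.image_mono h)

theorem span_smul_ind {s : Set S} {Y : Submodule S D} {p : D → Prop} {x : D}
    (hx : x ∈ Ideal.span s • Y) (h1 : ∀ r ∈ s, ∀ y ∈ Y, p (r • y)) (h0 : p 0)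
    (hadd : ∀ x y, p x → p y → p (x + y)) : p x := by
  refine Submodule.smul_induction_on hx (fun r hr => ?_) hadd
  induction hr using Submodule.span_induction with
  | mem r hr => exact h1 r hr
  | zero => intro y _; rwa [zero_smul]
  | add a b _ _ ha hb => intro y hy; rw [add_smul]; exact hadd _ _ (ha y hy) (hb y hy)
  | smul a b _ hb =>
    intro y hy
    rw [smul_eq_mul, mul_comm, mul_smul]
    exact hb _ (Y.smul_mem a hy)

theorem semi_mem {R M : Type} [CommRing R] [AddCommGroup M] [Module R M] {σ : R →+* S}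
    (E : M →ₛₗ[σ] D) {I : Ideal R} {J : Ideal S} {Y : Submodule S D} (hJ : I.map σ ≤ J)
    (hE : ∀ r, E r ∈ Y) {y : M} (hy : y ∈ I • (⊤ : Submodule R M)) : E y ∈ J • Y := by
  refine Submodule.smul_induction_on (p := fun y => E y ∈ J • Y) hy
    (fun r hr n _ => ?_) fun x y hx hy => by rw [map_add E]; exact add_mem hx hy
  rw [map_smulₛₗ E]
  exact Submodule.smul_mem_smul (hJ (Ideal.mem_map_of_mem _ hr)) (hE n)

theorem IsFrame.beta_zpow (h : IsFrame L ψ τ) (n : ℤ) (b : B) (x : D) :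
    (τ ^ n) ((ψ b - 1) • x) = (ψ ((T n : Lam) • b) - 1) • (τ ^ n) x := by
  rw [sub_smul, sub_smul, map_sub, h.comm_zpow, one_smul, one_smul]

theorem IsFrame.inv_JJ (h : IsFrame L ψ τ) (B₁ : Submodule Lam B) (k : ℕ) (n : ℤ) :
    ∀ x ∈ JJ ψ B₁ ^ k • (⊤ : Submodule S D), (τ ^ n) x ∈ JJ ψ B₁ ^ k • (⊤ : Submodule S D) := by
  induction k with
  | zero => simp
  | succ k ih =>
    intro x hx
    rw [pow_succ', mul_smul] at hx ⊢
    refine span_smul_ind (p := fun x => (τ ^ n) x ∈ JJ ψ B₁ • JJ ψ B₁ ^ k • (⊤ : Submodule S D))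
      hx ?_ (by simp) fun x y hx hy => by rw [map_add]; exact add_mem hx hy
    rintro _ ⟨b, hb, rfl⟩ y hy
    rw [h.beta_zpow]
    exact Submodule.smul_mem_smul (mem_JJ (B₁.smul_mem _ hb)) (ih y hy)

/-- The representation of the infinite cyclic group given by an automorphism. -/
noncomputable def rhoT (τ : D ≃ₗ[ℤ] D) : Representation ℤ (Multiplicative ℤ) D :=
  LinearEquiv.automorphismGroup.toLinearMapMonoidHom.comp (zpowersHom _ τ)

theorem rhoT_apply (τ : D ≃ₗ[ℤ] D) (g : Multiplicative ℤ) (x : D) :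
    rhoT τ g x = (τ ^ g.toAdd) x := rfl

theorem GR_acc (hF : FewV L) : ACC (rhoT (tauR L Lam)) ⊤
      ((JJ (ofB Lam) Set.univ ^ 2 • (⊤ : Submodule (ZG Lam) (GR L Lam))).restrictScalars ℤ)
      ((JJ (ofB Lam) Set.univ • (⊤ : Submodule (ZG Lam) (GR L Lam))).restrictScalars ℤ) := by
  refine lemL inferInstance 1 _ (fun g _ x hx => (frame_GR L Lam).inv_JJ ⊤ 2 _ x hx) ?_ ?_
  · intro g hg x _
    have : (⊤ : Subgroup (Multiplicative ℤ)).lowerCentralSeries 1 ≤ ⊥ :=
      Subgroup.commutator_le.2 fun a _ b _ => commutatorElement_eq_one_iff_mul_comm.2 (mul_comm _ _)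
    rw [Subgroup.mem_bot.1 (this hg)]
    simp
  intro F h1 h2 h3 hinj
  refine frame_few hF (frame_GR L Lam).prod {(x0 L Lam, 0), (0, x0 L Lam)} (Set.toFinite _) ?_
    (fun E => (F E).toAddSubgroup) ?_ (fun E p hp => ?_)
    (fun E p hp => ?_)
    (Submodule.toAddSubgroup_injective.comp hinj)
  · intro W hs hb hτ
    have e1 := GR_gen (W.comap (AddMonoidHom.inl _ _)) (hs _ (Or.inl rfl))
      (fun b x hx => by simpa using hb b _ hx) fun n x hx => by
        have := hτ n _ hx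
        rwa [← zpow_semiconj (τ := tauR L Lam) (f := AddMonoidHom.inl _ _) (fun x => by simp)]
          at this
    have e2 := GR_gen (W.comap (AddMonoidHom.inr _ _)) (hs _ (Or.inr rfl))
      (fun b x hx => by simpa using hb b _ hx) fun n x hx => by
        have := hτ n _ hx
        rwa [← zpow_semiconj (τ := tauR L Lam) (f := AddMonoidHom.inr _ _) (fun x => by simp)]
          at this
    rw [eq_top_iff]
    rintro ⟨x, y⟩ -
    have hx : x ∈ W.comap (AddMonoidHom.inl _ _) := e1 ▸ trivial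
    have hy : y ∈ W.comap (AddMonoidHom.inr _ _) := e2 ▸ trivial
    simpa using add_mem (AddSubgroup.mem_comap.1 hx) (AddSubgroup.mem_comap.1 hy)
  · intro E b p hp
    have key : ∀ x ∈ JJ (ofB Lam) Set.univ • (⊤ : Submodule (ZG Lam) (GR L Lam)),
        (ofB Lam b - 1) • x ∈ JJ (ofB Lam) Set.univ ^ 2 • (⊤ : Submodule (ZG Lam) (GR L Lam)) := by
      intro x hx
      rw [pow_two, mul_smul]
      exact Submodule.smul_mem_smul (mem_JJ (Set.mem_univ b)) hx
    have h4 : (ofB Lam b - 1) • p ∈ F E := h2 E ⟨key _ (h3 E hp).1, key _ (h3 E hp).2⟩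
    have := add_mem h4 hp
    rwa [sub_smul, one_smul, sub_add_cancel] at this
  · simpa [rhoT_apply] using h1 E (Multiplicative.ofAdd 1) p hp
  · have e : ((tauR L Lam).prodCongr (tauR L Lam)).symm p =
        ((tauR L Lam ^ (-1 : ℤ)) p.1, (tauR L Lam ^ (-1 : ℤ)) p.2) := by
      apply ((tauR L Lam).prodCongr (tauR L Lam)).injective
      simp
    rw [e]
    exact h1 E (Multiplicative.ofAdd (-1)) p hp

theorem dagger (hF : FewV L) : ∃ (N : ℕ) (c : ℤ × ℕ →₀ ℤ), (∀ q ∈ c.support, q.2 < N) ∧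
    ∀ (B S D : Type) [AddCommGroup B] [Module Lam B] [CommRing S] [AddCommGroup D] [Module S D]
      (ψ : AddChar B S) (τ : D ≃ₗ[ℤ] D), IsFrame L ψ τ → ∀ (B₁ : Submodule Lam B)
      (Y : Submodule S D), (∀ n : ℤ, ∀ y ∈ Y, (τ ^ n) y ∈ Y) → ∀ b ∈ B₁, ∀ x ∈ Y, ∀ m : ℤ,
      (ψ b - 1) • (τ ^ (m * N)) x - ∑ q ∈ c.support,
        c q • ((ψ ((T (m * q.1) : Lam) • b) - 1) • (τ ^ (m * (q.1 + q.2))) x) ∈ JJ ψ B₁ ^ 2 • Y := by
  let a : ℤ × ℕ → GR L Lam := fun q =>
    (tauR L Lam ^ q.1) ((ofB Lam 1 - 1) • (tauR L Lam ^ (q.2 : ℤ)) (x0 L Lam))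
  let Y₀ := (JJ (ofB Lam) Set.univ ^ 2 • (⊤ : Submodule (ZG Lam) (GR L Lam))).restrictScalars ℤ
  obtain ⟨N, hN⟩ := GR_acc hF (fun n => Y₀ ⊔ Submodule.span ℤ (a '' {q | q.2 < n}))
    (fun i j hij => sup_le_sup_left (Submodule.span_mono (Set.image_mono fun q hq =>
      lt_of_lt_of_le hq hij)) _)
    (fun n => Inv.sup (fun g _ x hx => (frame_GR L Lam).inv_JJ ⊤ 2 _ x hx) (by
      intro g _
      show Submodule.span ℤ (a '' {q | q.2 < n}) ≤
        (Submodule.span ℤ (a '' {q | q.2 < n})).comap (rhoT (tauR L Lam) g)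
      rw [Submodule.span_le]
      rintro _ ⟨q, hq, rfl⟩
      exact Submodule.subset_span ⟨(g.toAdd + q.1, q.2), hq, zpow_add_apply _ _ _ _⟩))
    (fun n => le_sup_left) (fun n => sup_le (fun x hx => Submodule.smul_mono_left
      (Ideal.pow_le_self two_ne_zero) hx) (Submodule.span_le.2 (by
        rintro _ ⟨q, _, rfl⟩
        have := (frame_GR L Lam).inv_JJ ⊤ 1 q.1
        rw [pow_one] at this
        exact this _ (Submodule.smul_mem_smul (mem_JJ (Set.mem_univ _)) trivial))))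
  have h1 : a (0, N) ∈ Y₀ ⊔ Submodule.span ℤ (a '' {q | q.2 < N}) := by
    rw [← hN (N + 1) (Nat.le_succ N)]
    exact Submodule.mem_sup_right (Submodule.subset_span ⟨(0, N), Nat.lt_succ_self N, rfl⟩)
  obtain ⟨y, hy, z, hz, hyz⟩ := Submodule.mem_sup.1 h1
  obtain ⟨c, hc, rfl⟩ := (Finsupp.mem_span_image_iff_linearCombination ℤ).1 hz
  refine ⟨N, c, fun q hq => hc hq, fun B S D _ _ _ _ _ ψ τ h B₁ Y hY b hb x hx m => ?_⟩
  let E := (h.sub1 m b).evR x
  have hE : ∀ q, E (a q) = (ψ ((T (m * q.1) : Lam) • b) - 1) • (τ ^ (m * (q.1 + q.2))) x := by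
    intro q
    simp only [a, E]
    rw [IsFrame.evR_zpow, map_smulₛₗ, IsFrame.evR_zpow, IsFrame.evR_x0, map_sub, hat_ofB,
      map_one (hat _),
      ← zpow_mul, ← zpow_mul, AddChar.compAddMonoidHom_apply, sub1_apply, map_one, one_smul,
      h.beta_zpow, mul_add, zpow_add_apply]
  have hEY : ∀ r, E r ∈ Y := by
    intro r
    obtain ⟨w, rfl⟩ := Submodule.Quotient.mk_surjective _ r
    refine Submodule.sum_mem _ fun i _ => Y.smul_mem _ ?_
    rw [← zpow_mul]
    exact hY _ x hx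
  have hJ : (JJ (ofB Lam) Set.univ ^ 2).map (hat (ψ.compAddMonoidHom (sub1 m b))) ≤
      JJ ψ B₁ ^ 2 := by
    rw [Ideal.map_pow]
    refine Ideal.pow_right_mono ?_ 2
    rw [Ideal.map_le_iff_le_comap, JJ, Ideal.span_le]
    rintro _ ⟨v, _, rfl⟩
    show hat _ _ ∈ JJ ψ B₁
    rw [map_sub, hat_ofB, map_one (hat _)]
    exact mem_JJ (B₁.smul_mem _ hb)
  have hy' : E y ∈ JJ ψ B₁ ^ 2 • Y := semi_mem E hJ hEY hy
  have h2 := congrArg E hyz
  rw [map_add E, hE, Finsupp.linearCombination_apply, Finsupp.sum, map_sum E] at h2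
  simp only [map_zsmul E, hE, mul_zero, T_zero, one_smul, zero_add] at h2
  rw [← h2, add_sub_cancel_right]
  exact hy'

theorem subset_prods {G ι : Type} [CommGroup G] [IsMulTorsionFree G] [DecidableEq G]
    [DecidableEq ι] (g : ι → G) (hg : ∀ i, g i ≠ 1) (x : G) (s : Finset ι) :
    s.card + 1 ≤ (s.powerset.image fun I => x * ∏ k ∈ I, g k).card := by
  induction s using Finset.induction_on with
  | empty => simp
  | insert a s ha ih =>
    rw [Finset.card_insert_of_notMem ha]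
    refine Nat.succ_le_of_lt (lt_of_le_of_lt ih (Finset.card_lt_card ⟨Finset.image_subset_image
      (Finset.powerset_mono.2 (Finset.subset_insert a s)), fun hsub => ?_⟩))
    set A := s.powerset.image fun I => x * ∏ k ∈ I, g k
    have h1 : A.image (· * g a) ⊆ A := by
      intro y hy
      obtain ⟨_, hz, rfl⟩ := Finset.mem_image.1 hy
      obtain ⟨I, hI, rfl⟩ := Finset.mem_image.1 hz
      rw [Finset.mem_powerset] at hI
      refine hsub (Finset.mem_image.2 ⟨insert a I, Finset.mem_powerset.2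
        (Finset.insert_subset_insert a hI), ?_⟩)
      rw [Finset.prod_insert fun h => ha (hI h), mul_comm (g a), mul_assoc]
    have h2 : A.image (· * g a) = A := Finset.eq_of_subset_of_card_le h1
      (Finset.card_image_of_injective _ (mul_left_injective (g a))).ge
    have h3 := congrArg (fun t : Finset G => ∏ y ∈ t, y) h2
    simp only [Finset.prod_image (mul_left_injective (g a)).injOn, Finset.prod_mul_distrib,
      Finset.prod_const, mul_eq_left] at h3
    exact hg a ((pow_eq_one_iff_left (by omega)).1 h3)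

theorem PL {C ι : Type} [CommRing C] [Fintype ι] [DecidableEq ι] (i₀ : ι) (N : ℕ)
    (c : ℤ × ℕ →₀ ℤ) (hc : ∀ q ∈ c.support, q.2 < N) (hcard : c.support.card < Fintype.card ι)
    (s : ι → Cˣ) (w : Cˣ) (𝔞 : Ideal C) (h : ∀ I : Finset ι, i₀ ∉ I → ∀ m : ℤ,
      (((w * ∏ k ∈ I, s k) ^ (m * N) : Cˣ) : C) - ∑ q ∈ c.support, c q •
        ((s i₀ ^ (m * q.1) * (w * ∏ k ∈ I, s k) ^ (m * (q.1 + q.2)) : Cˣ) : C) ∈ 𝔞) :
    ∃ e, 0 < e ∧ ∃ c' : ℕ, ∏ i, ((s i : C) ^ e - 1) ^ c' ∈ 𝔞 := by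
  classical
  by_contra hcon
  push Not at hcon
  let M : Submonoid C :=
    { carrier := {x | ∃ e, 0 < e ∧ ∃ c' : ℕ, x ∣ ∏ i, ((s i : C) ^ e - 1) ^ c'}
      one_mem' := ⟨1, one_pos, 0, one_dvd _⟩
      mul_mem' := by
        rintro x y ⟨e, he, c, h⟩ ⟨e', he', c', h'⟩
        refine ⟨e * e', Nat.mul_pos he he', c + c', (mul_dvd_mul h h').trans ?_⟩
        rw [← Finset.prod_mul_distrib]
        refine Finset.prod_dvd_prod_of_dvd _ _ fun i _ => ?_
        rw [pow_add]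
        refine mul_dvd_mul (pow_dvd_pow_of_dvd ?_ _) (pow_dvd_pow_of_dvd ?_ _)
        · rw [pow_mul]; exact sub_one_dvd_pow_sub_one _ _
        · rw [pow_mul']; exact sub_one_dvd_pow_sub_one _ _ }
  obtain ⟨𝔭, h𝔭, hle, hdis⟩ := 𝔞.exists_le_prime_disjoint M (by
    rw [Set.disjoint_left]
    rintro x hx ⟨e, he, c', k, hk⟩
    exact hcon e he c' (hk ▸ Ideal.mul_mem_right _ _ hx))
  rw [Set.disjoint_left] at hdis
  let u : Cˣ →* (C ⧸ 𝔭)ˣ := Units.map (Ideal.Quotient.mk 𝔭).toMonoidHom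
  let π : Cˣ →* (C ⧸ 𝔭)ˣ ⧸ CommGroup.torsion (C ⧸ 𝔭)ˣ := (QuotientGroup.mk' _).comp u
  have h1 : ∀ i, π (s i) ≠ 1 := by
    intro i hi
    obtain ⟨e, he, h⟩ := isOfFinOrder_iff_pow_eq_one.1 ((QuotientGroup.eq_one_iff _).1 hi)
    refine hdis (a := (s i : C) ^ e - 1) ?_ ⟨e, he, 1, ?_⟩
    · rw [SetLike.mem_coe, ← Ideal.Quotient.eq_zero_iff_mem, map_sub, map_one, map_pow, sub_eq_zero]
      exact congrArg Units.val h
    · simpa using Finset.dvd_prod_of_mem (fun i => (s i : C) ^ e - 1) (Finset.mem_univ i)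
  have h2 : ∀ I : Finset ι, i₀ ∉ I → ∃ q ∈ c.support,
      (π w * ∏ k ∈ I, π (s k)) ^ ((N : ℤ) - q.2 - q.1) = π (s i₀) ^ q.1 := by
    intro I hI
    obtain ⟨q, hq, he⟩ := Ded1 c.support
      (fun q => (Units.coeHom _).comp (zpowersHom _
        (u (s i₀ ^ q.1 * (w * ∏ k ∈ I, s k) ^ (q.1 + q.2)))))
      ((Units.coeHom _).comp (zpowersHom _ (u ((w * ∏ k ∈ I, s k) ^ (N : ℤ)))))
      (fun q => (c q : C ⧸ 𝔭)) (fun m => by
        have := Ideal.Quotient.eq_zero_iff_mem.2 (hle (h I hI m.toAdd))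
        rw [map_sub, sub_eq_zero, map_sum] at this
        simp only [MonoidHom.comp_apply, zpowersHom_apply, ← map_zpow, mul_zpow, ← zpow_mul,
          mul_comm _ m.toAdd]
        simp only [mul_zpow] at this
        refine this.trans (Finset.sum_congr rfl fun q _ => ?_)
        rw [map_zsmul, zsmul_eq_mul]
        rfl)
    refine ⟨q, hq, ?_⟩
    have h3 : u (s i₀ ^ q.1 * (w * ∏ k ∈ I, s k) ^ (q.1 + q.2)) =
        u ((w * ∏ k ∈ I, s k) ^ (N : ℤ)) := by
      apply Units.val_injective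
      simpa using DFunLike.congr_fun he (Multiplicative.ofAdd 1)
    have h4 : π (s i₀ ^ q.1 * (w * ∏ k ∈ I, s k) ^ (q.1 + q.2)) =
        π ((w * ∏ k ∈ I, s k) ^ (N : ℤ)) := congrArg (QuotientGroup.mk' _) h3
    rw [map_mul, map_zpow, map_zpow, map_zpow, map_mul, map_prod] at h4
    rw [sub_sub, zpow_sub, ← h4, add_comm (q.2 : ℤ), mul_inv_cancel_right]
  let root : ℤ × ℕ → (C ⧸ 𝔭)ˣ ⧸ CommGroup.torsion (C ⧸ 𝔭)ˣ := fun q =>
    Classical.epsilon fun x => x ^ ((N : ℤ) - q.2 - q.1) = π (s i₀) ^ q.1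
  have h5 : ((Finset.univ.erase i₀).powerset.image fun I => π w * ∏ k ∈ I, π (s k)) ⊆
      c.support.image root := by
    intro y hy
    obtain ⟨I, hI, rfl⟩ := Finset.mem_image.1 hy
    obtain ⟨q, hq, he⟩ := h2 I fun h => by simpa using Finset.mem_powerset.1 hI h
    refine Finset.mem_image.2 ⟨q, hq, ?_⟩
    have h6 := Classical.epsilon_spec (p := fun x => x ^ ((N : ℤ) - q.2 - q.1) = π (s i₀) ^ q.1)
      ⟨_, he⟩
    refine (zpow_left_inj (n := (N : ℤ) - q.2 - q.1) fun h0 => ?_).1 (h6.trans he.symm)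
    rw [h0, zpow_zero, eq_comm, IsMulTorsionFree.zpow_eq_one_iff_right (h1 i₀)] at he
    have := hc q hq
    omega
  have h7 := (subset_prods (fun k => π (s k)) h1 (π w) (Finset.univ.erase i₀)).trans
    ((Finset.card_le_card h5).trans Finset.card_image_le)
  rw [Finset.card_erase_of_mem (Finset.mem_univ _), Finset.card_univ] at h7
  omega

end Pool.Agent.P.MP_ecb9b3_al
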