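import Pool.Agent.P.MP_ecb9b3_al.Frame

/-! Consequences of the linear independence of characters. -/

namespace Pool.Agent.P.MP_ecb9b3_al

open Function LaurentPolynomial

set_option maxHeartbeats 400000

theorem Ded1 {M F ι : Type} [Monoid M] [CommRing F] [IsDomain F] (s : Finset ι) (χ : ι → M →* F)
    (χ₀ : M →* F) (a : ι → F) (h : ∀ m, χ₀ m = ∑ i ∈ s, a i * χ i m) : ∃ i ∈ s, χ i = χ₀ := by
  by_contra hc
  refine (linearIndependent_monoidHom M F).notMem_span_image (s := χ '' s) (x := χ₀) hc ?_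
  have : (χ₀ : M → F) = ∑ i ∈ s, a i • (χ i : M → F) := by
    funext m; simp [h m]
  rw [this]
  exact Submodule.sum_mem _ fun i hi => Submodule.smul_mem _ _
    (Submodule.subset_span ⟨χ i, ⟨i, hi, rfl⟩, rfl⟩)

open Classical in
theorem Ded0 {M F ι : Type} [Monoid M] [CommRing F] [IsDomain F] (s : Finset ι) (χ : ι → M →* F)
    (a : ι → F) (h : ∀ m, ∑ i ∈ s, a i * χ i m = 0) (φ : M →* F) :
    ∑ i ∈ s.filter (fun i => χ i = φ), a i = 0 := by
  by_cases hφ : φ ∈ s.image χ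
  · refine linearIndependent_iff'.1 (linearIndependent_monoidHom M F) (s.image χ)
      (fun φ => ∑ i ∈ s.filter (fun i => χ i = φ), a i) ?_ φ hφ
    funext m
    rw [Pi.zero_apply, ← h m, Finset.sum_apply,
      ← Finset.sum_fiberwise_of_maps_to (g := χ) (t := s.image χ)
        fun i hi => Finset.mem_image_of_mem χ hi]
    refine Finset.sum_congr rfl fun φ _ => ?_
    rw [Pi.smul_apply, smul_eq_mul, Finset.sum_mul]
    exact Finset.sum_congr rfl fun i hi => by rw [(Finset.mem_filter.1 hi).2]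
  · exact Finset.sum_eq_zero fun i hi => absurd
      (Finset.mem_image.2 ⟨i, (Finset.mem_filter.1 hi).1, (Finset.mem_filter.1 hi).2⟩) hφ

theorem Ded2 {M F F' ι : Type} [Monoid M] [CommRing F] [IsDomain F] [CommRing F'] (s : Finset ι)
    (χ : ι → M →* F) (a : ι → ℤ) (h : ∀ m, ∑ i ∈ s, (a i : F) * χ i m = 0) (y : ι → F')
    (hy : ∀ i ∈ s, ∀ j ∈ s, χ i = χ j → y i = y j)
    (ha : ∀ t ∈ s.powerset, ((∑ i ∈ t, a i : ℤ) : F) = 0 → ((∑ i ∈ t, a i : ℤ) : F') = 0) :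
    ∑ i ∈ s, (a i : F') * y i = 0 := by
  classical
  rw [← Finset.sum_fiberwise_of_maps_to (g := χ) (t := s.image χ)
    fun i hi => Finset.mem_image_of_mem χ hi]
  refine Finset.sum_eq_zero fun φ hφ => ?_
  obtain ⟨i₀, hi₀, rfl⟩ := Finset.mem_image.1 hφ
  have h1 := ha _ (Finset.mem_powerset.2 (Finset.filter_subset (fun i => χ i = χ i₀) s)) (by
    rw [Int.cast_sum]; convert Ded0 s χ (fun i => (a i : F)) h (χ i₀))
  rw [Finset.sum_congr rfl (g := fun i => (a i : F') * y i₀), ← Finset.sum_mul, ← Int.cast_sum, h1,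
    zero_mul]
  intro i hi
  rw [hy i (Finset.mem_filter.1 hi).1 i₀ hi₀ (Finset.mem_filter.1 hi).2]

theorem lam_eval {E : Type} [CommRing E] (f : Lam →+* E) (v : Lam) :
    f v = ∑ j ∈ v.coeff.support, (v.coeff j : E) * f (T j) := by
  conv_lhs => rw [← AddMonoidAlgebra.sum_coeff_single v, Finsupp.sum, map_sum]
  refine Finset.sum_congr rfl fun j _ => ?_
  rw [single_eq_C_mul_T, map_mul, eq_intCast, map_intCast]

theorem hat_eval {B S : Type} [AddCommGroup B] [CommRing S] (ψ : AddChar B S) (u : ZG B) :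
    hat ψ u = ∑ v ∈ u.coeff.support, (u.coeff v : S) * ψ v := by
  conv_lhs => rw [← AddMonoidAlgebra.sum_coeff_single u, Finsupp.sum, map_sum]
  refine Finset.sum_congr rfl fun j _ => ?_
  rw [hat_single, zsmul_eq_mul]

/-- `T ^ e - 1`. -/
noncomputable def dl (e : ℕ) : Lam := T 1 ^ e - 1

theorem dl_dvd {e e' : ℕ} (h : e ∣ e') : dl e ∣ dl e' := by
  obtain ⟨k, rfl⟩ := h
  rw [dl, dl, pow_mul]
  exact sub_one_dvd_pow_sub_one _ k

theorem dl_pow_dvd {e e' c c' : ℕ} (h : e ∣ e') (hc : c ≤ c') : dl e ^ c ∣ dl e' ^ c' :=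
  (pow_dvd_pow_of_dvd (dl_dvd h) c).trans (pow_dvd_pow _ hc)

/-- The character `m ↦ f (T ^ (m * j))`. -/
noncomputable def chT {E : Type} [CommRing E] (f : Lam →+* E) (j : ℤ) : Multiplicative ℤ →* E where
  toFun m := f (T (m.toAdd * j))
  map_one' := by simp
  map_mul' a b := by rw [toAdd_mul, add_mul, T_add, map_mul]

theorem T_eq_dl {E : Type} [CommRing E] (f : Lam →+* E) {i j : ℤ} (hij : i < j)
    (h : f (T i) = f (T j)) : f (dl (j - i).toNat) = 0 := by
  have h1 : f (T (-i)) * f (T i) = 1 := by rw [← map_mul, ← T_add]; simp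
  rw [h, ← map_mul, ← T_add] at h1
  rw [dl, T_pow, mul_one, Int.toNat_of_nonneg (by omega), map_sub, map_one, sub_eq_neg_add j i, h1,
    sub_self]

theorem exists_dec {E : Type} [CommRing E] [IsDomain E] (f : Lam →+* E)
    (hf : ∀ e, 0 < e → f (dl e) ≠ 0) (W : Finset Lam)
    (hW : ∀ w ∈ W, ∃ j, (w.coeff j : E) ≠ 0) : ∃ m, ∀ w ∈ W, f (dec m w) ≠ 0 := by
  by_contra hc
  push Not at hc
  have hinj : Injective (chT f) := by
    intro i j h
    have h1 : f (T i) = f (T j) := by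
      simpa [chT] using DFunLike.congr_fun h (Multiplicative.ofAdd 1)
    rcases lt_trichotomy i j with hij | hij | hij
    · exact absurd (T_eq_dl f hij h1) (hf _ (by omega))
    · exact hij
    · exact absurd (T_eq_dl f hij h1.symm) (hf _ (by omega))
  let κ : Lam →+* AddMonoidAlgebra E ℤ := AddMonoidAlgebra.mapRingHom ℤ (Int.castRingHom E)
  have hκ : ∀ w j, (κ w).coeff j = (w.coeff j : E) := fun w j =>
    AddMonoidAlgebra.coeff_mapRingHom _ _ _
  have h1 : κ (∏ w ∈ W, w) = 0 := by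
    ext j
    rw [hκ]
    by_cases hj : j ∈ (∏ w ∈ W, w).coeff.support
    · refine linearIndependent_iff'.1 ((linearIndependent_monoidHom _ E).comp _ hinj) _
        (fun j => (((∏ w ∈ W, w).coeff j : ℤ) : E)) ?_ j hj
      funext m
      obtain ⟨w, hw, h0⟩ := hc m.toAdd
      have h2 : (f.comp (dec m.toAdd)) (∏ w ∈ W, w) = 0 := by
        rw [map_prod]; exact Finset.prod_eq_zero hw h0
      rw [lam_eval] at h2
      rw [Pi.zero_apply, ← h2, Finset.sum_apply]
      exact Finset.sum_congr rfl fun j _ => by simp [chT, dec_T]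
    · simp [Finsupp.notMem_support_iff.1 hj]
  rw [map_prod] at h1
  obtain ⟨w, hw, h0⟩ := Finset.prod_eq_zero_iff.1 h1
  obtain ⟨j, hj⟩ := hW w hw
  exact hj (by rw [← hκ, h0]; rfl)

theorem two_primes {l p : ℕ} (hl : l.Prime ∨ l = 0) (hp : p.Prime ∨ p = 0) (h : p ≠ 0 → l ≠ p) :
    ∃ l' p' : ℕ, l'.Prime ∧ p'.Prime ∧ l' ≠ p' ∧ l' ∣ l ∧ p' ∣ p := by
  have key : ∀ q : ℕ, ∃ r : ℕ, r.Prime ∧ r ≠ q := fun q => by
    obtain ⟨r, hr, hr'⟩ := Nat.exists_infinite_primes (q + 1)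
    exact ⟨r, hr', by omega⟩
  rcases hl with hl | rfl <;> rcases hp with hp | rfl
  · exact ⟨l, p, hl, hp, h hp.ne_zero, dvd_rfl, dvd_rfl⟩
  · obtain ⟨r, hr, hr'⟩ := key l
    exact ⟨l, r, hl, hr, hr'.symm, dvd_rfl, dvd_zero _⟩
  · obtain ⟨r, hr, hr'⟩ := key p
    exact ⟨r, p, hr, hp, hr', dvd_zero _, dvd_rfl⟩
  · exact ⟨2, 3, Nat.prime_two, Nat.prime_three, by norm_num, dvd_zero _, dvd_zero _⟩

end Pool.Agent.P.MP_ecb9b3_al
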