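import Mathlib

/-! Varieties of groups given by laws, small varieties and soluble varieties. -/

namespace Pool.Agent.P.MP_ecb9b3_al

/-- The group `G` lies in the variety defined by the set of laws `L`: every law takes the value
`1` under every substitution of elements of `G` for the variables. -/
def InV (L : Set (FreeGroup ℕ)) (G : Type) [Group G] : Prop :=
  ∀ w ∈ L, ∀ f : FreeGroup ℕ →* G, f w = 1

/-- A finitely generated group of the variety defined by `L`. -/
structure FGIn (L : Set (FreeGroup ℕ)) : Type 1 where
  carrier : Type
  [grp : Group carrier]
  fg : Group.FG carrier
  inV : InV L carrier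

/-- Two finitely generated groups of the variety are isomorphic. -/
def Iso {L : Set (FreeGroup ℕ)} (G H : FGIn L) : Prop :=
  Nonempty (@MulEquiv G.carrier H.carrier G.grp.toMul H.grp.toMul)

/-- The variety is small: it has fewer than continuum many isomorphism classes of finitely
generated groups. -/
def Small (L : Set (FreeGroup ℕ)) : Prop :=
  Cardinal.mk (Quot (fun G H : FGIn L => Iso G H)) < Cardinal.continuum

/-- The variety is soluble: all its groups are soluble of derived length at most some `k`. -/
def Soluble (L : Set (FreeGroup ℕ)) : Prop :=
  ∃ k : ℕ, ∀ (G : Type) [Group G], InV L G → derivedSeries G k = ⊥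

end Pool.Agent.P.MP_ecb9b3_al
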