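import Pool.Agent.P.MP_ecb9b3_al.Ded

/-! The pairing law for central commutators. -/

namespace Pool.Agent.P.MP_ecb9b3_al

open Function LaurentPolynomial
open scoped commutatorElement IsMulCommutative

set_option maxHeartbeats 400000

variable {L : Set (FreeGroup ℕ)} {G : Type} [Group G]

/-- The commutators of the conjugates of `x` under powers of `t` with `y`. -/
def zz (x y t : G) (i : ℤ) : G := ⁅t ^ i * x * (t ^ i)⁻¹, y⁆

theorem map_zz {G' : Type} [Group G'] (f : G →* G') (x y t : G) (i : ℤ) :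
    f (zz x y t i) = zz (f x) (f y) (f t) i := by
  simp [zz, map_commutatorElement]

theorem addChar_neg (φ : AddChar Lam G) (a : Lam) : φ (-a) = (φ a)⁻¹ := by
  rw [eq_inv_iff_mul_eq_one, ← φ.map_add_eq_mul, neg_add_cancel, φ.map_zero_eq_one]

theorem addChar_ext {φ ψ : AddChar Lam G} (h : ∀ n, φ (T n) = ψ (T n)) (v : Lam) : φ v = ψ v :=
  lam_ind (P := fun v => φ v = ψ v) h (by simp)
    (fun a b ha hb => by rw [φ.map_add_eq_mul, ψ.map_add_eq_mul, ha, hb])
    (fun a ha => by rw [addChar_neg, addChar_neg, ha]) v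

theorem addChar_mem {φ : AddChar Lam G} {K : Subgroup G} (h : ∀ n, φ (T n) ∈ K) (v : Lam) :
    φ v ∈ K :=
  lam_ind (P := fun v => φ v ∈ K) h (by simp)
    (fun a b ha hb => by rw [φ.map_add_eq_mul]; exact mul_mem ha hb)
    (fun a ha => by rw [addChar_neg]; exact inv_mem ha) v

theorem exists_zeta (z : ℤ → G) (hz : ∀ i, z i ∈ Subgroup.center G) :
    ∃ ζ : AddChar Lam G, ∀ n, ζ (T n) = z n := by
  let f : Lam →+ Additive (Subgroup.center G) :=
    (Finsupp.linearCombination ℤ fun i => Additive.ofMul (⟨z i, hz i⟩ :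
      Subgroup.center G)).toAddMonoidHom.comp AddMonoidAlgebra.coeffAddEquiv.toAddMonoidHom
  refine ⟨⟨fun v => (f v).toMul, by simp, fun a b => by simp⟩, fun n => ?_⟩
  have : f (T n) = Additive.ofMul ⟨z n, hz n⟩ :=
    (Finsupp.linearCombination_single ℤ 1 n).trans (one_smul _ _)
  exact congrArg (fun a : Additive (Subgroup.center G) => (a.toMul : G)) this

theorem cfg_closure {x y t : G}
    (h : ∀ i, Commute (zz x y t i) x ∧ Commute (zz x y t i) y ∧ Commute (zz x y t i) t) :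
    ∃ x' y' t' : Subgroup.closure ({x, y, t} : Set G), (x' : G) = x ∧ (y' : G) = y ∧ (t' : G) = t ∧
      ∀ i, zz x' y' t' i ∈ Subgroup.center _ := by
  refine ⟨⟨x, Subgroup.subset_closure (by simp)⟩, ⟨y, Subgroup.subset_closure (by simp)⟩,
    ⟨t, Subgroup.subset_closure (by simp)⟩, rfl, rfl, rfl, fun i => ?_⟩
  rw [Subgroup.mem_center_iff]
  rintro ⟨g, hg⟩
  apply Subtype.ext
  have h1 : Subgroup.closure ({x, y, t} : Set G) ≤ Subgroup.centralizer {zz x y t i} := by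
    rw [Subgroup.closure_le]
    rintro a (rfl | rfl | rfl) _ rfl
    exacts [(h i).1, (h i).2.1, (h i).2.2]
  have h2 := h1 hg _ rfl
  rw [Subgroup.coe_mul, Subgroup.coe_mul, ← Subgroup.subtype_apply (zz _ _ _ _), map_zz]
  exact h2.symm

/-- The universal ideal of relations between the central commutators. -/
noncomputable def QQ (L : Set (FreeGroup ℕ)) : Ideal Lam where
  carrier := {v | ∀ (G : Type) [Group G], InV L G → ∀ x y t : G,
    (∀ i, zz x y t i ∈ Subgroup.center G) → ∀ ζ : AddChar Lam G,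
    (∀ n, ζ (T n) = zz x y t n) → ζ v = 1}
  zero_mem' := fun G _ _ x y t _ ζ _ => ζ.map_zero_eq_one
  add_mem' := fun ha hb G _ hV x y t h ζ hζ => by
    rw [ζ.map_add_eq_mul, ha G hV x y t h ζ hζ, hb G hV x y t h ζ hζ, mul_one]
  smul_mem' := fun c v hv G _ hV x y t h ζ hζ => by
    refine lam_ind (P := fun c => ζ (c * v) = 1) (fun k => ?_) (by simp)
      (fun a b ha hb => by rw [add_mul, ζ.map_add_eq_mul, ha, hb, mul_one])
      (fun a ha => by rw [neg_mul, addChar_neg, ha, inv_one]) c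
    have e : ∀ n, zz (t ^ k * x * (t ^ k)⁻¹) y t n = zz x y t (k + n) := fun n => by
      rw [zz, zz]; congr 1; group
    exact hv G hV (t ^ k * x * (t ^ k)⁻¹) y t (fun i => e i ▸ h _)
      (ζ.compAddMonoidHom (AddMonoidHom.mulLeft (T k))) fun n => by
        rw [e, ← hζ, T_add]; rfl

theorem QQ_dec {v : Lam} (hv : v ∈ QQ L) (m : ℤ) : dec m v ∈ QQ L := by
  intro G _ hV x y t h ζ hζ
  have e : ∀ n, zz x y (t ^ m) n = zz x y t (m * n) := fun n => by rw [zz, zz, zpow_mul]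
  exact hv G hV x y (t ^ m) (fun i => e i ▸ h _) (ζ.compAddMonoidHom (dec m).toAddMonoidHom)
    fun n => by rw [e, ← hζ, ← dec_T]; rfl

theorem QQ_acc (hF : FewV L) : ACC (Representation.trivial ℤ Unit Lam) ⊤
    ((QQ L).restrictScalars ℤ) ⊤ := by
  refine lemL inferInstance 0 _ (fun g _ x hx => hx) (fun g _ x _ => by simp) ?_
  have hw : ∀ v : Lam, ∃ (G : Type) (_ : Group G) (x y t : G) (ζ : AddChar Lam G), InV L G ∧
      (∀ i, zz x y t i ∈ Subgroup.center G) ∧ (∀ n, ζ (T n) = zz x y t n) ∧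
      (ζ v = 1 → v ∈ QQ L) := by
    intro v
    by_cases hv : v ∈ QQ L
    · exact ⟨Unit, inferInstance, 1, 1, 1, 1, fun _ _ _ => rfl,
        fun _ => Subgroup.mem_center_iff.2 fun _ => rfl, fun _ => rfl, fun _ => hv⟩
    · by_contra hc
      refine hv fun G _ hV x y t h ζ hζ => ?_
      by_contra h1
      exact hc ⟨G, _, x, y, t, ζ, hV, h, hζ, fun h2 => absurd h2 h1⟩
  choose G inst x y t ζ hV hc hζ hw using hw
  obtain ⟨x', y', t', hx, hy, ht, hc'⟩ := cfg_closure (G := ∀ v, G v) (x := x) (y := y) (t := t)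
    (fun i => by
      refine ⟨?_, ?_, ?_⟩ <;> funext v <;>
        exact ((Subgroup.mem_center_iff.1 (hc v i)) _).symm)
  obtain ⟨ζ', hζ'⟩ := exists_zeta _ hc'
  have hker : ∀ v, ζ' v = 1 → v ∈ QQ L := by
    intro v hv
    let f := (Pi.evalMonoidHom G v).comp (Subgroup.closure ({x, y, t} : Set (∀ v, G v))).subtype
    have := addChar_ext (φ := f.compAddChar ζ') (ψ := ζ v) (fun n => by
      show f (ζ' (T n)) = _
      rw [hζ', map_zz, hζ]
      simp [f, hx, hy, ht]) v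
    refine hw v (this ▸ ?_)
    show f (ζ' v) = 1
    rw [hv, map_one]
  have hcen : ∀ v, ζ' v ∈ Subgroup.center _ := addChar_mem fun n => hζ' n ▸ hc' n
  intro F _ h2 _ hinj
  haveI : Group.FG (Subgroup.closure ({x, y, t} : Set (∀ v, G v))) :=
    (Group.fg_iff_subgroup_fg _).2 ((Subgroup.fg_iff _).2 ⟨_, rfl, Set.toFinite _⟩)
  let Z : Multiplicative (Lam × Lam) →* _ × _ :=
    MonoidHom.mk' (fun p => (ζ' p.toAdd.1, ζ' p.toAdd.2)) fun p q => by
      simp [ζ'.map_add_eq_mul]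
  have hVU := (InV.pi hV).sub (Subgroup.closure ({x, y, t} : Set (∀ v, G v)))
  refine hF _ inferInstance (hVU.prod hVU)
    (fun E => (F E).toAddSubgroup.toSubgroup.map Z) (fun E => ⟨?_⟩) fun E E' h => hinj ?_
  · rintro _ ⟨p, hp, rfl⟩ g
    refine ⟨p, hp, ?_⟩
    rw [eq_mul_inv_iff_mul_eq]
    exact Prod.ext (Subgroup.mem_center_iff.1 (hcen _) _).symm
      (Subgroup.mem_center_iff.1 (hcen _) _).symm
  · have key : ∀ E, ((F E).toAddSubgroup.toSubgroup.map Z).comap Z =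
        (F E).toAddSubgroup.toSubgroup := fun E => Subgroup.comap_map_eq_self fun p hp =>
      h2 E ⟨hker _ (congrArg Prod.fst hp), hker _ (congrArg Prod.snd hp)⟩
    apply Submodule.toAddSubgroup_injective
    apply AddSubgroup.toSubgroup.injective
    rw [← key E, ← key E']
    exact congrArg _ h

theorem QQ_dl (hF : FewV L) : ∃ e, 0 < e ∧ ∃ c, dl e ^ c ∈ QQ L := by
  obtain ⟨N, hN⟩ := QQ_acc hF
    (fun n => (QQ L).restrictScalars ℤ ⊔ Submodule.span ℤ ((fun j : ℕ => T j) '' {j | j < n}))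
    (fun i j hij => sup_le_sup_left (Submodule.span_mono (Set.image_mono fun q hq =>
      lt_of_lt_of_le hq hij)) _) (fun n g _ x hx => hx) (fun n => le_sup_left) fun n => le_top
  have h1 : (T N : Lam) ∈ (QQ L).restrictScalars ℤ ⊔
      Submodule.span ℤ ((fun j : ℕ => T j) '' {j | j < N}) := by
    rw [← hN (N + 1) (Nat.le_succ N)]
    exact Submodule.mem_sup_right (Submodule.subset_span ⟨N, Nat.lt_succ_self N, rfl⟩)
  obtain ⟨y, hy, z, hz, hyz⟩ := Submodule.mem_sup.1 h1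
  obtain ⟨c, hc, rfl⟩ := (Finsupp.mem_span_image_iff_linearCombination ℤ).1 hz
  refine ⟨N.factorial, N.factorial_pos, ?_⟩
  show _ ∈ (QQ L).radical
  rw [Ideal.radical_eq_sInf, Ideal.mem_sInf]
  rintro 𝔭 ⟨hle, h𝔭⟩
  obtain ⟨j, hj, he⟩ := Ded1 c.support (fun j : ℕ => chT (Ideal.Quotient.mk 𝔭) j)
    (chT (Ideal.Quotient.mk 𝔭) N) (fun j => (c j : Lam ⧸ 𝔭)) (fun m => by
      have h2 := Ideal.Quotient.eq_zero_iff_mem.2 (hle (QQ_dec hy m.toAdd))
      have h3 := congrArg (fun v => Ideal.Quotient.mk 𝔭 (dec m.toAdd v)) hyz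
      simp only [map_add, h2, zero_add, Finsupp.linearCombination_apply, Finsupp.sum, map_sum,
        map_zsmul, dec_T] at h3
      simp only [zsmul_eq_mul] at h3
      exact h3.symm)
  have hjN : j < N := hc hj
  have h4 := T_eq_dl (Ideal.Quotient.mk 𝔭) (show (j : ℤ) < N by omega) (by
    simpa [chT] using DFunLike.congr_fun he (Multiplicative.ofAdd 1))
  obtain ⟨k, hk⟩ := dl_dvd (Nat.dvd_factorial (m := ((N : ℤ) - j).toNat) (n := N) (by omega)
    (by omega))
  rw [hk]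
  exact Ideal.mul_mem_right _ _ (Ideal.Quotient.eq_zero_iff_mem.1 h4)

theorem comm_div {a b y : G} (hb : ⁅b, y⁆ ∈ Subgroup.center G) :
    ⁅a * b⁻¹, y⁆ = ⁅a, y⁆ * ⁅b, y⁆⁻¹ := by
  have h := Subgroup.mem_center_iff.1 (inv_mem hb)
  calc ⁅a * b⁻¹, y⁆ = (a * b⁻¹ * ⁅b, y⁆⁻¹) * (b * y * a⁻¹ * y⁻¹) := by
        simp only [commutatorElement_def]; group
    _ = ⁅b, y⁆⁻¹ * ⁅a, y⁆ := by rw [h, commutatorElement_def a]; group
    _ = _ := (h _).symm

theorem zeta_dl (y t : G) (e c : ℕ) : ∀ (x : G), (∀ i, zz x y t i ∈ Subgroup.center G) →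
    ∀ ζ : AddChar Lam G, (∀ n, ζ (T n) = zz x y t n) → ζ (dl e ^ c) = ⁅En (t ^ e) c x, y⁆ := by
  induction c with
  | zero =>
    intro x _ ζ hζ
    have := hζ 0
    simpa [zz, En_zero] using this
  | succ c ih =>
    intro x h ζ hζ
    have e1 : ∀ n, zz ⁅t ^ e, x⁆ y t n = zz x y t (e + n) * (zz x y t n)⁻¹ := fun n => by
      rw [zz, zz, zz, ← comm_div (h n)]
      congr 1
      rw [commutatorElement_def]; group
    rw [En_succ', ← ih _ (fun i => e1 i ▸ mul_mem (h _) (inv_mem (h _)))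
      (ζ.compAddMonoidHom (AddMonoidHom.mulLeft (dl e))) fun n => by
        rw [e1, ← hζ, ← hζ, ← addChar_neg, ← ζ.map_add_eq_mul, T_add,
          AddChar.compAddMonoidHom_apply, AddMonoidHom.coe_mulLeft, dl, T_pow, mul_one]
        congr 1; ring, pow_succ']
    rfl

theorem dia (hF : FewV L) : ∃ e, 0 < e ∧ ∃ c, ∀ (G : Type) [Group G], InV L G → ∀ x y t : G,
    (∀ i, Commute (zz x y t i) x ∧ Commute (zz x y t i) y ∧ Commute (zz x y t i) t) →
    ⁅En (t ^ e) c x, y⁆ = 1 := by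
  obtain ⟨e, he, c, h⟩ := QQ_dl hF
  refine ⟨e, he, c, fun G _ hV x y t hc => ?_⟩
  obtain ⟨x', y', t', hx, hy, ht, hc'⟩ := cfg_closure hc
  obtain ⟨ζ, hζ⟩ := exists_zeta _ hc'
  have h1 := h _ (hV.sub _) x' y' t' hc' ζ hζ
  rw [zeta_dl y' t' e c x' hc' ζ hζ] at h1
  have h2 := congrArg (Subgroup.subtype _) h1
  rwa [map_commutatorElement, map_En, map_pow, map_one, Subgroup.subtype_apply,
    Subgroup.subtype_apply, Subgroup.subtype_apply, hx, hy, ht] at h2

end Pool.Agent.P.MP_ecb9b3_al
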