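import Pool.Agent.P.MP_ecb9b3_al.LemL

/-! Frames: an abelian group `B` with an automorphism `T`, acting together with a compatible
automorphism on a module whose affine group lies in the variety. The generic cyclic frame. -/

namespace Pool.Agent.P.MP_ecb9b3_al

open Function LaurentPolynomial Equiv

set_option maxHeartbeats 400000

/-- Integral Laurent polynomials. -/
abbrev Lam : Type := LaurentPolynomial ℤ

/-- Integral group ring of an additive group. -/
abbrev ZG (B : Type) : Type := AddMonoidAlgebra ℤ B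

variable {L : Set (FreeGroup ℕ)} {B S D : Type} [AddCommGroup B] [Module Lam B] [CommRing S]
  [AddCommGroup D] [Module S D]

/-- The maps generating the linear group of a frame. -/
def frX (ψ : AddChar B S) (τ : D ≃ₗ[ℤ] D) : Set (D → D) :=
  Set.range (fun b (x : D) => ψ b • x) ∪ {⇑τ}

/-- A frame. -/
structure IsFrame (L : Set (FreeGroup ℕ)) (ψ : AddChar B S) (τ : D ≃ₗ[ℤ] D) : Prop where
  comm : ∀ b x, τ (ψ b • x) = ψ ((T 1 : Lam) • b) • τ x
  pa : PA L (frX ψ τ)

theorem zpow_semiconj {D' : Type} [AddCommGroup D'] {τ : D ≃ₗ[ℤ] D} {τ' : D' ≃ₗ[ℤ] D'}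
    {f : D → D'} (h : ∀ x, f (τ x) = τ' (f x)) (n : ℤ) (x : D) :
    f ((τ ^ n) x) = (τ' ^ n) (f x) := by
  induction n using Int.induction_on generalizing x with
  | zero => simp
  | succ n ih => rw [zpow_add_one, zpow_add_one, LinearEquiv.mul_apply, LinearEquiv.mul_apply, ih, h]
  | pred n ih =>
    rw [zpow_sub_one, zpow_sub_one, LinearEquiv.mul_apply, LinearEquiv.mul_apply, ih]
    congr 1
    apply τ'.injective
    rw [← h]
    simp

theorem zpow_add_apply (τ : D ≃ₗ[ℤ] D) (m n : ℤ) (x : D) :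
    (τ ^ (m + n)) x = (τ ^ m) ((τ ^ n) x) := by rw [zpow_add, LinearEquiv.mul_apply]

theorem zpow_mem_of {σ : Type} [SetLike σ D] {τ : D ≃ₗ[ℤ] D} {W : σ}
    (h1 : ∀ x ∈ W, τ x ∈ W) (h2 : ∀ x ∈ W, τ.symm x ∈ W) (n : ℤ) : ∀ x ∈ W, (τ ^ n) x ∈ W := by
  induction n using Int.induction_on with
  | zero => simp
  | succ n ih => intro x hx; rw [zpow_add_one, LinearEquiv.mul_apply]; exact ih _ (h1 x hx)
  | pred n ih => intro x hx; rw [zpow_sub_one, LinearEquiv.mul_apply]; exact ih _ (h2 x hx)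

variable {ψ : AddChar B S} {τ : D ≃ₗ[ℤ] D}

theorem IsFrame.comm_zpow (h : IsFrame L ψ τ) (n : ℤ) (b : B) (x : D) :
    (τ ^ n) (ψ b • x) = ψ ((T n : Lam) • b) • (τ ^ n) x := by
  induction n using Int.induction_on generalizing b x with
  | zero => simp
  | succ n ih =>
    rw [zpow_add_one, LinearEquiv.mul_apply, LinearEquiv.mul_apply, h.comm, ih, smul_smul, ← T_add]
  | pred n ih =>
    rw [zpow_sub_one, LinearEquiv.mul_apply, LinearEquiv.mul_apply, T_sub, mul_smul, ← ih]
    congr 1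
    apply τ.injective
    rw [h.comm, smul_smul, ← T_add]
    simp

/-- The permutation given by `ψ b`. -/
def permOf (ψ : AddChar B S) (D : Type) [AddCommGroup D] [Module S D] (b : B) : Perm D where
  toFun x := ψ b • x
  invFun x := ψ (-b) • x
  left_inv x := by simp [smul_smul, ← ψ.map_add_eq_mul]
  right_inv x := by simp [smul_smul, ← ψ.map_add_eq_mul]

theorem permOf_mem (b : B) : permOf ψ D b ∈ Aff (frX ψ τ) :=
  Subgroup.subset_closure (Or.inl (Or.inl ⟨b, rfl⟩))

theorem tau_mem : τ.toEquiv ∈ Aff (frX ψ τ) := Subgroup.subset_closure (Or.inl (Or.inr rfl))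

theorem toEquiv_zpow_apply (τ : D ≃ₗ[ℤ] D) (n : ℤ) (x : D) :
    ((τ.toEquiv : Perm D) ^ n) x = (τ ^ n) x := by
  let f : (D ≃ₗ[ℤ] D) →* Perm D := MonoidHom.mk' (fun e => e.toEquiv) fun _ _ => rfl
  exact (congrArg (fun π : Perm D => π x) (map_zpow f τ n)).symm

theorem IsFrame.subst (h : IsFrame L ψ τ) {B' : Type} [AddCommGroup B'] [Module Lam B']
    (φ : B' →+ B) (m : ℤ) (hφ : ∀ b, φ ((T 1 : Lam) • b) = (T m : Lam) • φ b) :
    IsFrame L (ψ.compAddMonoidHom φ) (τ ^ m) := by
  refine ⟨fun b x => by simp [h.comm_zpow, hφ], h.pa.mono ?_⟩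
  rintro π (⟨b, hb⟩ | hπ)
  · have : π = permOf ψ D (φ b) := by ext x; exact (congrFun hb x).symm
    rw [this]; exact permOf_mem _
  · have : π = τ.toEquiv ^ m := by
      ext x; rw [toEquiv_zpow_apply]; exact congrFun hπ x
    rw [this]; exact zpow_mem tau_mem m

theorem frame_of_sep (hc : ∀ b x, τ (ψ b • x) = ψ ((T 1 : Lam) • b) • τ x)
    (hsep : ∀ x : D, x ≠ 0 → ∃ (S' D' : Type) (_ : CommRing S') (_ : AddCommGroup D')
      (_ : Module S' D') (ψ' : AddChar B S') (τ' : D' ≃ₗ[ℤ] D') (f : D →+ D'),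
      IsFrame L ψ' τ' ∧ f x ≠ 0 ∧ (∀ b x, f (ψ b • x) = ψ' b • f x) ∧ ∀ x, f (τ x) = τ' (f x)) :
    IsFrame L ψ τ := by
  refine ⟨hc, PA_of_sep fun x hx => ?_⟩
  obtain ⟨S', D', _, _, _, ψ', τ', f, hF, hfx, h1, h2⟩ := hsep x hx
  refine ⟨D', inferInstance, frX ψ' τ', f, hF.pa, hfx, ?_⟩
  rintro π (⟨b, hb⟩ | hπ)
  · exact ⟨permOf ψ' D' b, permOf_mem b, fun x => by rw [← hb]; exact h1 b x⟩
  · exact ⟨τ'.toEquiv, tau_mem, fun x => by rw [Set.mem_singleton_iff.1 hπ]; exact h2 x⟩

theorem IsFrame.prod (h : IsFrame L ψ τ) : IsFrame L ψ (τ.prodCongr τ) := by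
  refine frame_of_sep (fun b x => by ext <;> simp [h.comm]) fun x hx => ?_
  by_cases h1 : x.1 = 0
  · exact ⟨S, D, _, _, _, ψ, τ, AddMonoidHom.snd D D, h, fun h2 => hx (Prod.ext h1 h2),
      fun _ _ => rfl, fun _ => rfl⟩
  · exact ⟨S, D, _, _, _, ψ, τ, AddMonoidHom.fst D D, h, h1, fun _ _ => rfl, fun _ => rfl⟩

theorem lam_ind {P : Lam → Prop} (hT : ∀ n, P (T n)) (h0 : P 0) (hadd : ∀ a b, P a → P b → P (a + b))
    (hneg : ∀ a, P a → P (-a)) (v : Lam) : P v := by
  let W : AddSubgroup Lam := ⟨⟨⟨{v | P v}, fun {a b} => hadd a b⟩, h0⟩, fun {a} => hneg a⟩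
  show v ∈ W
  induction v using LaurentPolynomial.induction_on' with
  | add a b ha hb => exact add_mem ha hb
  | C_mul_T n a =>
    have : (C a * T n : Lam) = a • T n := by rw [smul_eq_C_mul]
    rw [this]
    exact zsmul_mem (show T n ∈ W from hT n) a

theorem conj_tr (π : Perm D) (hadd : ∀ x y, π (x + y) = π x + π y) (d : D) :
    π * Equiv.addRight d * π⁻¹ = Equiv.addRight (π d) := by
  ext x; simp [hadd]

/-- Translations by elements of `W`. -/
def TT (W : AddSubgroup D) : Subgroup (Perm D) where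
  carrier := {π | ∃ d ∈ W, π = Equiv.addRight d}
  one_mem' := ⟨0, zero_mem _, by ext; simp⟩
  mul_mem' := by
    rintro _ _ ⟨d, hd, rfl⟩ ⟨e, he, rfl⟩
    exact ⟨e + d, add_mem he hd, by ext; simp [add_assoc]⟩
  inv_mem' := by
    rintro _ ⟨d, hd, rfl⟩
    exact ⟨-d, neg_mem hd, by ext; simp⟩

theorem frame_few (hF : FewV L) {ψ : AddChar Lam S} (h : IsFrame L ψ τ) (s : Set D)
    (hs : s.Finite) (hgen : ∀ W : AddSubgroup D, (∀ x ∈ s, x ∈ W) → (∀ b, ∀ x ∈ W, ψ b • x ∈ W) →
      (∀ n : ℤ, ∀ x ∈ W, (τ ^ n) x ∈ W) → W = ⊤) (F : Set ℕ → AddSubgroup D)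
    (h1 : ∀ E b, ∀ x ∈ F E, ψ b • x ∈ F E) (h2 : ∀ E, ∀ x ∈ F E, τ x ∈ F E)
    (h3 : ∀ E, ∀ x ∈ F E, τ.symm x ∈ F E) : ¬ Injective F := by
  intro hinj
  let X : Set (Perm D) := insert (permOf ψ D 1) (insert τ.toEquiv ((fun d => Equiv.addRight d) '' s))
  let Γ := Subgroup.closure X
  have hΓ : Γ ≤ Aff (frX ψ τ) := by
    rw [Subgroup.closure_le]
    rintro π (rfl | rfl | ⟨d, _, rfl⟩)
    · exact permOf_mem _
    · exact tau_mem
    · exact Subgroup.subset_closure (Or.inr ⟨d, fun _ => rfl⟩)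
  have hV : InV L Γ := InV.of_inj (Subgroup.inclusion hΓ) (Subgroup.inclusion_injective hΓ) h.pa
  have hfg : Group.FG Γ := (Group.fg_iff_subgroup_fg Γ).2 ((Subgroup.fg_iff Γ).2
    ⟨X, rfl, ((hs.image _).insert _).insert _⟩)
  have ht : (τ.toEquiv : Perm D) ∈ Γ := Subgroup.subset_closure (Or.inr (Or.inl rfl))
  have ha : ∀ b, permOf ψ D b ∈ Γ := by
    refine lam_ind (fun n => ?_) ?_ (fun a b ha hb => ?_) fun a ha => ?_
    · have : permOf ψ D (T n) = τ.toEquiv ^ n * permOf ψ D 1 * (τ.toEquiv ^ n)⁻¹ := by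
        rw [eq_mul_inv_iff_mul_eq]
        ext x
        simp only [Perm.coe_mul, comp_apply, toEquiv_zpow_apply]
        show ψ _ • _ = (τ ^ n) (ψ 1 • x)
        rw [h.comm_zpow, smul_eq_mul, mul_one]
      rw [this]
      exact mul_mem (mul_mem (zpow_mem ht n) (Subgroup.subset_closure (Or.inl rfl)))
        (inv_mem (zpow_mem ht n))
    · have : permOf ψ D 0 = 1 := by ext x; simp [permOf]
      rw [this]; exact one_mem _
    · have : permOf ψ D (a + b) = permOf ψ D a * permOf ψ D b := by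
        ext x; simp [permOf, ψ.map_add_eq_mul, mul_smul]
      rw [this]; exact mul_mem ha hb
    · have : permOf ψ D (-a) = (permOf ψ D a)⁻¹ := by ext x; rfl
      rw [this]; exact inv_mem ha
  let W₀ : AddSubgroup D :=
    { carrier := {d | Equiv.addRight d ∈ Γ}
      zero_mem' := by
        have : Equiv.addRight (0 : D) = 1 := by ext; simp
        show _ ∈ Γ
        rw [this]; exact one_mem _
      add_mem' := fun {a b} ha hb => by
        have : Equiv.addRight (a + b) = Equiv.addRight b * Equiv.addRight a := by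
          ext; simp [add_assoc]
        show _ ∈ Γ
        rw [this]; exact mul_mem hb ha
      neg_mem' := fun {a} ha => by
        have : Equiv.addRight (-a) = (Equiv.addRight a)⁻¹ := by ext; simp
        show _ ∈ Γ
        rw [this]; exact inv_mem ha }
  have hW₀ : W₀ = ⊤ := by
    refine hgen W₀ (fun x hx => Subgroup.subset_closure (Or.inr (Or.inr ⟨x, hx, rfl⟩))) ?_ ?_
    · intro b x hx
      show Equiv.addRight (permOf ψ D b x) ∈ Γ
      rw [← conj_tr _ (smul_add _)]
      exact mul_mem (mul_mem (ha b) hx) (inv_mem (ha b))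
    · intro n x hx
      show Equiv.addRight _ ∈ Γ
      rw [← toEquiv_zpow_apply, ← conj_tr _ (fun x y => by simp [toEquiv_zpow_apply])]
      exact mul_mem (mul_mem (zpow_mem ht n) hx) (inv_mem (zpow_mem ht n))
  refine hF Γ hfg hV (fun E => (TT (F E)).subgroupOf Γ) (fun E => ?_) fun E E' hE => hinj ?_
  · have key : ∀ γ ∈ Γ, ∀ d ∈ F E, γ * Equiv.addRight d * γ⁻¹ ∈ TT (F E) := by
      intro γ hγ
      induction hγ using Subgroup.closure_induction'' with
      | mem γ hγ =>
        rcases hγ with rfl | rfl | ⟨e, _, rfl⟩ <;> intro d hd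
        · exact ⟨_, h1 E 1 d hd, conj_tr _ (smul_add _) d⟩
        · exact ⟨_, h2 E d hd, conj_tr _ (map_add τ) d⟩
        · exact ⟨d, hd, by ext; simp [add_assoc]⟩
      | inv_mem γ hγ =>
        rcases hγ with rfl | rfl | ⟨e, _, rfl⟩ <;> intro d hd
        · exact ⟨_, h1 E (-1) d hd, conj_tr _ (smul_add _) d⟩
        · exact ⟨_, h3 E d hd, conj_tr _ (map_add τ.symm) d⟩
        · exact ⟨d, hd, by ext; simp [add_assoc]⟩
      | one => exact fun d hd => ⟨d, hd, by simp⟩
      | mul a b _ _ iha ihb =>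
        intro d hd
        obtain ⟨e, he, he'⟩ := ihb d hd
        have := iha e he
        rw [← he'] at this
        convert this using 1; group
    refine ⟨?_⟩
    rintro ⟨π, hπ⟩ ⟨d, hd, hd'⟩ ⟨γ, hγ⟩
    have := key γ hγ d hd
    rw [← hd'] at this
    exact this
  · have key : ∀ E d, d ∈ F E ↔ (⟨Equiv.addRight d, show d ∈ W₀ from hW₀ ▸ trivial⟩ : Γ) ∈
        (TT (F E)).subgroupOf Γ := by
      intro E d
      refine ⟨fun hd => ⟨d, hd, rfl⟩, fun ⟨e, he, hde⟩ => ?_⟩
      have := congrArg (fun π : Perm D => π 0) hde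
      simp only [Subgroup.coe_subtype, coe_addRight, zero_add] at this
      rwa [this]
    ext d
    rw [key, key]
    simp only at hE
    rw [hE]

/-- The ring homomorphism on the group ring extending a character. -/
noncomputable def hat (ψ : AddChar B S) : ZG B →+* S :=
  (AddMonoidAlgebra.lift ℤ S B ψ.toMonoidHom).toRingHom

omit [Module Lam B] in
theorem hat_single (ψ : AddChar B S) (b : B) (a : ℤ) :
    hat ψ (AddMonoidAlgebra.single b a) = a • ψ b :=
  AddMonoidAlgebra.lift_single _ _ _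

/-- The shift on the group ring. -/
noncomputable def sh (B : Type) [AddCommGroup B] [Module Lam B] (n : ℤ) : ZG B →+* ZG B :=
  AddMonoidAlgebra.mapDomainRingHom ℤ (DistribSMul.toAddMonoidHom B (T n : Lam))

theorem sh_single (n : ℤ) (b : B) (a : ℤ) :
    sh B n (AddMonoidAlgebra.single b a) = AddMonoidAlgebra.single ((T n : Lam) • b) a :=
  AddMonoidAlgebra.mapDomain_single

theorem IsFrame.comm_hat (h : IsFrame L ψ τ) (n : ℤ) (s : ZG B) (x : D) :
    (τ ^ n) (hat ψ s • x) = hat ψ (sh B n s) • (τ ^ n) x := by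
  induction s using AddMonoidAlgebra.induction_linear with
  | zero => simp
  | add a b ha hb => simp only [map_add, add_smul, ha, hb]
  | single b a => rw [sh_single, hat_single, hat_single, smul_assoc, smul_assoc, map_zsmul,
      h.comm_zpow]

/-- The tautological character. -/
noncomputable def ofB (B : Type) [AddCommGroup B] : AddChar B (ZG B) where
  toFun b := AddMonoidAlgebra.single b 1
  map_zero_eq_one' := rfl
  map_add_eq_mul' a b := by rw [AddMonoidAlgebra.single_mul_single, mul_one]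

omit [Module Lam B] in
theorem hat_ofB (ψ : AddChar B S) (b : B) : hat ψ (ofB B b) = ψ b :=
  (hat_single ψ b 1).trans (one_smul _ _)

/-- The free cyclic module. -/
abbrev GU (B : Type) : Type := ℤ →₀ ZG B

/-- Evaluation of the free cyclic module at a point of a frame. -/
noncomputable def ev (ψ : AddChar B S) (τ : D ≃ₗ[ℤ] D) (x : D) : GU B →ₛₗ[hat ψ] D where
  toFun w := w.sum fun i s => hat ψ s • (τ ^ i) x
  map_add' _ _ := Finsupp.sum_add_index' (by simp) (by simp [add_smul])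
  map_smul' s w := by
    rw [Finsupp.sum_smul_index' (by simp), Finsupp.smul_sum]
    simp [mul_smul]

omit [Module Lam B] in
theorem ev_single (ψ : AddChar B S) (τ : D ≃ₗ[ℤ] D) (x : D) (i : ℤ) (s : ZG B) :
    ev ψ τ x (Finsupp.single i s) = hat ψ s • (τ ^ i) x :=
  Finsupp.sum_single_index (h := fun i s => hat ψ s • (τ ^ i) x) (by simp)

/-- The shift on the free cyclic module. -/
noncomputable def up (B : Type) [AddCommGroup B] [Module Lam B] (n : ℤ) :
    GU B →ₛₗ[sh B n] GU B where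
  toFun w := w.sum fun i s => Finsupp.single (n + i) (sh B n s)
  map_add' _ _ := Finsupp.sum_add_index' (by simp) (by simp)
  map_smul' s w := by
    rw [Finsupp.sum_smul_index' (by simp), Finsupp.smul_sum]
    simp

theorem up_single (n i : ℤ) (s : ZG B) :
    up B n (Finsupp.single i s) = Finsupp.single (n + i) (sh B n s) :=
  Finsupp.sum_single_index (h := fun i s => Finsupp.single (n + i) (sh B n s)) (by simp)

theorem IsFrame.ev_up (h : IsFrame L ψ τ) (x : D) (n : ℤ) (w : GU B) :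
    ev ψ τ x (up B n w) = (τ ^ n) (ev ψ τ x w) := by
  induction w using Finsupp.induction_linear with
  | zero => simp
  | add a b ha hb => simp only [map_add, ha, hb]
  | single i s => rw [up_single, ev_single, ev_single, h.comm_hat, zpow_add_apply]

/-- The relations that hold in every frame. -/
noncomputable def GI (L : Set (FreeGroup ℕ)) (B : Type) [AddCommGroup B] [Module Lam B] :
    Submodule (ZG B) (GU B) where
  carrier := {w | ∀ (S D : Type) [CommRing S] [AddCommGroup D] [Module S D] (ψ : AddChar B S)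
    (τ : D ≃ₗ[ℤ] D), IsFrame L ψ τ → ∀ x, ev ψ τ x w = 0}
  zero_mem' := fun _ _ _ _ _ _ _ _ _ => map_zero _
  add_mem' := fun ha hb S D _ _ _ ψ τ h x => by rw [map_add, ha S D ψ τ h, hb S D ψ τ h, add_zero]
  smul_mem' := fun s w hw S D _ _ _ ψ τ h x => by rw [map_smulₛₗ, hw S D ψ τ h, smul_zero]

/-- The generic cyclic module. -/
abbrev GR (L : Set (FreeGroup ℕ)) (B : Type) [AddCommGroup B] [Module Lam B] : Type :=
  GU B ⧸ GI L B

/-- Evaluation of the generic module. -/
noncomputable def IsFrame.evR (h : IsFrame L ψ τ) (x : D) : GR L B →ₛₗ[hat ψ] D :=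
  (GI L B).liftQ (ev ψ τ x) fun _ hw => hw S D ψ τ h x

theorem IsFrame.evR_mk (h : IsFrame L ψ τ) (x : D) (w : GU B) :
    h.evR x (Submodule.Quotient.mk w) = ev ψ τ x w := rfl

theorem GR_zero {r : GR L B} (h : ∀ (S D : Type) [CommRing S] [AddCommGroup D] [Module S D]
    (ψ : AddChar B S) (τ : D ≃ₗ[ℤ] D) (h : IsFrame L ψ τ) x, h.evR x r = 0) : r = 0 := by
  obtain ⟨w, rfl⟩ := Submodule.Quotient.mk_surjective _ r
  exact (Submodule.Quotient.mk_eq_zero _).2 h

theorem GR_ext {r r' : GR L B} (h : ∀ (S D : Type) [CommRing S] [AddCommGroup D] [Module S D]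
    (ψ : AddChar B S) (τ : D ≃ₗ[ℤ] D) (h : IsFrame L ψ τ) x, h.evR x r = h.evR x r') : r = r' :=
  sub_eq_zero.1 (GR_zero fun S D _ _ _ ψ τ hF x => by rw [map_sub, h S D ψ τ hF x, sub_self])

/-- The shift on the generic module. -/
noncomputable def upR (L : Set (FreeGroup ℕ)) (B : Type) [AddCommGroup B] [Module Lam B] (n : ℤ) :
    GR L B →ₛₗ[sh B n] GR L B :=
  (GI L B).mapQ (GI L B) (up B n) fun w hw S D _ _ _ ψ τ h x => by
    rw [h.ev_up, hw S D ψ τ h, map_zero]

theorem IsFrame.evR_upR (h : IsFrame L ψ τ) (x : D) (n : ℤ) (r : GR L B) :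
    h.evR x (upR L B n r) = (τ ^ n) (h.evR x r) := by
  obtain ⟨w, rfl⟩ := Submodule.Quotient.mk_surjective _ r
  exact h.ev_up x n w

/-- The automorphism of the generic frame. -/
noncomputable def tauR (L : Set (FreeGroup ℕ)) (B : Type) [AddCommGroup B] [Module Lam B] :
    GR L B ≃ₗ[ℤ] GR L B :=
  AddEquiv.toIntLinearEquiv
    { toFun := upR L B 1
      invFun := upR L B (-1)
      left_inv := fun r => GR_ext fun S D _ _ _ ψ τ h x => by
        rw [h.evR_upR, h.evR_upR, ← zpow_add_apply]; simp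
      right_inv := fun r => GR_ext fun S D _ _ _ ψ τ h x => by
        rw [h.evR_upR, h.evR_upR, ← zpow_add_apply]; simp
      map_add' := map_add _ }

theorem IsFrame.evR_tau (h : IsFrame L ψ τ) (x : D) (r : GR L B) :
    h.evR x (tauR L B r) = τ (h.evR x r) := by
  have := h.evR_upR x 1 r
  rwa [zpow_one] at this

theorem IsFrame.evR_zpow (h : IsFrame L ψ τ) (x : D) (n : ℤ) (r : GR L B) :
    h.evR x ((tauR L B ^ n) r) = (τ ^ n) (h.evR x r) :=
  zpow_semiconj (h.evR_tau x) n r

theorem tauR_zpow_mk (n : ℤ) (w : GU B) :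
    (tauR L B ^ n) (Submodule.Quotient.mk w) = Submodule.Quotient.mk (up B n w) :=
  GR_ext fun S D _ _ _ ψ τ h x => by rw [h.evR_zpow, h.evR_mk, h.evR_mk, h.ev_up]

theorem frame_GR (L : Set (FreeGroup ℕ)) (B : Type) [AddCommGroup B] [Module Lam B] :
    IsFrame L (ofB B) (tauR L B) := by
  refine frame_of_sep (fun b r => GR_ext fun S D _ _ _ ψ τ h x => ?_) fun r hr => ?_
  · rw [h.evR_tau, map_smulₛₗ (h.evR x), map_smulₛₗ (h.evR x), hat_ofB, hat_ofB, h.evR_tau, h.comm]
  · by_contra hc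
    refine hr (GR_zero fun S D _ _ _ ψ τ h x => ?_)
    by_contra hx
    exact hc ⟨S, D, _, _, _, ψ, τ, (h.evR x).toAddMonoidHom, h, hx, fun b y => by
      simp only [LinearMap.toAddMonoidHom_coe, map_smulₛₗ, hat_ofB], h.evR_tau x⟩

/-- The generator of the generic module. -/
noncomputable def x0 (L : Set (FreeGroup ℕ)) (B : Type) [AddCommGroup B] [Module Lam B] :
    GR L B := Submodule.Quotient.mk (Finsupp.single 0 1)

theorem IsFrame.evR_x0 (h : IsFrame L ψ τ) (x : D) : h.evR x (x0 L B) = x := by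
  rw [x0, h.evR_mk, ev_single]; simp

theorem GR_gen (W : AddSubgroup (GR L B)) (h0 : x0 L B ∈ W)
    (h1 : ∀ b, ∀ x ∈ W, ofB B b • x ∈ W) (h2 : ∀ n : ℤ, ∀ x ∈ W, (tauR L B ^ n) x ∈ W) :
    W = ⊤ := by
  have h3 : ∀ s : ZG B, ∀ x ∈ W, s • x ∈ W := by
    intro s x hx
    induction s using AddMonoidAlgebra.induction_linear with
    | zero => simp
    | add a b ha hb => rw [add_smul]; exact add_mem ha hb
    | single b a =>
      have : AddMonoidAlgebra.single b a = a • ofB B b := by simp [ofB]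
      rw [this, smul_assoc]
      exact zsmul_mem (h1 b x hx) a
  rw [eq_top_iff]
  rintro r -
  obtain ⟨w, rfl⟩ := Submodule.Quotient.mk_surjective _ r
  induction w using Finsupp.induction_linear with
  | zero => simp
  | add a b ha hb => rw [Submodule.Quotient.mk_add]; exact add_mem ha hb
  | single i s =>
    have : (Submodule.Quotient.mk (Finsupp.single i s) : GR L B) = s • (tauR L B ^ i) (x0 L B) :=
      GR_ext fun S D _ _ _ ψ τ h x => by
        rw [h.evR_mk, ev_single, map_smulₛₗ, h.evR_zpow, h.evR_x0]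
    rw [this]
    exact h3 s _ (h2 i _ h0)

/-- Decimation. -/
noncomputable def dec (m : ℤ) : Lam →+* Lam :=
  AddMonoidAlgebra.mapDomainRingHom ℤ (AddMonoidHom.mulLeft m)

theorem dec_T (m n : ℤ) : dec m (T n) = T (m * n) := AddMonoidAlgebra.mapDomain_single

/-- The substitution sending `1` to `b` and `T` to `T ^ m`. -/
noncomputable def sub1 (m : ℤ) (b : B) : Lam →+ B :=
  (LinearMap.toSpanSingleton Lam B b).toAddMonoidHom.comp (dec m).toAddMonoidHom

theorem sub1_apply (m : ℤ) (b : B) (v : Lam) : sub1 m b v = dec m v • b := rfl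

theorem IsFrame.sub1 (h : IsFrame L ψ τ) (m : ℤ) (b : B) :
    IsFrame L (ψ.compAddMonoidHom (sub1 m b)) (τ ^ m) :=
  h.subst _ m fun v => by
    rw [sub1_apply, sub1_apply, smul_eq_mul, map_mul, dec_T, mul_one, mul_smul]

end Pool.Agent.P.MP_ecb9b3_al
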