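import Pool.Agent.P.MP_ecb9b3_al.Law

/-! The nilpotency law in the language of groups, and the maximal condition for metanilpotent
groups. -/

namespace Pool.Agent.P.MP_ecb9b3_al

open Function LaurentPolynomial Subgroup
open scoped commutatorElement IsMulCommutative

set_option maxHeartbeats 400000

variable {L : Set (FreeGroup ℕ)} {G : Type} [Group G]

theorem conj_module (X : Subgroup G) [X.Normal] (hab : ∀ a ∈ X, ∀ b ∈ X, a * b = b * a) :
    ∃ (D : Type) (_ : AddCommGroup D) (ι : D → G) (ρ : G →* (D ≃ₗ[ℤ] D)),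
      (∀ x y, ι (x + y) = ι x * ι y) ∧ Injective ι ∧ (∀ g, g ∈ X ↔ ∃ x, ι x = g) ∧
      ∀ g x, ι (ρ g x) = g * ι x * g⁻¹ := by
  haveI : IsMulCommutative X := ⟨⟨fun a b => Subtype.ext (hab _ a.2 _ b.2)⟩⟩
  refine ⟨Additive X, inferInstance, fun x => x.toMul,
    MonoidHom.mk' (fun g => (MulEquiv.toAdditive (MulAut.conjNormal g)).toIntLinearEquiv)
      fun g h => by ext x; rw [map_mul]; rfl,
    fun _ _ => rfl, fun x y h => Subtype.ext h, fun g => ⟨fun h => ⟨Additive.ofMul ⟨g, h⟩, rfl⟩, ?_⟩,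
    fun _ _ => rfl⟩
  rintro ⟨x, rfl⟩
  exact x.toMul.2

theorem lam_module (B : Type) [AddCommGroup B] (σ : B ≃ₗ[ℤ] B) :
    ∃ _ : Module Lam B, ∀ b : B, (T 1 : Lam) • b = σ b :=
  ⟨Module.compHom B (AddMonoidAlgebra.lift ℤ (Module.End ℤ B) ℤ (rhoT σ)).toRingHom, fun b => by
    show AddMonoidAlgebra.lift ℤ (Module.End ℤ B) ℤ (rhoT σ) (AddMonoidAlgebra.single 1 1) b = _
    rw [AddMonoidAlgebra.lift_single, one_smul, rhoT_apply]
    simp⟩

theorem zg_module (B D : Type) [AddCommGroup B] [AddCommGroup D]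
    (θ : Multiplicative B →* Module.End ℤ D) :
    ∃ _ : Module (ZG B) D, ∀ (b : B) (x : D), ofB B b • x = θ (Multiplicative.ofAdd b) x :=
  ⟨Module.compHom D (AddMonoidAlgebra.lift ℤ (Module.End ℤ D) B θ).toRingHom, fun b x => by
    show AddMonoidAlgebra.lift ℤ (Module.End ℤ D) B θ (AddMonoidAlgebra.single b 1) x = _
    rw [AddMonoidAlgebra.lift_single, one_smul]⟩

theorem glaw (hF : FewV L) : ∃ e, 0 < e ∧ ∃ c k : ℕ, ∀ (G : Type) [Group G], InV L G →
    ∀ X W W' : Subgroup G, X.Normal → W.Normal → (∀ a ∈ X, ∀ b ∈ X, a * b = b * a) →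
    (∀ a ∈ W, ∀ b ∈ W, ⁅a, b⁆ ∈ centralizer (X : Set G)) → ∀ t : G,
    (∀ w' ∈ W', ∃ w ∈ W, (En (t ^ e) c w)⁻¹ * w' ∈ centralizer (X : Set G)) →
    ∀ x ∈ X, UP W' ⊥ k x := by
  obtain ⟨e, he, c, k, h⟩ := law hF
  refine ⟨e, he, c, k, fun G _ hV X W W' hX hW hab hWW t hW' => ?_⟩
  obtain ⟨D, _, ι, ρ, hadd, hinj, hr, hρ⟩ := conj_module X hab
  have h0 : ι 0 = 1 := by simpa using hadd 0 0
  have hsub : ∀ x y, ι (x - y) = ι x * (ι y)⁻¹ := fun x y => by
    rw [eq_mul_inv_iff_mul_eq, ← hadd, sub_add_cancel]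
  have hcen : ∀ g ∈ centralizer (X : Set G), ρ g = 1 := fun g hg => by
    ext x
    apply hinj
    rw [hρ, ← hg _ ((hr _).2 ⟨x, rfl⟩)]
    simp
  let θ : Abelianization W →* (D ≃ₗ[ℤ] D) := QuotientGroup.lift (commutator W) (ρ.comp W.subtype)
    (commutator_le.2 fun a _ b _ => hcen _ (hWW _ a.2 _ b.2))
  obtain ⟨iB, hB⟩ := lam_module (Additive (Abelianization W))
    (MulEquiv.toAdditive (MulAut.conjNormal (H := W) t).abelianizationCongr).toIntLinearEquiv
  obtain ⟨iD, hD⟩ := zg_module (Additive (Abelianization W)) D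
    (LinearEquiv.automorphismGroup.toLinearMapMonoidHom.comp (θ.comp
      (MulEquiv.multiplicativeAdditive _).toMonoidHom))
  let cl : W → Additive (Abelianization W) := fun w => Additive.ofMul (Abelianization.of w)
  have hcl : Surjective cl := fun b => QuotientGroup.mk_surjective b.toMul
  have hD' : ∀ (w : W) (x : D), ofB _ (cl w) • x = ρ w x := fun w x => hD _ x
  have hB' : ∀ w : W, (T 1 : Lam) • cl w = cl (MulAut.conjNormal t w) := fun w => hB _
  have hfr : IsFrame L (ofB (Additive (Abelianization W))) (ρ t) := by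
    refine ⟨fun b x => ?_, PA_conj hV ι hadd hinj _ ?_⟩
    · obtain ⟨w, rfl⟩ := hcl b
      rw [hB', hD', hD', ← LinearEquiv.mul_apply, ← LinearEquiv.mul_apply, ← map_mul, ← map_mul,
        MulAut.conjNormal_apply, inv_mul_cancel_right]
    · rintro φ (⟨b, rfl⟩ | rfl)
      · obtain ⟨w, rfl⟩ := hcl b
        exact ⟨w, fun x => by simp only [hD', hρ]⟩
      · exact ⟨t, hρ t⟩
  have hT : ∀ (n : ℕ) (w : W), (T 1 ^ n : Lam) • cl w = cl (MulAut.conjNormal (t ^ n) w) := by
    intro n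
    induction n with
    | zero => simp
    | succ n ih => intro w; rw [pow_succ, mul_smul, hB', ih, pow_succ, map_mul]; rfl
  have hE : ∀ (n : ℕ) (w : W), dl e ^ n • cl w = cl ⟨En (t ^ e) n w, En_mem _ _ w.2⟩ := by
    intro n w
    induction n with
    | zero => simp [En_zero]
    | succ n ih =>
      rw [pow_succ', mul_smul, ih, dl, sub_smul, one_smul, hT]
      simp only [cl]
      rw [← ofMul_div, ← map_div]
      congr 2
      apply Subtype.ext
      simp [En_succ, commutatorElement_def, div_eq_mul_inv, -map_pow]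
  have key : ∀ (n : ℕ) (x : D), (∀ s ∈ JJ (ofB (Additive (Abelianization W)))
      (Set.range fun b => dl e ^ c • b) ^ n, s • x = 0) → UP W' ⊥ n (ι x) := by
    intro n
    induction n with
    | zero =>
      intro x hx
      have := hx 1 (by simp)
      rw [one_smul] at this
      rw [this, h0]; exact one_mem _
    | succ n ih =>
      intro x hx w' hw'
      obtain ⟨w, hw, hc⟩ := hW' w' hw'
      have h1 : ⁅w', ι x⁆ = ι ((ofB _ (dl e ^ c • cl ⟨w, hw⟩) - 1) • x) := by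
        have h2 := hcen _ hc
        rw [map_mul, map_inv, inv_mul_eq_one] at h2
        rw [hE, sub_smul, one_smul, hD', hsub, h2, hρ, commutatorElement_def]
      rw [h1]
      refine ih _ fun s hs => ?_
      rw [← mul_smul]
      exact hx _ (by rw [pow_succ]; exact Ideal.mul_mem_mul hs (mem_JJ ⟨_, rfl⟩))
  intro x hx
  obtain ⟨x, rfl⟩ := (hr x).1 hx
  exact key k x fun s hs => h _ _ _ _ _ hfr (Submodule.smul_mem_smul hs trivial)

theorem mem_centralizer_map {X Y : Subgroup G} [Y.Normal] {g : G} (h : ∀ x ∈ X, ⁅g, x⁆ ∈ Y) :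
    QuotientGroup.mk' Y g ∈ centralizer (X.map (QuotientGroup.mk' Y) : Set (G ⧸ Y)) := by
  rintro _ ⟨x, hx, rfl⟩
  exact ((comm_mem_iff Y g x).1 (h x hx)).symm

theorem glaw_rel (hF : FewV L) : ∃ e, 0 < e ∧ ∃ c k : ℕ, ∀ (G : Type) [Group G], InV L G →
    ∀ X Y W W' : Subgroup G, X.Normal → Y.Normal → W.Normal → (∀ a ∈ X, ∀ b ∈ X, ⁅a, b⁆ ∈ Y) →
    (∀ a ∈ W, ∀ b ∈ W, ∀ x ∈ X, ⁅⁅a, b⁆, x⁆ ∈ Y) → ∀ t : G,
    (∀ w' ∈ W', ∃ w ∈ W, ∀ x ∈ X, ⁅(En (t ^ e) c w)⁻¹ * w', x⁆ ∈ Y) →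
    ∀ x ∈ X, UP W' Y k x := by
  obtain ⟨e, he, c, k, h⟩ := glaw hF
  refine ⟨e, he, c, k, fun G _ hV X Y W W' hX hY hW hab hWW t hW' x hx => ?_⟩
  have hs := QuotientGroup.mk'_surjective Y
  have := h _ (hV.quot Y) (X.map (QuotientGroup.mk' Y)) (W.map (QuotientGroup.mk' Y))
    (W'.map (QuotientGroup.mk' Y)) (hX.map _ hs) (hW.map _ hs) (by
      rintro _ ⟨a, ha, rfl⟩ _ ⟨b, hb, rfl⟩
      exact (comm_mem_iff Y a b).1 (hab a ha b hb)) (by
      rintro _ ⟨a, ha, rfl⟩ _ ⟨b, hb, rfl⟩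
      rw [← map_commutatorElement]
      exact mem_centralizer_map (hWW a ha b hb)) (QuotientGroup.mk' Y t) (by
      rintro _ ⟨w', hw', rfl⟩
      obtain ⟨w, hw, hc⟩ := hW' w' hw'
      refine ⟨_, mem_map_of_mem _ hw, ?_⟩
      rw [← map_pow, ← map_En, ← map_inv, ← map_mul]
      exact mem_centralizer_map hc) _ (mem_map_of_mem _ hx)
  rwa [UP_map, MonoidHom.comap_bot, QuotientGroup.ker_mk'] at this

theorem NC_comap {G' : Type} [Group G'] (f : G →* G') (hf : Surjective f) {X : Subgroup G'}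
    (h : NC ⊥ X) : NC f.ker (X.comap f) := by
  intro g hg hN h1 h2
  obtain ⟨n, hn⟩ := h (fun n => (g n).map f) (fun i j hij => map_mono (hg hij))
    (fun n => (hN n).map f hf) (fun _ => bot_le) fun n => map_le_iff_le_comap.2 (h2 n)
  refine ⟨n, fun m hm => ?_⟩
  rw [← comap_map_eq_self (h1 m), ← comap_map_eq_self (h1 n)]
  exact congrArg _ (hn m hm)

theorem central_nc (hF : FewV L) (hfg : Group.FG G) (hV : InV L G) (c : ℕ) (X : Subgroup G)
    [X.Normal] (hX : X ≤ (⊤ : Subgroup G).lowerCentralSeries c)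
    (hc : (⊤ : Subgroup G).lowerCentralSeries c ≤ centralizer (X : Set G)) : NC ⊥ X := by
  obtain ⟨D, _, ι, ρ, hadd, hinj, hr, hρ⟩ := conj_module X fun a ha b hb => hc (hX hb) a ha
  have hιX : ∀ x, ι x ∈ X := fun x => (hr _).2 ⟨x, rfl⟩
  have hcen : ∀ g ∈ (⊤ : Subgroup G).lowerCentralSeries c, ∀ x, ρ g x = x := fun g hg x => by
    apply hinj
    rw [hρ, ← hc hg _ (hιX x)]
    simp
  let ι' : Multiplicative D →* G := MonoidHom.mk' (fun x => ι x.toAdd) fun x y => hadd _ _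
  have hacc : ACC (LinearEquiv.automorphismGroup.toLinearMapMonoidHom.comp ρ) ⊤ ⊥ ⊤ := by
    refine lemL hfg c _ inv_bot (fun g hg x _ => ?_) fun F h1 _ _ hinj' => ?_
    · exact (Submodule.mem_bot ℤ).2 (sub_eq_zero.2 (hcen g hg x))
    obtain ⟨s, hs, hM⟩ := lcs_nfg hfg c
    obtain ⟨S, hS, hSf⟩ := Group.fg_iff.1 hfg
    set M := (⊤ : Subgroup G).lowerCentralSeries c
    let P : Subgroup (G × G) := ((QuotientGroup.mk' M).comp (MonoidHom.fst G G)).eqLocus
      ((QuotientGroup.mk' M).comp (MonoidHom.snd G G))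
    have hP : ∀ p : G × G, p ∈ P ↔ p.1⁻¹ * p.2 ∈ M := fun p => QuotientGroup.eq
    have hPfg : P.FG := by
      refine (Subgroup.fg_iff P).2 ⟨(fun g => (g, g)) '' S ∪ (fun g => (1, g)) '' s, ?_,
        (hSf.image _).union (hs.image _)⟩
      set Γ := closure ((fun g : G => (g, g)) '' S ∪ (fun g => (1, g)) '' s)
      have h2 : ∀ g, (g, g) ∈ Γ := fun g => by
        have : closure S ≤ Γ.comap ((MonoidHom.id G).prod (MonoidHom.id G)) :=
          (closure_le _).2 fun g hg => subset_closure (Or.inl ⟨g, hg, rfl⟩)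
        exact this (hS ▸ mem_top g)
      haveI : (Γ.comap (MonoidHom.inr G G)).Normal := ⟨fun m hm g => by
        have := mul_mem (mul_mem (h2 g) hm) (inv_mem (h2 g))
        simpa [mem_comap] using this⟩
      have h3 : M ≤ Γ.comap (MonoidHom.inr G G) := hM ▸
        normalClosure_le_normal fun g hg => subset_closure (Or.inr ⟨g, hg, rfl⟩)
      refine le_antisymm ((closure_le _).2 ?_) fun p hp => ?_
      · rintro _ (⟨g, _, rfl⟩ | ⟨g, hg, rfl⟩)
        · exact (hP _).2 (by simp)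
        · exact (hP _).2 (by simpa [hM] using subset_normalClosure hg)
      · simpa using mul_mem (h2 p.1) (h3 ((hP p).1 hp))
    let Z : Multiplicative (D × D) →* G × G :=
      MonoidHom.mk' (fun p => (ι p.toAdd.1, ι p.toAdd.2)) fun p q => by simp [hadd]
    have hZ : Injective Z := fun p q h =>
      Prod.ext (hinj (congrArg Prod.fst h)) (hinj (congrArg Prod.snd h))
    have hZP : ∀ E, (F E).toAddSubgroup.toSubgroup.map Z ≤ P := by
      rintro E _ ⟨p, _, rfl⟩
      exact (hP _).2 (mul_mem (inv_mem (hX (hιX _))) (hX (hιX _)))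
    refine hF P ((Group.fg_iff_subgroup_fg P).2 hPfg) ((hV.prod hV).sub P)
      (fun E => ((F E).toAddSubgroup.toSubgroup.map Z).subgroupOf P) (fun E => ⟨?_⟩)
      fun E E' h => hinj' ?_
    · rintro ⟨_, _⟩ ⟨p, hp, rfl⟩ ⟨g, hg⟩
      refine ⟨Multiplicative.ofAdd (ρ g.1 p.toAdd.1, ρ g.1 p.toAdd.2), h1 E g.1 _ hp, ?_⟩
      refine Prod.ext (hρ _ _) ?_
      show ι (ρ g.1 p.toAdd.2) = g.2 * ι p.toAdd.2 * g.2⁻¹
      rw [← hρ, ← hcen _ ((hP g).1 hg) p.toAdd.2, ← LinearEquiv.mul_apply, ← map_mul,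
        mul_inv_cancel_left, hcen _ ((hP g).1 hg)]
    · apply Submodule.toAddSubgroup_injective
      apply AddSubgroup.toSubgroup.injective
      apply map_injective hZ
      rw [← map_subgroupOf_eq_of_le (hZP E), ← map_subgroupOf_eq_of_le (hZP E')]
      exact congrArg _ h
  intro f hf hN _ h2
  obtain ⟨n, hn⟩ := hacc (fun n => AddSubgroup.toIntSubmodule (AddSubgroup.toSubgroup.symm
    ((f n).comap ι'))) (fun i j hij x hx => hf hij hx)
    (fun n g _ x hx => by
      show ι (ρ g x) ∈ f n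
      rw [hρ]; exact (hN n).conj_mem _ hx g) (fun _ => bot_le) fun _ => le_top
  refine ⟨n, fun m hm => le_antisymm (fun x hx => ?_) (hf hm)⟩
  obtain ⟨y, rfl⟩ := (hr x).1 (h2 m hx)
  exact (SetLike.ext_iff.1 (hn m hm) y).1 hx

theorem map_lcs_top {G' : Type} [Group G'] (f : G →* G') (hf : Surjective f) (c : ℕ) :
    ((⊤ : Subgroup G).lowerCentralSeries c).map f = (⊤ : Subgroup G').lowerCentralSeries c := by
  rw [map_lowerCentralSeries, map_top_of_surjective f hf]

theorem meta_nc (hF : FewV L) (hfg : Group.FG G) (hV : InV L G) (c k : ℕ)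
    (h : ((⊤ : Subgroup G).lowerCentralSeries c).lowerCentralSeries k ≤ ⊥) :
    NC (⊥ : Subgroup G) ⊤ := by
  have key : ∀ i, NC (((⊤ : Subgroup G).lowerCentralSeries c).lowerCentralSeries i) ⊤ := by
    intro i
    induction i with
    | zero => exact nc_lcs hfg c
    | succ i ih =>
      refine NC.trans ?_ ih (Subgroup.lowerCentralSeries_antitone _ (Nat.le_succ i)) le_top
      set Y := ((⊤ : Subgroup G).lowerCentralSeries c).lowerCentralSeries (i + 1)
      have hs := QuotientGroup.mk'_surjective Y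
      haveI := (lcs_normal ((⊤ : Subgroup G).lowerCentralSeries c) i).map _ hs
      have h1 := central_nc hF (G := G ⧸ Y) inferInstance (hV.quot Y) c
        ((((⊤ : Subgroup G).lowerCentralSeries c).lowerCentralSeries i).map (QuotientGroup.mk' Y))
        (by rw [← map_lcs_top _ hs]; exact map_mono (lcs_le _ i)) (by
          rw [← map_lcs_top _ hs]
          rintro _ ⟨g, hg, rfl⟩
          exact mem_centralizer_map fun x hx => comm_mem_swap (commutator_mem_commutator hx hg))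
      have h2 := NC_comap _ hs h1
      rw [QuotientGroup.ker_mk'] at h2
      exact h2.mono le_rfl (le_comap_map _ _)
  exact (key k).mono h le_rfl

end Pool.Agent.P.MP_ecb9b3_al
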