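import Pool.Agent.P.MP_ecb9b3_al.Nilp

/-! Hall's Noetherian property and a weak form of generic freeness for modules over group rings
of finitely generated nilpotent groups, in a fixed ambient representation. -/

namespace Pool.Agent.P.MP_ecb9b3_al

open Submodule
open scoped commutatorElement

set_option maxHeartbeats 400000

variable {C : Type} [CommRing C] {G : Type} [Group G] {A : Type} [AddCommGroup A] [Module C A]

/-- `S` is invariant under the subgroup `N`. -/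
def Inv (ρ : Representation C G A) (N : Subgroup G) (S : Submodule C A) : Prop :=
  ∀ g ∈ N, ∀ x ∈ S, ρ g x ∈ S

/-- The `N`-invariant submodule generated by `s`. -/
def gen (ρ : Representation C G A) (N : Subgroup G) (s : Set A) : Submodule C A :=
  span C {y | ∃ g ∈ N, ∃ x ∈ s, ρ g x = y}

variable {ρ : Representation C G A} {N : Subgroup G}

theorem rho_mul (g h : G) (x : A) : ρ (g * h) x = ρ g (ρ h x) := by simp

theorem mem_gen {s : Set A} {g : G} (hg : g ∈ N) {x : A} (hx : x ∈ s) : ρ g x ∈ gen ρ N s :=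
  subset_span ⟨g, hg, x, hx, rfl⟩

theorem subset_gen {s : Set A} {x : A} (hx : x ∈ s) : x ∈ gen ρ N s := by
  simpa using mem_gen (ρ := ρ) N.one_mem hx

theorem inv_gen (s : Set A) : Inv ρ N (gen ρ N s) := by
  intro g hg
  show gen ρ N s ≤ (gen ρ N s).comap (ρ g)
  rw [gen, span_le]
  rintro _ ⟨h, hh, x, hx, rfl⟩
  show ρ g (ρ h x) ∈ gen ρ N s
  rw [← rho_mul]
  exact mem_gen (mul_mem hg hh) hx

theorem gen_le {s : Set A} {S : Submodule C A} (hS : Inv ρ N S) (hs : ∀ x ∈ s, x ∈ S) :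
    gen ρ N s ≤ S := by
  rw [gen, span_le]
  rintro _ ⟨h, hh, x, hx, rfl⟩
  exact hS h hh x (hs x hx)

theorem Inv.sup {S T : Submodule C A} (hS : Inv ρ N S) (hT : Inv ρ N T) : Inv ρ N (S ⊔ T) := by
  intro g hg x hx
  obtain ⟨a, ha, b, hb, rfl⟩ := mem_sup.1 hx
  rw [map_add]
  exact add_mem_sup (hS g hg a ha) (hT g hg b hb)

theorem Inv.inf {S T : Submodule C A} (hS : Inv ρ N S) (hT : Inv ρ N T) : Inv ρ N (S ⊓ T) :=
  fun g hg x hx => ⟨hS g hg x hx.1, hT g hg x hx.2⟩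

theorem Inv.mono {N' : Subgroup G} {S : Submodule C A} (hS : Inv ρ N S) (h : N' ≤ N) :
    Inv ρ N' S := fun g hg => hS g (h hg)

theorem inv_bot : Inv ρ N ⊥ := fun g _ x hx => by
  rw [mem_bot] at hx ⊢; rw [hx, map_zero]

theorem inv_top : Inv ρ N ⊤ := fun _ _ _ _ => mem_top

theorem Inv.iSup {ι : Sort*} {S : ι → Submodule C A} (hS : ∀ i, Inv ρ N (S i)) :
    Inv ρ N (⨆ i, S i) := by
  intro g hg
  show (⨆ i, S i) ≤ (⨆ i, S i).comap (ρ g)
  exact iSup_le fun i x hx => mem_iSup_of_mem i (hS i g hg x hx)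

theorem Inv.map [hN : N.Normal] {S : Submodule C A} (hS : Inv ρ N S) (u : G) :
    Inv ρ N (S.map (ρ u)) := by
  rintro g hg _ ⟨x, hx, rfl⟩
  refine ⟨ρ (u⁻¹ * g * u⁻¹⁻¹) x, hS _ (hN.conj_mem g hg u⁻¹) x hx, ?_⟩
  rw [← rho_mul, ← rho_mul]; congr 2; group

theorem Inv.comap [hN : N.Normal] {S : Submodule C A} (hS : Inv ρ N S) (u : G) :
    Inv ρ N (S.comap (ρ u)) := by
  intro g hg x hx
  have := hS _ (hN.conj_mem g hg u) _ hx
  rw [← rho_mul] at this
  show ρ u (ρ g x) ∈ S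
  rw [← rho_mul]
  convert this using 3; group

/-- The weak generic freeness property of the section `X / Y` with respect to `z`. -/
def Phi (Y X : Submodule C A) (z : C) : Prop :=
  ∀ u : C, (1 + z * u ≠ 0 → ∀ x ∈ X, (1 + z * u) • x ∈ Y → x ∈ Y) ∧
    (¬ IsUnit (1 + z * u) → (∀ x ∈ X, ∃ y ∈ X, x - (1 + z * u) • y ∈ Y) →
      ∀ x ∈ X, ∃ d : C, d ≠ 0 ∧ d • x ∈ Y)

theorem Phi.of_dvd {Y X : Submodule C A} {z z' : C} (h : Phi Y X z) (hz : z ∣ z') :
    Phi Y X z' := by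
  obtain ⟨k, rfl⟩ := hz
  intro u
  rw [mul_assoc]
  exact h (k * u)

variable [IsDomain C]

theorem Phi.refl (Y : Submodule C A) (z : C) : Phi Y Y z :=
  fun _ => ⟨fun _ _ hx _ => hx, fun _ _ x hx => ⟨1, one_ne_zero, by simpa using hx⟩⟩

theorem Phi.trans {Y X W : Submodule C A} {z : C} (h1 : Phi Y X z) (h2 : Phi X W z) (hYX : Y ≤ X)
    (hXW : X ≤ W) : Phi Y W z := by
  intro u
  refine ⟨fun hc x hx hcx => (h1 u).1 hc x ((h2 u).1 hc x hx (hYX hcx)) hcx, fun hc h x hx => ?_⟩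
  by_cases h0 : 1 + z * u = 0
  · obtain ⟨y, _, hy⟩ := h x hx
    exact ⟨1, one_ne_zero, by simpa [h0] using hy⟩
  obtain ⟨d, hd, hdx⟩ := (h2 u).2 hc (fun x hx => by
    obtain ⟨y, hy, hy'⟩ := h x hx
    exact ⟨y, hy, hYX hy'⟩) x hx
  obtain ⟨d', hd', hdx'⟩ := (h1 u).2 hc (fun x hx => by
    obtain ⟨y, hy, hy'⟩ := h x (hXW hx)
    refine ⟨y, (h2 u).1 h0 y hy ?_, hy'⟩
    simpa using sub_mem hx (hYX hy')) _ hdx
  exact ⟨d' * d, mul_ne_zero hd' hd, by rwa [mul_smul]⟩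

theorem Phi.chain {F : ℕ → Submodule C A} {z : C} (hF : Monotone F)
    (h : ∀ n, Phi (F n) (F (n + 1)) z) : Phi (F 0) (⨆ n, F n) z := by
  have h1 : ∀ n m, n ≤ m → Phi (F n) (F m) z := by
    intro n m hnm
    induction hnm with
    | refl => exact Phi.refl _ _
    | step hm ih => exact ih.trans (h _) (hF hm) (hF (Nat.le_succ _))
  have hm : ∀ x, x ∈ (⨆ n, F n) → ∃ n, x ∈ F n := fun x hx =>
    (mem_iSup_of_directed F hF.directed_le).1 hx
  intro u
  refine ⟨fun hc x hx hcx => ?_, fun hc h x hx => ?_⟩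
  · obtain ⟨n, hn⟩ := hm x hx
    exact (h1 0 n (Nat.zero_le n) u).1 hc x hn hcx
  by_cases h0 : 1 + z * u = 0
  · obtain ⟨y, _, hy⟩ := h x hx
    exact ⟨1, one_ne_zero, by simpa [h0] using hy⟩
  obtain ⟨n, hn⟩ := hm x hx
  refine (h1 0 n (Nat.zero_le n) u).2 hc (fun x hx => ?_) x hn
  obtain ⟨y, hy, hy'⟩ := h x (mem_iSup_of_mem n hx)
  obtain ⟨k, hk⟩ := hm y hy
  refine ⟨y, (h1 n (max n k) (le_max_left _ _) u).1 h0 y (hF (le_max_right _ _) hk) ?_, hy'⟩
  simpa using sub_mem hx (hF (Nat.zero_le n) hy')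

omit [IsDomain C] in
theorem Phi.map {F X : Submodule C A} {z : C} (g : A →ₗ[C] A) (h : Phi (X ⊓ F.comap g) X z) :
    Phi F (F ⊔ X.map g) z := by
  intro u
  refine ⟨fun hc x hx hcx => ?_, fun hc h' x hx => ?_⟩
  · obtain ⟨f, hf, _, ⟨n, hn, rfl⟩, rfl⟩ := mem_sup.1 hx
    refine add_mem hf ((h u).1 hc n hn ⟨smul_mem _ _ hn, ?_⟩).2
    rw [smul_add] at hcx
    show g (_ • n) ∈ F
    rw [map_smul]
    simpa using sub_mem hcx (smul_mem _ (1 + z * u) hf)
  · obtain ⟨f, hf, _, ⟨n, hn, rfl⟩, rfl⟩ := mem_sup.1 hx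
    obtain ⟨d, hd, hdn⟩ := (h u).2 hc (fun n hn => by
      obtain ⟨_, hy, hy'⟩ := h' (g n) (mem_sup_right (mem_map_of_mem hn))
      obtain ⟨f', hf', _, ⟨n', hn', rfl⟩, rfl⟩ := mem_sup.1 hy
      refine ⟨n', hn', sub_mem hn (smul_mem _ _ hn'), ?_⟩
      show g (n - _ • n') ∈ F
      rw [map_sub, map_smul]
      have := add_mem hy' (smul_mem _ (1 + z * u) hf')
      rw [smul_add] at this
      convert this using 1; abel) n hn
    refine ⟨d, hd, ?_⟩
    rw [smul_add, ← map_smul]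
    exact add_mem (smul_mem _ _ hf) hdn.2

theorem phi_cyclic (F : Submodule C A) (a : A) : ∃ z : C, z ≠ 0 ∧ Phi F (F ⊔ span C {a}) z := by
  by_cases h : ∃ z : C, z ≠ 0 ∧ z • a ∈ F
  · obtain ⟨z, hz, hza⟩ := h
    have key : ∀ x ∈ F ⊔ span C {a}, z • x ∈ F := by
      intro x hx
      obtain ⟨f, hf, _, hr, rfl⟩ := mem_sup.1 hx
      obtain ⟨r, rfl⟩ := mem_span_singleton.1 hr
      rw [smul_add, smul_comm z r]
      exact add_mem (smul_mem _ _ hf) (smul_mem _ _ hza)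
    refine ⟨z, hz, fun u => ⟨fun _ x hx hcx => ?_, fun _ _ x hx => ⟨z, hz, key x hx⟩⟩⟩
    rw [add_smul, one_smul, mul_comm, mul_smul] at hcx
    simpa using sub_mem hcx (smul_mem _ u (key x hx))
  · push Not at h
    refine ⟨1, one_ne_zero, fun u => ⟨fun hc x hx hcx => ?_, fun hc h' => ?_⟩⟩
    · obtain ⟨f, hf, _, hr, rfl⟩ := mem_sup.1 hx
      obtain ⟨r, rfl⟩ := mem_span_singleton.1 hr
      by_cases hr : r = 0
      · simpa [hr] using hf
      refine absurd ?_ (h _ (mul_ne_zero hc hr))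
      rw [smul_add] at hcx
      rw [mul_smul]
      simpa using sub_mem hcx (smul_mem _ (1 + 1 * u) hf)
    · exfalso
      obtain ⟨_, hy, hy'⟩ := h' a (mem_sup_right (mem_span_singleton_self a))
      obtain ⟨f, hf, _, hr, rfl⟩ := mem_sup.1 hy
      obtain ⟨r, rfl⟩ := mem_span_singleton.1 hr
      refine h (1 - (1 + 1 * u) * r) (fun e => hc ?_) ?_
      · exact IsUnit.of_mul_eq_one r (sub_eq_zero.1 e).symm
      · have := add_mem hy' (smul_mem _ (1 + 1 * u) hf)
        rw [smul_add] at this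
        rw [sub_smul, one_smul, mul_smul]
        convert this using 1; abel

theorem phi_span (Y : Submodule C A) (s : Set A) (hs : s.Finite) :
    ∃ z : C, z ≠ 0 ∧ Phi Y (Y ⊔ span C s) z := by
  induction s, hs using Set.Finite.induction_on with
  | empty => exact ⟨1, one_ne_zero, by simpa using Phi.refl Y 1⟩
  | @insert a s _ _ ih =>
    obtain ⟨z, hz, h⟩ := ih
    obtain ⟨z', hz', h'⟩ := phi_cyclic (Y ⊔ span C s) a
    refine ⟨z * z', mul_ne_zero hz hz', ?_⟩
    rw [span_insert, sup_comm (span C {a}), ← sup_assoc]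
    exact (h.of_dvd (dvd_mul_right _ _)).trans (h'.of_dvd (dvd_mul_left _ _)) le_sup_left
      le_sup_left

/-- The ascending chain condition for `N`-invariant submodules between `Y` and `X`. -/
def ACC (ρ : Representation C G A) (N : Subgroup G) (Y X : Submodule C A) : Prop :=
  ∀ f : ℕ → Submodule C A, Monotone f → (∀ n, Inv ρ N (f n)) → (∀ n, Y ≤ f n) → (∀ n, f n ≤ X) →
    ∃ n, ∀ m, n ≤ m → f m = f n

/-- Finitely generated `N`-submodules are Noetherian and weakly generically free. -/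
def Good (ρ : Representation C G A) (N : Subgroup G) : Prop :=
  ∀ s : Set A, s.Finite → ACC ρ N ⊥ (gen ρ N s) ∧
    ∀ Y, Inv ρ N Y → Y ≤ gen ρ N s → ∃ z : C, z ≠ 0 ∧ Phi Y (gen ρ N s) z

theorem good_base [IsNoetherianRing C] (h : ∀ g ∈ N, ∀ x, ρ g x = x) : Good ρ N := by
  intro s hs
  have he : gen ρ N s = span C s := by
    refine le_antisymm (gen_le (fun g hg x hx => by rwa [h g hg]) fun x hx => subset_span hx) ?_
    exact span_le.2 fun x hx => subset_gen hx
  rw [he]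
  refine ⟨fun f hf _ _ h2 => ?_, fun Y _ hY => ?_⟩
  · haveI := isNoetherian_span_of_finite C hs
    obtain ⟨n, hn⟩ := monotone_stabilizes_iff_noetherian.2 this
      ⟨fun n => (f n).comap (span C s).subtype, fun i j hij => comap_mono (hf hij)⟩
    refine ⟨n, fun m hm => le_antisymm (fun x hx => ?_) (hf hm)⟩
    have h3 : (⟨x, h2 m hx⟩ : span C s) ∈ (f m).comap (span C s).subtype := hx
    have h4 : (f n).comap (span C s).subtype = (f m).comap (span C s).subtype := hn m hm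
    rw [← h4] at h3
    exact h3
  · obtain ⟨z, hz, h⟩ := phi_span Y s hs
    exact ⟨z, hz, by rwa [sup_eq_right.2 hY] at h⟩

/-- `F₀` together with the first `b` translates of `X` under powers of `u`. -/
def Fch (ρ : Representation C G A) (u : G) (F₀ X : Submodule C A) : ℕ → Submodule C A
  | 0 => F₀
  | b + 1 => Fch ρ u F₀ X b ⊔ X.map (ρ (u ^ b))

omit [IsDomain C]

theorem Fch_mono (u : G) (F₀ X : Submodule C A) : Monotone (Fch ρ u F₀ X) :=
  monotone_nat_of_le_succ fun _ => le_sup_left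

theorem Fch_inv [N.Normal] (u : G) {F₀ X : Submodule C A} (h0 : Inv ρ N F₀) (hX : Inv ρ N X)
    (b : ℕ) : Inv ρ N (Fch ρ u F₀ X b) := by
  induction b with
  | zero => exact h0
  | succ b ih => exact ih.sup (hX.map _)

theorem Fch_shift {u : G} {F₀ X : Submodule C A} (hu : ∀ x ∈ F₀, ρ u x ∈ F₀ ⊔ X) (b : ℕ) :
    ∀ x ∈ Fch ρ u F₀ X b, ρ u x ∈ Fch ρ u F₀ X (b + 1) := by
  induction b with
  | zero => intro x hx; simpa [Fch, Module.End.one_eq_id] using hu x hx
  | succ b ih =>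
    intro x hx
    obtain ⟨f, hf, _, ⟨y, hy, rfl⟩, rfl⟩ := mem_sup.1 hx
    rw [map_add, ← rho_mul, ← pow_succ']
    exact add_mem_sup (ih f hf) (mem_map_of_mem hy)

theorem Fch_le {u : G} {F₀ X Z : Submodule C A} (h0 : F₀ ≤ Z) (hX : X ≤ Z)
    (hZ : ∀ b : ℕ, ∀ x ∈ Z, ρ (u ^ b) x ∈ Z) (b : ℕ) : Fch ρ u F₀ X b ≤ Z := by
  induction b with
  | zero => exact h0
  | succ b ih =>
    refine sup_le ih ?_
    rintro _ ⟨x, hx, rfl⟩
    exact hZ b x (hX hx)

theorem mem_Fch {u : G} {F₀ X : Submodule C A} (b : ℕ) {x : A} (hx : x ∈ X) :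
    ρ (u ^ b) x ∈ Fch ρ u F₀ X (b + 1) := mem_sup_right (mem_map_of_mem hx)

theorem phi_chain [IsDomain C] [N.Normal] (hG : Good ρ N) (u : G) {F₀ : Submodule C A}
    (h0 : Inv ρ N F₀) {s : Set A} (hs : s.Finite) (hu : ∀ x ∈ F₀, ρ u x ∈ F₀ ⊔ gen ρ N s) :
    ∃ z : C, z ≠ 0 ∧ Phi F₀ (⨆ b, Fch ρ u F₀ (gen ρ N s) b) z := by
  let K : ℕ → Submodule C A := fun b => gen ρ N s ⊓ (Fch ρ u F₀ (gen ρ N s) b).comap (ρ (u ^ b))
  have hK : ∀ b, Inv ρ N (K b) := fun b => (inv_gen s).inf ((Fch_inv u h0 (inv_gen s) b).comap _)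
  have hm : Monotone K := monotone_nat_of_le_succ fun b x hx => ⟨hx.1, by
    show ρ (u ^ (b + 1)) x ∈ Fch ρ u F₀ (gen ρ N s) (b + 1)
    rw [pow_succ', rho_mul]
    exact Fch_shift hu b _ hx.2⟩
  obtain ⟨n, hn⟩ := (hG s hs).1 K hm hK (fun _ => bot_le) fun _ => inf_le_left
  choose z hz hz' using fun b => (hG s hs).2 (K b) (hK b) inf_le_left
  refine ⟨∏ b ∈ Finset.range (n + 1), z b, Finset.prod_ne_zero_iff.2 fun b _ => hz b, ?_⟩
  refine Phi.chain (F := Fch ρ u F₀ (gen ρ N s)) (Fch_mono _ _ _) fun b => Phi.map _ ?_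
  show Phi (K b) _ _
  rcases le_total b n with hb | hb
  · exact (hz' b).of_dvd (Finset.dvd_prod_of_mem _ (Finset.mem_range.2 (by omega)))
  · rw [hn b hb]
    exact (hz' n).of_dvd (Finset.dvd_prod_of_mem _ (Finset.mem_range.2 (by omega)))

theorem good_step [IsDomain C] [hN : N.Normal] (hG : Good ρ N) (t : G) :
    Good ρ (N ⊔ Subgroup.zpowers t) := by
  intro s hs
  have ht : ∀ k : ℤ, t ^ k ∈ N ⊔ Subgroup.zpowers t := fun k =>
    Subgroup.mem_sup_right ⟨k, rfl⟩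
  have ht' : ∀ k : ℕ, t ^ k ∈ N ⊔ Subgroup.zpowers t := fun k => by simpa using ht k
  have hle : gen ρ N s ≤ gen ρ (N ⊔ Subgroup.zpowers t) s :=
    gen_le ((inv_gen s).mono le_sup_left) fun x hx => subset_gen hx
  have hgen : ∀ g ∈ N ⊔ Subgroup.zpowers t, ∀ x ∈ s, ∃ k : ℤ, ∃ y ∈ gen ρ N s,
      ρ g x = ρ (t ^ k) y := by
    intro g hg x hx
    obtain ⟨n, hn, k, rfl⟩ := mem_sup_zpowers.1 hg
    refine ⟨k, _, mem_gen (hN.conj_mem n hn (t ^ k)⁻¹) hx, ?_⟩
    rw [← rho_mul]; congr 2; group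
  constructor
  · intro f hf hI _ h2
    let F := Fch ρ t ⊥ (gen ρ N s)
    have hF : ∀ b, ∀ x ∈ F b, ρ t x ∈ F (b + 1) := Fch_shift fun x hx => by
      rw [mem_bot] at hx; simp [hx]
    let Lf : ℕ → ℕ → Submodule C A := fun n k => gen ρ N s ⊓ (f k ⊔ F n).comap (ρ (t ^ n))
    have hLI : ∀ n k, Inv ρ N (Lf n k) := fun n k => (inv_gen s).inf
      ((((hI k).mono le_sup_left).sup (Fch_inv t inv_bot (inv_gen s) n)).comap _)
    have hL1 : ∀ n, Monotone (Lf n) := fun n i j hij =>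
      inf_le_inf_left _ (comap_mono (sup_le_sup_right (hf hij) _))
    have hL2 : ∀ k, Monotone (fun n => Lf n k) := fun k => monotone_nat_of_le_succ
      fun n x hx => ⟨hx.1, by
        show ρ (t ^ (n + 1)) x ∈ f k ⊔ F (n + 1)
        obtain ⟨a, ha, b, hb, hab⟩ := mem_sup.1 hx.2
        rw [pow_succ', rho_mul, ← hab, map_add]
        exact add_mem_sup (hI k t (by simpa using ht' 1) a ha) (hF n b hb)⟩
    obtain ⟨n₀, hn₀⟩ := (hG s hs).1 (fun n => Lf n n)
      (fun i j hij => (hL1 i hij).trans (hL2 j hij)) (fun n => hLI n n) (fun _ => bot_le)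
      fun _ => inf_le_left
    choose k hk using fun n => (hG s hs).1 (Lf n) (hL1 n) (hLI n) (fun _ => bot_le)
      fun _ => inf_le_left
    let k₀ := max n₀ ((Finset.range n₀).sup k)
    have hst : ∀ m, k₀ ≤ m → ∀ n, Lf n m ≤ Lf n k₀ := by
      intro m hm n
      rcases lt_or_ge n n₀ with h | h
      · have : k n ≤ k₀ := (Finset.le_sup (f := k) (Finset.mem_range.2 h)).trans (le_max_right _ _)
        rw [hk n m (this.trans hm), hk n k₀ this]
      · calc Lf n m ≤ Lf (max n m) (max n m) :=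
              (hL1 n (le_max_right _ _)).trans (hL2 _ (le_max_left _ _))
          _ = Lf n₀ n₀ := hn₀ _ (h.trans (le_max_left _ _))
          _ ≤ Lf n k₀ := (hL1 n₀ (le_max_left _ _)).trans (hL2 _ h)
    refine ⟨k₀, fun m hm => le_antisymm (fun x hx => ?_) (hf hm)⟩
    have h3 : ∀ n, ∀ x ∈ f m, x ∈ F n → x ∈ f k₀ := by
      intro n
      induction n with
      | zero => intro x _ h; rw [(mem_bot C).1 h]; exact zero_mem _
      | succ n ih =>
        intro x hx h
        obtain ⟨a, ha, _, ⟨y, hy, rfl⟩, rfl⟩ := mem_sup.1 h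
        have h4 : y ∈ Lf n m := ⟨hy, by
          show ρ (t ^ n) y ∈ f m ⊔ F n
          simpa using sub_mem (mem_sup_left hx) (mem_sup_right (S := f m) ha)⟩
        obtain ⟨b, hb, a', ha', hab⟩ := mem_sup.1 (hst m hm n h4).2
        have h5 : a + a' ∈ f k₀ := ih _ (by
          have := sub_mem hx (hf hm hb)
          rw [← hab] at this
          convert this using 1; abel) (add_mem ha ha')
        rw [← hab]
        convert add_mem h5 hb using 1; abel
    have hFp : ∀ (j : ℕ) b, ∀ x ∈ F b, ρ (t ^ j) x ∈ F (b + j) := by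
      intro j
      induction j with
      | zero => intro b x hx; simpa using hx
      | succ j ih => intro b x hx; rw [pow_succ', rho_mul]; exact hF _ _ (ih b x hx)
    have h6 : ∀ x ∈ gen ρ (N ⊔ Subgroup.zpowers t) s, ∃ j b : ℕ, ρ (t ^ j) x ∈ F b := by
      intro x hx
      induction hx using span_induction with
      | mem x hx =>
        obtain ⟨g, hg, x, hx, rfl⟩ := hx
        obtain ⟨k, y, hy, h⟩ := hgen g hg x hx
        refine ⟨k.natAbs, (k.natAbs + k).toNat + 1, ?_⟩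
        rw [h, ← rho_mul, ← zpow_natCast, ← zpow_add,
          ← Int.toNat_of_nonneg (show 0 ≤ (k.natAbs : ℤ) + k by omega), zpow_natCast,
          Int.toNat_natCast]
        exact mem_Fch _ hy
      | zero => exact ⟨0, 0, by simp⟩
      | add x y _ _ hx hy =>
        obtain ⟨j, b, h⟩ := hx
        obtain ⟨j', b', h'⟩ := hy
        refine ⟨j + j', max (b + j') (b' + j), ?_⟩
        rw [map_add]
        refine add_mem (Fch_mono _ _ _ (le_max_left _ _) ?_)
          (Fch_mono _ _ _ (le_max_right _ _) ?_)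
        · rw [add_comm j j', pow_add, rho_mul]; exact hFp _ _ _ h
        · rw [pow_add, rho_mul]; exact hFp _ _ _ h'
      | smul c x _ hx =>
        obtain ⟨j, b, h⟩ := hx
        exact ⟨j, b, by rw [map_smul]; exact smul_mem _ _ h⟩
    obtain ⟨j, b, h⟩ := h6 x (h2 m hx)
    have := hI k₀ _ (inv_mem (ht' j)) _ (h3 b _ (hI m _ (ht' j) x hx) h)
    rwa [Representation.inv_self_apply] at this
  · intro Y hY hYs
    obtain ⟨z, hz, h1⟩ := phi_chain hG t (hY.mono le_sup_left) hs fun x hx =>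
      mem_sup_left (hY t (by simpa using ht' 1) x hx)
    set F₁ := ⨆ b, Fch ρ t Y (gen ρ N s) b with hF₁
    have hF₁I : Inv ρ N F₁ := Inv.iSup fun b => Fch_inv t (hY.mono le_sup_left) (inv_gen s) b
    have hs' : ∀ y ∈ gen ρ N s, ρ t⁻¹ y ∈ gen ρ N (ρ t⁻¹ '' s) :=
      gen_le (S := (gen ρ N (ρ t⁻¹ '' s)).comap (ρ t⁻¹)) ((inv_gen _).comap _)
        fun x hx => subset_gen ⟨x, hx, rfl⟩
    obtain ⟨z', hz', h2⟩ := phi_chain hG t⁻¹ hF₁I (hs.image (ρ t⁻¹)) (by
      show F₁ ≤ (F₁ ⊔ gen ρ N (ρ t⁻¹ '' s)).comap (ρ t⁻¹)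
      refine iSup_le fun b => ?_
      induction b with
      | zero =>
        exact fun x hx => mem_sup_left (mem_iSup_of_mem 0
          (hY _ (inv_mem (by simpa using ht' 1)) x hx))
      | succ b ih =>
        refine sup_le ih ?_
        rintro _ ⟨y, hy, rfl⟩
        show ρ t⁻¹ (ρ (t ^ b) y) ∈ F₁ ⊔ gen ρ N (ρ t⁻¹ '' s)
        cases b with
        | zero => exact mem_sup_right (by simpa using hs' y hy)
        | succ b =>
          rw [← rho_mul, pow_succ', inv_mul_cancel_left]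
          exact mem_sup_left (mem_iSup_of_mem (b + 1) (mem_Fch b hy)))
    have hF₁le : F₁ ≤ gen ρ (N ⊔ Subgroup.zpowers t) s :=
      iSup_le (Fch_le hYs hle fun b => inv_gen s _ (ht' b))
    have he : (⨆ b, Fch ρ t⁻¹ F₁ (gen ρ N (ρ t⁻¹ '' s)) b) = gen ρ (N ⊔ Subgroup.zpowers t) s := by
      refine le_antisymm (iSup_le (Fch_le hF₁le ?_ fun b => inv_gen s _ ?_)) ?_
      · refine gen_le ((inv_gen s).mono le_sup_left) ?_
        rintro _ ⟨x, hx, rfl⟩
        exact mem_gen (inv_mem (by simpa using ht' 1)) hx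
      · rw [inv_pow]; exact inv_mem (ht' b)
      · rw [gen, span_le]
        rintro _ ⟨g, hg, x, hx, rfl⟩
        obtain ⟨k, y, hy, h⟩ := hgen g hg x hx
        rw [h]
        rcases k with k | k
        · refine mem_iSup_of_mem 0 (mem_iSup_of_mem (k + 1) ?_)
          simpa using mem_Fch k hy
        · refine mem_iSup_of_mem (k + 1) ?_
          have := mem_Fch (ρ := ρ) (u := t⁻¹) (F₀ := F₁) k (hs' y hy)
          rw [← rho_mul, ← pow_succ] at this
          simpa using this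
    rw [he] at h2
    exact ⟨z * z', mul_ne_zero hz hz', (h1.of_dvd (dvd_mul_right _ _)).trans
      (h2.of_dvd (dvd_mul_left _ _)) (le_iSup (Fch ρ t Y (gen ρ N s)) 0) hF₁le⟩

theorem good_top [IsDomain C] [IsNoetherianRing C] {K : Subgroup G} (h : ∀ g ∈ K, ∀ x, ρ g x = x)
    (hc : Ch K N) : Good ρ N := by
  induction hc with
  | base => exact good_base h
  | step N t _ hN _ ih => exact good_step ih t

end Pool.Agent.P.MP_ecb9b3_al
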