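import Pool.Agent.P.MP_ecb9b3_al.Ded

/-! The nil law: in every frame the elements `ψ ((T ^ e - 1) ^ c • b) - 1` are nilpotent of
bounded index. -/

namespace Pool.Agent.P.MP_ecb9b3_al

open Function LaurentPolynomial Filter

set_option maxHeartbeats 400000

variable {L : Set (FreeGroup ℕ)}

/-- Elements of the group ring that act as zero in every frame over `Lam`. -/
noncomputable def I0 (L : Set (FreeGroup ℕ)) : Ideal (ZG Lam) where
  carrier := {u | ∀ (S D : Type) [CommRing S] [AddCommGroup D] [Module S D] (ψ : AddChar Lam S)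
    (τ : D ≃ₗ[ℤ] D), IsFrame L ψ τ → ∀ x : D, hat ψ u • x = 0}
  zero_mem' := fun _ _ _ _ _ _ _ _ _ => by simp
  add_mem' := fun ha hb S D _ _ _ ψ τ h x => by
    rw [map_add, add_smul, ha S D ψ τ h, hb S D ψ τ h, add_zero]
  smul_mem' := fun s w hw S D _ _ _ ψ τ h x => by
    rw [smul_eq_mul, map_mul, mul_smul, hw S D ψ τ h, smul_zero]

theorem hat_map {B B' S : Type} [AddCommGroup B] [AddCommGroup B'] [CommRing S] (ψ : AddChar B S)
    (φ : B' →+ B) (u : ZG B') :
    hat ψ (AddMonoidAlgebra.mapDomainRingHom ℤ φ u) = hat (ψ.compAddMonoidHom φ) u := by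
  induction u using AddMonoidAlgebra.induction_linear with
  | zero => simp
  | add a b ha hb => simp only [map_add, ha, hb]
  | single b a =>
    rw [AddMonoidAlgebra.mapDomainRingHom_apply, AddMonoidAlgebra.mapDomain_single, hat_single,
      hat_single]
    rfl

theorem I0_sub {u : ZG Lam} (hu : u ∈ I0 L) (m : ℤ) (b : Lam) :
    AddMonoidAlgebra.mapDomainRingHom ℤ (sub1 m b) u ∈ I0 L := fun S D _ _ _ ψ τ h x => by
  rw [hat_map]
  exact hu S D _ _ (h.sub1 m b) x

theorem hat_mk (P : Ideal (ZG Lam)) (u : ZG Lam) :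
    hat ((Ideal.Quotient.mk P).toMonoidHom.compAddChar (ofB Lam)) u = Ideal.Quotient.mk P u := by
  induction u using AddMonoidAlgebra.induction_linear with
  | zero => simp
  | add a b ha hb => simp only [map_add, ha, hb]
  | single b a =>
    have : AddMonoidAlgebra.single b a = a • ofB Lam b := by simp [ofB]
    rw [hat_single, this, map_zsmul]
    rfl

theorem chars_kill (hfail : ∀ e, 0 < e → ∀ c n, (ofB Lam (dl e ^ c) - 1) ^ n ∉ I0 L) :
    ∃ l p : ℕ, l.Prime ∧ p.Prime ∧ l ≠ p ∧ ∀ (F : Type) [CommRing F] [CharP F p]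
      (χ : AddChar Lam F), (∀ v : Lam, (∀ j, (l : ℤ) ∣ v.coeff j) → χ v = 1) →
      ∀ u ∈ I0 L, hat χ u = 0 := by
  classical
  have h1 : ∀ n : ℕ, ∃ P : Ideal (ZG Lam), P.IsPrime ∧ I0 L ≤ P ∧
      ofB Lam (dl n.factorial ^ n) - 1 ∉ P := by
    intro n
    by_contra hc
    push Not at hc
    have : ofB Lam (dl n.factorial ^ n) - 1 ∈ (I0 L).radical := by
      rw [Ideal.radical_eq_sInf, Ideal.mem_sInf]
      exact fun {J} hJ => hc J hJ.2 hJ.1
    obtain ⟨k, hk⟩ := this
    exact hfail _ n.factorial_pos n k hk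
  choose P hP hIP huP using h1
  let χ : ∀ n, AddChar Lam (ZG Lam ⧸ P n) := fun n =>
    (Ideal.Quotient.mk (P n)).toMonoidHom.compAddChar (ofB Lam)
  let U := hyperfilter ℕ
  let 𝔠 : Ideal Lam :=
    { carrier := {v | ∀ᶠ n in U, ∀ b, χ n (v * b) = 1}
      zero_mem' := Eventually.of_forall fun n b => by simp
      add_mem' := fun {v w} hv hw => (hv.and hw).mono fun n h b => by
        rw [add_mul, AddChar.map_add_eq_mul, h.1, h.2, mul_one]
      smul_mem' := fun c v hv => hv.mono fun n h b => by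
        rw [smul_eq_mul, mul_comm c, mul_assoc, h] }
  let 𝔭 : Ideal ℤ :=
    { carrier := {a | ∀ᶠ n in U, (a : ZG Lam ⧸ P n) = 0}
      zero_mem' := Eventually.of_forall fun n => by simp
      add_mem' := fun {v w} hv hw => (hv.and hw).mono fun n h => by
        rw [Int.cast_add, h.1, h.2, add_zero]
      smul_mem' := fun c v hv => hv.mono fun n h => by
        rw [smul_eq_mul, Int.cast_mul, h, mul_zero] }
  haveI : 𝔭.IsPrime := by
    refine ⟨(Ideal.ne_top_iff_one _).2 fun h => ?_, fun {a b} h => ?_⟩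
    · obtain ⟨n, hn⟩ := Eventually.exists (p := fun n => ((1 : ℤ) : ZG Lam ⧸ P n) = 0) h
      haveI := hP n
      simp at hn
    · refine Ultrafilter.eventually_or.1 (Eventually.mono h fun n hn => ?_)
      haveI := hP n
      rwa [Int.cast_mul, mul_eq_zero] at hn
  let π := ringChar (ℤ ⧸ 𝔭)
  have hπ : ∀ a : ℤ, a ∈ 𝔭 ↔ (π : ℤ) ∣ a := fun a => by
    rw [← CharP.intCast_eq_zero_iff (ℤ ⧸ 𝔭) π, ← Ideal.Quotient.eq_zero_iff_mem, eq_intCast]
  have hπ' : π.Prime ∨ π = 0 := CharP.char_is_prime_or_zero (ℤ ⧸ 𝔭) π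
  obtain ⟨q, hq1, hq2⟩ : ∃ q : Lam, (∀ v, q * v ∈ 𝔠 → v ∈ 𝔠) ∧ (π ≠ 0 → q = π) := by
    rcases hπ' with h | h
    · refine ⟨π, fun v hv => ?_, fun _ => rfl⟩
      refine (Eventually.and hv ((hπ π).2 dvd_rfl)).mono fun n hn b => ?_
      haveI := hP n
      haveI := Fact.mk h
      haveI : CharP (ZG Lam ⧸ P n) π := (CharP.charP_iff_prime_eq_zero h).2 (by simpa using hn.2)
      have h2 := hn.1 b
      rw [mul_assoc, ← nsmul_eq_mul, AddChar.map_nsmul_eq_pow] at h2
      have h3 : (χ n (v * b) - 1) ^ π = 0 := by rw [sub_pow_char, h2, one_pow, sub_self]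
      exact sub_eq_zero.1 (pow_eq_zero_iff h.ne_zero |>.1 h3)
    · exact ⟨1, fun v hv => by simpa using hv, fun h' => absurd h h'⟩
  let M : Submonoid Lam :=
    { carrier := {x | ∃ a e c, 0 < e ∧ x ∣ q ^ a * dl e ^ c}
      one_mem' := ⟨0, 1, 0, one_pos, one_dvd _⟩
      mul_mem' := by
        rintro x y ⟨a, e, c, he, h⟩ ⟨a', e', c', he', h'⟩
        refine ⟨a + a', e * e', c + c', Nat.mul_pos he he', (mul_dvd_mul h h').trans ?_⟩
        rw [pow_add, pow_add, mul_mul_mul_comm]
        exact mul_dvd_mul_left _ (mul_dvd_mul (dl_pow_dvd (dvd_mul_right _ _) le_rfl)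
          (dl_pow_dvd (dvd_mul_left _ _) le_rfl)) }
  obtain ⟨𝔠', h𝔠', hle, hdis⟩ := 𝔠.exists_le_prime_disjoint M (by
    rw [Set.disjoint_left]
    rintro x hx ⟨a, e, c, he, k, hk⟩
    have h2 : q ^ a * dl e ^ c ∈ 𝔠 := hk ▸ Ideal.mul_mem_right _ _ hx
    have h3 : dl e ^ c ∈ 𝔠 := by
      clear hk
      induction a with
      | zero => simpa using h2
      | succ a ih => exact ih (hq1 _ (by rwa [pow_succ', mul_assoc] at h2))
    obtain ⟨n, hn, hn'⟩ := (Eventually.and h3
      ((eventually_ge_atTop (max e c)).filter_mono Nat.hyperfilter_le_atTop)).exists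
    obtain ⟨b, hb⟩ := dl_pow_dvd (Nat.dvd_factorial he (le_of_max_le_left hn'))
      (le_of_max_le_right hn')
    refine huP n (Ideal.Quotient.eq_zero_iff_mem.1 ?_)
    rw [map_sub, map_one, hb, sub_eq_zero]
    exact hn b)
  rw [Set.disjoint_left] at hdis
  let l := ringChar (Lam ⧸ 𝔠')
  obtain ⟨l', p', hl', hp', hne, hll, hpp⟩ := two_primes
    (CharP.char_is_prime_or_zero (Lam ⧸ 𝔠') l) hπ' (fun h0 h => by
      refine hdis (a := q) ?_ ⟨1, 1, 0, one_pos, by simp⟩
      rw [hq2 h0, SetLike.mem_coe, ← Ideal.Quotient.eq_zero_iff_mem, map_natCast, ← h]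
      exact CharP.cast_eq_zero _ l)
  refine ⟨l', p', hl', hp', hne, fun F _ _ χ' hχ' u hu => ?_⟩
  set s := u.coeff.support
  obtain ⟨m, hm⟩ := exists_dec (Ideal.Quotient.mk 𝔠')
    (fun e he h => hdis (Ideal.Quotient.eq_zero_iff_mem.1 h) ⟨0, e, 1, he, by simp⟩)
    (((s ×ˢ s).image fun x => x.1 - x.2).filter fun w => ∃ j, (w.coeff j : Lam ⧸ 𝔠') ≠ 0)
    fun w hw => (Finset.mem_filter.1 hw).2
  have hA : ∀ᶠ n in U, ∀ x ∈ s ×ˢ s,
      (∀ b, χ n (dec m (x.1 - x.2) * b) = 1) → dec m (x.1 - x.2) ∈ 𝔠 := by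
    refine (eventually_all_finset _).2 fun x _ => ?_
    by_cases h : dec m (x.1 - x.2) ∈ 𝔠
    · exact Eventually.of_forall fun _ _ => h
    · exact (Ultrafilter.eventually_not.2 h).mono fun n hn h' => absurd h' hn
  have hB : ∀ᶠ n in U, ∀ t ∈ s.powerset,
      ((∑ i ∈ t, u.coeff i : ℤ) : ZG Lam ⧸ P n) = 0 → (∑ i ∈ t, u.coeff i) ∈ 𝔭 := by
    refine (eventually_all_finset _).2 fun t _ => ?_
    by_cases h : (∑ i ∈ t, u.coeff i) ∈ 𝔭
    · exact Eventually.of_forall fun _ _ => h
    · exact (Ultrafilter.eventually_not.2 h).mono fun n hn h' => absurd h' hn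
  obtain ⟨n, hnA, hnB⟩ := (hA.and hB).exists
  haveI := hP n
  rw [hat_eval]
  refine Ded2 (M := Multiplicative Lam) s (fun v => ((χ n).compAddMonoidHom
    (AddMonoidHom.mulLeft (dec m v))).toMonoidHom) u.coeff (fun b => ?_) χ'
    (fun v hv w hw h => ?_) fun t ht h => ?_
  · have h2 := Ideal.Quotient.eq_zero_iff_mem.2 (hIP n (I0_sub hu m b.toAdd))
    rw [← hat_mk, hat_map, hat_eval] at h2
    exact h2
  · have h2 : dec m (v - w) ∈ 𝔠 := hnA (v, w) (Finset.mk_mem_product hv hw) fun b => by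
      have h3 : χ n (dec m v * b) = χ n (dec m w * b) :=
        DFunLike.congr_fun h (Multiplicative.ofAdd b)
      rw [map_sub, sub_mul, sub_eq_add_neg, AddChar.map_add_eq_mul, h3, ← AddChar.map_add_eq_mul,
        add_neg_cancel, AddChar.map_zero_eq_one]
    have h4 : χ' (v - w) = 1 := hχ' _ fun j => by
      by_contra hj
      refine hm (v - w) (Finset.mem_filter.2 ⟨Finset.mem_image.2
        ⟨(v, w), Finset.mk_mem_product hv hw, rfl⟩, j, fun h0 => hj ?_⟩)
        (Ideal.Quotient.eq_zero_iff_mem.2 (hle h2))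
      exact (Int.natCast_dvd_natCast.2 hll).trans ((CharP.intCast_eq_zero_iff _ l _).1 h0)
    rw [← sub_add_cancel v w, AddChar.map_add_eq_mul, h4, one_mul]
  · exact (CharP.intCast_eq_zero_iff F p' _).2
      ((Int.natCast_dvd_natCast.2 hpp).trans ((hπ _).1 (hnB t ht h)))

/-- Multiplication of the `i`-th coefficient by `g i`. -/
noncomputable def mulC (g : ℤ → ZG Lam) : GU Lam →+ GU Lam :=
  Finsupp.liftAddHom fun i => (Finsupp.singleAddHom i).comp (AddMonoidHom.mulLeft (g i))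

theorem mulC_single (g : ℤ → ZG Lam) (i : ℤ) (s : ZG Lam) :
    mulC g (Finsupp.single i s) = Finsupp.single i (g i * s) := by simp [mulC]

theorem mulC_apply (g : ℤ → ZG Lam) (w : GU Lam) (j : ℤ) : mulC g w j = g j * w j := by
  induction w using Finsupp.induction_linear with
  | zero => simp
  | add a b ha hb => simp [ha, hb, mul_add]
  | single i s =>
    rw [mulC_single]
    by_cases h : i = j
    · subst h; simp
    · simp [Finsupp.single_eq_of_ne' h]

theorem mulC_mem {w : GU Lam} (hw : w ∈ GI L Lam) (v : Lam) :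
    mulC (fun i => ofB Lam (T i * v)) w ∈ GI L Lam := by
  intro S D _ _ _ ψ τ h x
  rw [← hw S D ψ τ h (ψ v • x)]
  clear hw
  induction w using Finsupp.induction_linear with
  | zero => simp
  | add a b ha hb => simp only [map_add, ha, hb]
  | single i s =>
    rw [mulC_single, ev_single, ev_single, h.comm_zpow, map_mul, hat_ofB, mul_comm, mul_smul,
      smul_eq_mul]

theorem multiplier {F : Type} [CommRing F] [IsDomain F] (χ : AddChar Lam F)
    (hχ : ∀ u ∈ I0 L, hat χ u = 0) (hap : ∀ i j : ℤ, i ≠ j → ∃ v, χ (T i * v) ≠ χ (T j * v))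
    (i : ℤ) (N : ℕ) : ∀ w ∈ GI L Lam, w.support.card ≤ N → hat χ (w i) = 0 := by
  classical
  induction N with
  | zero =>
    intro w _ h
    rw [Nat.le_zero, Finset.card_eq_zero, Finsupp.support_eq_empty] at h
    simp [h]
  | succ N ih =>
    intro w hw hN
    by_cases h : ∃ j, j ≠ i ∧ w j ≠ 0
    · obtain ⟨j, hji, hj⟩ := h
      obtain ⟨v, hv⟩ := hap i j hji.symm
      have h1 := ih (mulC (fun i => ofB Lam (T i * v)) w - ofB Lam (T j * v) • w)
        (sub_mem (mulC_mem hw v) (Submodule.smul_mem _ _ hw)) (by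
          have : (mulC (fun i => ofB Lam (T i * v)) w - ofB Lam (T j * v) • w).support ⊆
              w.support.erase j := by
            intro k hk
            rw [Finsupp.mem_support_iff, Finsupp.sub_apply, mulC_apply, Finsupp.smul_apply,
              smul_eq_mul] at hk
            refine Finset.mem_erase.2 ⟨fun e => hk (by rw [e, sub_self]), ?_⟩
            exact Finsupp.mem_support_iff.2 fun e => hk (by simp [e])
          have h2 := Finset.card_le_card this
          rw [Finset.card_erase_of_mem (Finsupp.mem_support_iff.2 hj)] at h2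
          omega)
      rw [Finsupp.sub_apply, mulC_apply, Finsupp.smul_apply, smul_eq_mul, ← sub_mul, map_mul,
        map_sub, hat_ofB, hat_ofB] at h1
      exact (mul_eq_zero.1 h1).resolve_left (sub_ne_zero.2 hv)
    · push Not at h
      refine hχ _ fun S D _ _ _ ψ τ hF x => ?_
      have h1 := hw S D ψ τ hF ((τ ^ i).symm x)
      have h2 : w = Finsupp.single i (w i) := by
        ext1 j
        by_cases hj : j = i
        · subst hj; simp
        · rw [h j hj, Finsupp.single_eq_of_ne hj]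
      rw [h2, ev_single] at h1
      simpa using h1

/-- The characters with two-point support. -/
noncomputable def chi2 {F : Type} [Field F] (ζ : F) (hζ : ζ ≠ 0) (n : ℕ) (i : ℤ) :
    AddChar Lam F where
  toFun v := ζ ^ (v.coeff i + v.coeff (i + n + 1))
  map_zero_eq_one' := by simp
  map_add_eq_mul' a b := by
    rw [← zpow_add₀ hζ]; congr 1; simp; ring

theorem chi2_apply {F : Type} [Field F] (ζ : F) (hζ : ζ ≠ 0) (n : ℕ) (i : ℤ) (v : Lam) :
    chi2 ζ hζ n i v = ζ ^ (v.coeff i + v.coeff (i + n + 1)) := rfl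

theorem chi2_shift {F : Type} [Field F] (ζ : F) (hζ : ζ ≠ 0) (n : ℕ) (i k : ℤ) (v : Lam) :
    chi2 ζ hζ n i (T k * v) = chi2 ζ hζ n (i - k) v := by
  rw [chi2_apply, chi2_apply, T, AddMonoidAlgebra.coeff_single_mul_apply, AddMonoidAlgebra.coeff_single_mul_apply]
  congr 2 <;> rw [one_mul] <;> congr 1 <;> ring

theorem chi2_T {F : Type} [Field F] (ζ : F) (hζ : ζ ≠ 0) (n : ℕ) (i j : ℤ) :
    chi2 ζ hζ n i (T j) = if j = i ∨ j = i + n + 1 then ζ else 1 := by
  rw [chi2_apply, T_apply, T_apply]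
  split_ifs with h1 h2 h3 h4 h5 h6 h7 <;> first | simp; done | omega

theorem I0_nil (hF : FewV L) : ∃ e, 0 < e ∧ ∃ c n, (ofB Lam (dl e ^ c) - 1) ^ n ∈ I0 L := by
  by_contra hc
  push Not at hc
  obtain ⟨l, p, hl, hp, hne, hk⟩ := chars_kill hc
  haveI := Fact.mk hp
  haveI : NeZero (l : ZMod p) := ⟨fun h => hne
    ((Nat.prime_dvd_prime_iff_eq hp hl).1 ((ZMod.natCast_eq_zero_iff l p).1 h)).symm⟩
  obtain ⟨ζ, hζ⟩ := HasEnoughRootsOfUnity.exists_primitiveRoot (AlgebraicClosure (ZMod p)) l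
  have h0 : ζ ≠ 0 := hζ.ne_zero hl.ne_zero
  have h1 : ζ ≠ 1 := hζ.ne_one hl.one_lt
  have hkill : ∀ n i, ∀ w ∈ GI L Lam, ∀ j, hat (chi2 ζ h0 n i) (w j) = 0 := by
    intro n i w hw j
    refine multiplier _ (hk _ _ fun v hv => ?_) ?_ j _ w hw le_rfl
    · exact (hζ.zpow_eq_one_iff_dvd _).2 (dvd_add (hv _) (hv _))
    · intro a b hab
      rcases lt_or_gt_of_ne hab with h | h
      · refine ⟨T (i - b), ?_⟩
        rw [chi2_shift, chi2_shift, chi2_T, chi2_T, if_neg (by omega), if_pos (Or.inl rfl)]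
        exact h1.symm
      · refine ⟨T (i - a), ?_⟩
        rw [chi2_shift, chi2_shift, chi2_T, chi2_T, if_pos (Or.inl rfl), if_neg (by omega)]
        exact h1
  let V : ℕ → Submodule (ZG Lam) (GU Lam) := fun n =>
    { carrier := {w | ∀ i j, hat (chi2 ζ h0 n i) (w j) = 0}
      zero_mem' := fun i j => by simp
      add_mem' := fun ha hb i j => by rw [Finsupp.add_apply, map_add, ha, hb, add_zero]
      smul_mem' := fun s w hw i j => by rw [Finsupp.smul_apply, smul_eq_mul, map_mul, hw, mul_zero] }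
  have hV : ∀ n w, Submodule.Quotient.mk w ∈ (V n).map (GI L Lam).mkQ ↔ w ∈ V n := by
    intro n w
    rw [← Submodule.mkQ_apply, ← Submodule.mem_comap, Submodule.comap_map_mkQ,
      sup_eq_right.2 fun w hw i j => hkill n i w hw j]
  have hup : ∀ n i k (w : GU Lam) j,
      hat (chi2 ζ h0 n i) (up Lam k w j) = hat (chi2 ζ h0 n (i - k)) (w (j - k)) := by
    intro n i k w j
    induction w using Finsupp.induction_linear with
    | zero => simp
    | add a b ha hb => simp only [map_add, Finsupp.add_apply, ha, hb]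
    | single a s =>
      rw [up_single]
      by_cases h : a = j - k
      · rw [h, add_sub_cancel, Finsupp.single_eq_same, Finsupp.single_eq_same, sh, hat_map]
        congr 2
        ext v
        exact chi2_shift ζ h0 n i k v
      · rw [Finsupp.single_eq_of_ne' h, Finsupp.single_eq_of_ne' (by omega), map_zero, map_zero]
  have hτ : ∀ n (k : ℤ), ∀ r ∈ (V n).map (GI L Lam).mkQ,
      (tauR L Lam ^ k) r ∈ (V n).map (GI L Lam).mkQ := by
    rintro n k _ ⟨w, hw, rfl⟩
    rw [Submodule.mkQ_apply, tauR_zpow_mk, hV]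
    intro i j
    rw [hup]
    exact hw _ _
  have hi := inj_of_indep (fun s V y => by simp [Submodule.mem_iInf])
    (fun n => (V n).map (GI L Lam).mkQ)
    (fun k => Submodule.Quotient.mk
      (Finsupp.single 0 ((ofB Lam (T 0) - 1) * (ofB Lam (T (k + 1)) - 1)))) (fun k h => by
      have := (hV _ _).1 h 0 0
      rw [Finsupp.single_eq_same, map_mul, map_sub, map_sub, hat_ofB, hat_ofB, chi2_T, chi2_T,
        if_pos (Or.inl rfl), if_pos (Or.inr (by ring)), map_one] at this
      exact h1 (sub_eq_zero.1 (mul_self_eq_zero.1 this))) (fun j k hjk => (hV _ _).2 fun i a => by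
      by_cases ha : a = 0
      · rw [ha, Finsupp.single_eq_same, map_mul, map_sub, map_sub, hat_ofB, hat_ofB, chi2_T,
          chi2_T, map_one]
        split_ifs <;> first | simp; done | omega
      · rw [Finsupp.single_eq_of_ne ha, map_zero])
  refine frame_few hF (frame_GR L Lam) {x0 L Lam} (Set.finite_singleton _)
    (fun W h1 h2 h3 => GR_gen W (h1 _ rfl) h2 h3)
    (fun E => (⨅ k ∈ E, (V k).map (GI L Lam).mkQ).toAddSubgroup)
    (fun E b x hx => Submodule.smul_mem _ _ hx) (fun E x hx => ?_) (fun E x hx => ?_)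
    (Submodule.toAddSubgroup_injective.comp hi)
  · simp only [Submodule.mem_toAddSubgroup, Submodule.mem_iInf] at hx ⊢
    intro k hk
    simpa using hτ k 1 x (hx k hk)
  · simp only [Submodule.mem_toAddSubgroup, Submodule.mem_iInf] at hx ⊢
    intro k hk
    exact hτ k (-1) x (hx k hk)

theorem nil_law (hF : FewV L) : ∃ e, 0 < e ∧ ∃ c n : ℕ, ∀ (B S D : Type) [AddCommGroup B]
    [Module Lam B] [CommRing S] [AddCommGroup D] [Module S D] (ψ : AddChar B S) (τ : D ≃ₗ[ℤ] D),
    IsFrame L ψ τ → ∀ (b : B) (x : D), (ψ (dl e ^ c • b) - 1) ^ n • x = 0 := by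
  obtain ⟨e, he, c, n, h⟩ := I0_nil hF
  refine ⟨e, he, c, n, fun B S D _ _ _ _ _ ψ τ hF b x => ?_⟩
  have := h S D _ _ (hF.subst (LinearMap.toSpanSingleton Lam B b).toAddMonoidHom 1 fun v =>
    mul_smul _ _ _) x
  rw [map_pow, map_sub, hat_ofB, map_one] at this
  exact this

end Pool.Agent.P.MP_ecb9b3_al
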