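import Pool.Agent.P.MP_ecb9b3_al.Star
import Pool.Agent.P.MP_ecb9b3_al.Nil

/-! The nilpotency law: in every frame the augmentation ideal of `(T ^ e - 1) ^ c • B` acts
nilpotently, with bounds that depend only on the variety. -/

namespace Pool.Agent.P.MP_ecb9b3_al

open Function LaurentPolynomial
open scoped Pointwise

set_option maxHeartbeats 400000

variable {L : Set (FreeGroup ℕ)} {B S D : Type} [AddCommGroup B] [Module Lam B] [CommRing S]
  [AddCommGroup D] [Module S D] {ψ : AddChar B S} {τ : D ≃ₗ[ℤ] D}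

/-- Comparison of ideals through their action on `D`. -/
def Le (D : Type) {S : Type} [CommRing S] [AddCommGroup D] [Module S D] (I J : Ideal S) : Prop :=
  I • (⊤ : Submodule S D) ≤ J • (⊤ : Submodule S D)

theorem Le.of_le {I J : Ideal S} (h : I ≤ J) : Le D I J := Submodule.smul_mono_left h

theorem Le.trans {I J K : Ideal S} (h : Le D I J) (h' : Le D J K) : Le D I K := le_trans h h'

theorem Le.mul_left {I J : Ideal S} (h : Le D I J) (K : Ideal S) : Le D (K * I) (K * J) := by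
  rw [Le, mul_smul, mul_smul]
  exact Submodule.smul_mono le_rfl h

theorem Le.sup_ann {I J K : Ideal S} (h : I ≤ K ⊔ J) (hK : K ≤ Module.annihilator S D) :
    Le D I J := by
  refine (Submodule.smul_mono_left h).trans ?_
  rw [Submodule.sup_smul]
  refine sup_le (Submodule.smul_le.2 fun r hr x _ => ?_) le_rfl
  rw [Module.mem_annihilator.1 (hK hr) x]
  exact zero_mem _

theorem span_pow_smul_le {s : Set S} {d : ℕ} {Z : Submodule S D}
    (h : ∀ f : Fin d → S, (∀ i, f i ∈ s) → ∀ y, (∏ i, f i) • y ∈ Z) :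
    Ideal.span s ^ d • (⊤ : Submodule S D) ≤ Z := by
  intro x hx
  have e : Ideal.span s ^ d = Ideal.span (s ^ d) := Submodule.span_pow s d
  rw [e] at hx
  refine span_smul_ind (p := fun x => x ∈ Z) hx (fun r hr y _ => ?_) (zero_mem _)
    fun _ _ => add_mem
  obtain ⟨f, rfl⟩ := Set.mem_pow.1 hr
  rw [List.prod_ofFn]
  exact h _ (fun i => (f i).2) y

omit [Module Lam B] in
theorem JJ_pow_le {X : Set B} {d : ℕ} {Z : Submodule S D}
    (h : ∀ b : Fin d → B, (∀ i, b i ∈ X) → ∀ y, (∏ i, (ψ (b i) - 1)) • y ∈ Z) :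
    JJ ψ X ^ d • (⊤ : Submodule S D) ≤ Z := by
  refine span_pow_smul_le fun f hf y => ?_
  choose b hb hb' using hf
  simp only [← hb']
  exact h b hb y

theorem nilfin {κ : Type} (g : κ → S) (n : ℕ) (t : Finset κ)
    (h : ∀ k ∈ t, ∀ x : D, g k ^ n • x = 0) :
    Ideal.span (g '' t) ^ (t.card * n + 1) ≤ Module.annihilator S D := by
  classical
  induction t using Finset.induction_on with
  | empty => simp
  | insert a t ha ih =>
    rw [Finset.coe_insert, Set.image_insert_eq, Ideal.span_insert,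
      Finset.card_insert_of_notMem ha, show (t.card + 1) * n + 1 = n + (t.card * n + 1) by ring]
    refine Ideal.sup_pow_add_le_pow_sup_pow.trans (sup_le ?_
      (ih fun k hk => h k (Finset.mem_insert_of_mem hk)))
    rw [Ideal.span_singleton_pow, Ideal.span_singleton_le_iff_mem, Module.mem_annihilator]
    exact h a (Finset.mem_insert_self _ _)

theorem sup_pow_le (I J : Ideal S) (N d : ℕ) :
    (I ⊔ J) ^ (N + d) ≤ I ^ N ⊔ (I ⊔ J) ^ N * J ^ d := by
  conv_lhs => rw [← Ideal.add_eq_sup, add_pow]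
  refine Finset.sum_induction _ (fun K => K ≤ I ^ N ⊔ (I ⊔ J) ^ N * J ^ d)
    (fun a b ha hb => sup_le ha hb) bot_le fun k hk => Ideal.mul_le_left.trans ?_
  rcases le_total N k with h | h
  · exact le_sup_of_le_left (Ideal.mul_le_left.trans (Ideal.pow_le_pow_right h))
  · refine le_sup_of_le_right ?_
    obtain ⟨j, rfl⟩ := Nat.exists_eq_add_of_le h
    rw [show k + j + d - k = j + d by omega, pow_add, pow_add, ← mul_assoc]
    exact Ideal.mul_mono_left (Ideal.mul_mono (Ideal.pow_right_mono le_sup_left _)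
      (Ideal.pow_right_mono le_sup_right _))

/-- Elements `b` with `ψ b - 1` in the ideal `I`. -/
def betaSub {B S : Type} [AddCommGroup B] [CommRing S] (ψ : AddChar B S) (I : Ideal S) :
    AddSubgroup B where
  carrier := {b | ψ b - 1 ∈ I}
  zero_mem' := by simp
  add_mem' := fun {a b} ha hb => by
    have := add_mem (I.mul_mem_right (ψ b) ha) hb
    show ψ (a + b) - 1 ∈ I
    rw [AddChar.map_add_eq_mul]
    convert this using 1; ring
  neg_mem' := fun {a} ha => by
    have := neg_mem (I.mul_mem_left (ψ (-a)) ha)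
    show ψ (-a) - 1 ∈ I
    rw [mul_sub, ← AddChar.map_add_eq_mul, neg_add_cancel, AddChar.map_zero_eq_one] at this
    convert this using 1; ring

omit [Module Lam B] in
theorem JJ_le {X : Set B} {I : Ideal S} (h : ∀ b ∈ X, b ∈ betaSub ψ I) : JJ ψ X ≤ I := by
  rw [JJ, Ideal.span_le]
  rintro _ ⟨b, hb, rfl⟩
  exact h b hb

section club

variable {d n : ℕ} {γ : Lam} {F : Finset Lam}
  (hS : ∀ (B₁ : Submodule Lam B) (b : Fin d → B), (∀ i, b i ∈ B₁) → ∀ y : D,
    (∏ i, (ψ (γ • b i) - 1)) • y ∈ JJ ψ B₁ ^ (d + 1) • (⊤ : Submodule S D))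
  (hF : ∀ v : Lam, ∃ w, v - γ * w ∈ AddSubgroup.closure (F : Set Lam))

include hS in
theorem star_le (B₁ : Submodule Lam B) : Le D (JJ ψ ↑(γ • B₁) ^ d) (JJ ψ B₁ ^ (d + 1)) := by
  refine JJ_pow_le fun b hb y => ?_
  choose a ha ha' using fun i => (Submodule.mem_smul_pointwise_iff_exists _ _ _).1 (hb i)
  simp only [← ha']
  exact hS B₁ a ha y

theorem JJ_smul_le (γ : Lam) (B₁ : Submodule Lam B) : JJ ψ ↑(γ • B₁) ≤ JJ ψ B₁ :=
  JJ_mono (Submodule.smul_le_self_of_tower γ B₁)

include hS in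
theorem star_iter (k : ℕ) : ∀ B₁ : Submodule Lam B,
    Le D (JJ ψ ↑(γ ^ k • B₁) ^ d) (JJ ψ B₁ ^ (d + k)) := by
  induction k with
  | zero => intro B₁; rw [pow_zero, one_smul]; exact le_rfl
  | succ k ih =>
    intro B₁
    rw [pow_succ, mul_smul]
    refine (ih _).trans ?_
    rw [add_comm d k, pow_add, show d + (k + 1) = k + (d + 1) by omega, pow_add]
    exact ((star_le hS B₁).mul_left _).trans
      (Le.of_le (Ideal.mul_mono_left (Ideal.pow_right_mono (JJ_smul_le γ B₁) k)))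

include hF in
theorem fin_part (a : Fin d → B) (hN : ∀ b ∈ Submodule.span Lam (Set.range a), ∀ x : D,
    (ψ b - 1) ^ n • x = 0) : ∃ K : Ideal S, K ^ (F.card * d * n + 1) ≤ Module.annihilator S D ∧
      JJ ψ (Submodule.span Lam (Set.range a)) =
        K ⊔ JJ ψ ↑(γ • Submodule.span Lam (Set.range a)) := by
  have ha : ∀ i, a i ∈ Submodule.span Lam (Set.range a) := fun i => Submodule.subset_span ⟨i, rfl⟩
  refine ⟨Ideal.span ((fun q : Lam × Fin d => ψ (q.1 • a q.2) - 1) ''
    (F ×ˢ Finset.univ : Finset (Lam × Fin d))),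
    ?_, le_antisymm (JJ_le fun b hb => ?_) (sup_le ?_ (JJ_smul_le _ _))⟩
  · have := nilfin (D := D) (fun q : Lam × Fin d => ψ (q.1 • a q.2) - 1) n (F ×ˢ Finset.univ)
      fun q _ x => hN _ (Submodule.smul_mem _ _ (ha _)) x
    rwa [Finset.card_product, Finset.card_univ, Fintype.card_fin] at this
  · obtain ⟨v, rfl⟩ := (Submodule.mem_span_range_iff_exists_fun _).1 hb
    refine sum_mem fun i _ => ?_
    obtain ⟨w, hw⟩ := hF (v i)
    rw [← sub_add_cancel (v i) (γ * w), add_smul]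
    refine add_mem ?_ (Ideal.mem_sup_right (mem_JJ ?_))
    · generalize v i - γ * w = z at hw
      induction hw using AddSubgroup.closure_induction with
      | mem f hf => exact Ideal.mem_sup_left (Ideal.subset_span ⟨(f, i), by simpa using hf, rfl⟩)
      | zero => rw [zero_smul]; exact zero_mem _
      | add x y _ _ hx hy => rw [add_smul]; exact add_mem hx hy
      | neg x _ hx => rw [neg_smul]; exact neg_mem hx
    · rw [mul_smul]
      exact Submodule.smul_mem_pointwise_smul _ _ _ (Submodule.smul_mem _ _ (ha i))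
  · rw [Ideal.span_le]
    rintro _ ⟨q, _, rfl⟩
    exact mem_JJ (Submodule.smul_mem _ _ (ha _))

include hS hF in
theorem stab (a : Fin d → B) (hN : ∀ b ∈ Submodule.span Lam (Set.range a), ∀ x : D,
    (ψ b - 1) ^ n • x = 0) (m : ℕ) :
    Le D (JJ ψ (Submodule.span Lam (Set.range a)) ^ (F.card * d * n + 1 + d))
      (JJ ψ (Submodule.span Lam (Set.range a)) ^ (m + (F.card * d * n + 1 + d))) := by
  obtain ⟨K, hK, hJ⟩ := fin_part hF a hN
  have h1 := sup_pow_le K (JJ ψ ↑(γ • Submodule.span Lam (Set.range a))) (F.card * d * n + 1) d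
  rw [← hJ] at h1
  have h2 := (Le.sup_ann h1 hK).trans ((star_le hS _).mul_left _)
  rw [← pow_add] at h2
  induction m with
  | zero => rw [zero_add]; exact le_rfl
  | succ m ih =>
    refine ih.trans ?_
    have := h2.mul_left (JJ ψ (Submodule.span Lam (Set.range a)) ^ m)
    rw [← pow_add, ← pow_add] at this
    rwa [show m + 1 + (F.card * d * n + 1 + d) = m + (F.card * d * n + 1 + (d + 1)) by omega]

theorem smul_span_range (γ : Lam) (a : Fin d → B) :
    γ • Submodule.span Lam (Set.range a) = Submodule.span Lam (Set.range fun i => γ • a i) := by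
  rw [Submodule.smul_span, Set.smul_set_range]

include hS hF in
theorem descend (k : ℕ) : ∀ (a : Fin d → B), (∀ b ∈ Submodule.span Lam (Set.range a), ∀ x : D,
    (ψ b - 1) ^ n • x = 0) →
    Le D (JJ ψ (Submodule.span Lam (Set.range a)) ^ (F.card * d * n + 1 + d))
      (JJ ψ ↑(γ ^ k • Submodule.span Lam (Set.range a)) ^ (F.card * d * n + 1 + d)) := by
  induction k with
  | zero => intro a _; rw [pow_zero, one_smul]; exact le_rfl
  | succ k ih =>
    intro a hN
    obtain ⟨K, hK, hJ⟩ := fin_part hF a hN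
    have h1 : JJ ψ (Submodule.span Lam (Set.range a)) ^ (F.card * d * n + 1 +
        (F.card * d * n + 1 + d)) ≤ _ := hJ ▸ Ideal.sup_pow_add_le_pow_sup_pow
    refine ((stab hS hF a hN _).trans (Le.sup_ann h1 hK)).trans ?_
    rw [pow_succ, mul_smul, smul_span_range]
    refine ih _ fun b hb => hN b ?_
    rw [← smul_span_range] at hb
    exact Submodule.smul_le_self_of_tower γ _ hb

include hS hF in
theorem club (hN : ∀ (b : B) (x : D), (ψ (γ • b) - 1) ^ n • x = 0) (b : Fin d → B) (y : D) :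
    (∏ i, (ψ (γ ^ (F.card * d * n + 1 + 1) • b i) - 1)) • y ∈
      JJ ψ (Submodule.span Lam (Set.range fun i => γ ^ (F.card * d * n + 1 + 1) • b i)) ^ (2 * d) •
        (⊤ : Submodule S D) := by
  have hnil : ∀ (c : Lam), ∀ a ∈ Submodule.span Lam (Set.range fun i => (γ * c) • b i), ∀ x : D,
      (ψ a - 1) ^ n • x = 0 := by
    intro c a ha x
    rw [← smul_span_range, mul_smul] at ha
    obtain ⟨a, _, rfl⟩ := (Submodule.mem_smul_pointwise_iff_exists _ _ _).1 ha
    exact hN a x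
  have h1 := star_iter hS (F.card * d * n + 1) (Submodule.span Lam (Set.range fun i => γ • b i))
  have h2 := descend hS hF (F.card * d * n + 1) (fun i => γ • b i) (by simpa using hnil 1)
  have h3 := stab hS hF (fun i => γ ^ (F.card * d * n + 1 + 1) • b i)
    (by simpa only [pow_succ'] using hnil (γ ^ (F.card * d * n + 1))) d
  rw [add_comm d] at h1
  have h4 := h1.trans h2
  rw [smul_span_range] at h4
  simp only [smul_smul, ← pow_succ] at h4
  refine ((h4.trans h3).trans (Le.of_le (Ideal.pow_le_pow_right (by omega)))) ?_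
  refine Submodule.smul_mem_smul ?_ trivial
  have := prod_mem_JJ (ψ := ψ) (X := Submodule.span Lam
    (Set.range fun i => γ ^ (F.card * d * n + 1 + 1) • b i)) Finset.univ
    (b := fun i => γ ^ (F.card * d * n + 1 + 1) • b i) fun i _ => Submodule.subset_span ⟨i, rfl⟩
  rwa [Finset.card_univ, Fintype.card_fin] at this

end club

theorem lam_fg {e : ℕ} (he : 0 < e) (c : ℕ) : ∃ F : Finset Lam, ∀ v : Lam, ∃ w,
    v - dl e ^ c * w ∈ AddSubgroup.closure (F : Set Lam) := by
  classical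
  have h1 : ∀ k : ℤ, dl e ∣ (T (e * k) - 1 : Lam) := by
    intro k
    have h0 : dl e = T e - 1 := by rw [dl, T_pow, mul_one]
    induction k using Int.induction_on with
    | zero => simp
    | succ k ih =>
      have : (T (e * (k + 1)) - 1 : Lam) = T e * (T (e * k) - 1) + dl e := by
        rw [h0, mul_add, mul_one, T_add]; ring
      rw [this]
      exact dvd_add (ih.mul_left _) dvd_rfl
    | pred k ih =>
      have : (T (e * (-k - 1)) - 1 : Lam) = T (e * (-k)) - 1 - T (e * (-k - 1)) * dl e := by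
        rw [h0, mul_sub (T _), ← T_add, show (e : ℤ) * (-k - 1) + e = e * (-k) by ring]; ring
      rw [this]
      exact dvd_sub ih (dvd_mul_left _ _)
  have h2 : ∀ v : Lam, ∃ w, v - dl e * w ∈
      AddSubgroup.closure (((Finset.Ico (0 : ℤ) e).image T : Finset Lam) : Set Lam) := by
    refine lam_ind (fun n => ?_) ⟨0, by simp⟩ ?_ ?_
    · obtain ⟨w, hw⟩ := h1 (n / e)
      refine ⟨T (n % e) * w, AddSubgroup.subset_closure (Finset.mem_coe.2 (Finset.mem_image.2
        ⟨n % e, Finset.mem_Ico.2 ⟨Int.emod_nonneg _ (by omega), Int.emod_lt_of_pos _ (by omega)⟩,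
          ?_⟩))⟩
      rw [mul_left_comm, ← hw, mul_sub, ← T_add, Int.emod_add_mul_ediv]; ring
    · rintro a b ⟨w, hw⟩ ⟨w', hw'⟩
      exact ⟨w + w', by convert add_mem hw hw' using 1; ring⟩
    · rintro a ⟨w, hw⟩
      exact ⟨-w, by convert neg_mem hw using 1; ring⟩
  induction c with
  | zero => exact ⟨∅, fun v => ⟨v, by simp⟩⟩
  | succ c ih =>
    obtain ⟨F, hF⟩ := ih
    refine ⟨F ∪ ((Finset.Ico (0 : ℤ) e).image T).image (dl e ^ c * ·), fun v => ?_⟩
    obtain ⟨w, hw⟩ := hF v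
    obtain ⟨w', hw'⟩ := h2 w
    refine ⟨w', ?_⟩
    have h3 := (AddSubgroup.closure_le (K := (AddSubgroup.closure
      ((F ∪ ((Finset.Ico (0 : ℤ) e).image T).image (dl e ^ c * ·) : Finset Lam) : Set Lam)).comap
      (AddMonoidHom.mulLeft (dl e ^ c)))).2 (fun f hf => AddSubgroup.subset_closure
        (Finset.mem_coe.2 (Finset.mem_union_right _ (Finset.mem_image_of_mem _ hf)))) hw'
    have h4 := AddSubgroup.closure_mono (Finset.coe_subset.2 (Finset.subset_union_left
      (s₂ := ((Finset.Ico (0 : ℤ) e).image T).image (dl e ^ c * ·)))) hw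
    convert add_mem h4 (AddSubgroup.mem_comap.1 h3) using 1
    rw [AddMonoidHom.coe_mulLeft]; ring

/-- The window of width `m` around the elements `a i`. -/
def WW {d : ℕ} (a : Fin d → B) (m : ℕ) : Set B :=
  (fun q : ℤ × Fin d => (T q.1 : Lam) • a q.2) ''
    (Finset.Icc (-m : ℤ) m ×ˢ Finset.univ : Finset (ℤ × Fin d))

theorem mem_WW {d : ℕ} {a : Fin d → B} {m : ℕ} {x : B} :
    x ∈ WW a m ↔ ∃ j : ℤ, -(m : ℤ) ≤ j ∧ j ≤ m ∧ ∃ i, (T j : Lam) • a i = x := by
  simp [WW, and_assoc]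

theorem exists_window {d : ℕ} (a : Fin d → B) (k : ℕ) {x : D}
    (hx : x ∈ JJ ψ (Submodule.span Lam (Set.range a)) ^ k • (⊤ : Submodule S D)) :
    ∃ m, x ∈ JJ ψ (WW a m) ^ k • (⊤ : Submodule S D) := by
  have hmono : Monotone fun m => JJ ψ (WW a m) := fun i j hij => JJ_mono fun x hx => by
    obtain ⟨l, h1, h2, h⟩ := mem_WW.1 hx
    exact mem_WW.2 ⟨l, by omega, by omega, h⟩
  have h1 : JJ ψ (Submodule.span Lam (Set.range a)) ≤ ⨆ m, JJ ψ (WW a m) := by
    refine JJ_le fun b hb => ?_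
    obtain ⟨v, rfl⟩ := (Submodule.mem_span_range_iff_exists_fun _).1 hb
    refine sum_mem fun i _ => ?_
    refine lam_ind (P := fun v => v • a i ∈ betaSub ψ (⨆ m, JJ ψ (WW a m))) (fun j => ?_) (by simp)
      (fun v w hv hw => by rw [add_smul]; exact add_mem hv hw)
      (fun v hv => by rw [neg_smul]; exact neg_mem hv) (v i)
    exact Ideal.mem_iSup_of_mem j.natAbs (mem_JJ (mem_WW.2 ⟨j, by omega, by omega, i, rfl⟩))
  have h2 : (⨆ m, JJ ψ (WW a m)) ^ k • (⊤ : Submodule S D) ≤
      ⨆ m, JJ ψ (WW a m) ^ k • (⊤ : Submodule S D) := by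
    clear hx
    induction k with
    | zero => exact le_iSup_of_le 0 (by simp)
    | succ k ih =>
      rw [pow_succ', mul_smul]
      refine (Submodule.smul_mono le_rfl ih).trans ?_
      rw [Submodule.iSup_smul]
      refine iSup_le fun i => ?_
      rw [Submodule.smul_iSup]
      refine iSup_le fun j => le_iSup_of_le (max i j) ?_
      rw [pow_succ', mul_smul]
      exact Submodule.smul_mono (hmono (le_max_left _ _))
        (Submodule.smul_mono_left (Ideal.pow_right_mono (hmono (le_max_right _ _)) k))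
  exact (Submodule.mem_iSup_of_directed _ (Monotone.directed_le fun i j hij =>
    Submodule.smul_mono_left (Ideal.pow_right_mono (hmono hij) k))).1
    (h2 (Submodule.smul_mono_left (Ideal.pow_right_mono h1 k) hx))

theorem window_kill {d n w : ℕ} (hd : 0 < d) {γ : Lam}
    (hN : ∀ (b : B) (x : D), (ψ (γ • b) - 1) ^ n • x = 0)
    (hW : ∀ (b : Fin d → B) (y : D), (∏ i, (ψ (γ • b i) - 1)) • y ∈
      JJ ψ (WW (fun i => γ • b i) w) ^ (2 * d) • (⊤ : Submodule S D))
    (b : Fin d → B) (y : D) : (∏ i, (ψ (γ • b i) - 1)) • y = 0 := by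
  have h1 : ∀ m, Le D (JJ ψ (WW (fun i => γ • b i) m) ^ d)
      (JJ ψ (WW (fun i => γ • b i) (m + w)) ^ (2 * d)) := by
    intro m
    refine JJ_pow_le fun a ha y => ?_
    choose j hj1 hj2 i hi using fun k => mem_WW.1 (ha k)
    have := hW (fun k => (T (j k) : Lam) • b (i k)) y
    simp only [smul_comm γ, hi] at this
    refine Submodule.smul_mono_left (Ideal.pow_right_mono (JJ_mono fun x hx => ?_) _) this
    obtain ⟨l, h1, h2, k, rfl⟩ := mem_WW.1 hx
    have := hj1 k
    have := hj2 k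
    exact mem_WW.2 ⟨l + j k, by omega, by omega, i k, by rw [← hi, T_add, mul_smul]⟩
  have h2 : ∀ m q, Le D (JJ ψ (WW (fun i => γ • b i) m) ^ (q * d))
      (JJ ψ (WW (fun i => γ • b i) (m + w)) ^ (2 * q * d)) := by
    intro m q
    induction q with
    | zero => simp [Le]
    | succ q ih =>
      rw [add_mul, one_mul, pow_add, show 2 * (q + 1) * d = 2 * d + 2 * q * d by ring, pow_add]
      refine ((h1 m).mul_left _).trans ?_
      rw [mul_comm]
      exact ih.mul_left _
  have h3 : ∀ r, Le D (JJ ψ (WW (fun i => γ • b i) 0) ^ d)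
      (JJ ψ (WW (fun i => γ • b i) (r * w)) ^ (2 ^ r * d)) := by
    intro r
    induction r with
    | zero => simp [Le]
    | succ r ih => rw [add_mul, one_mul, pow_succ' 2]; exact ih.trans (h2 _ _)
  obtain ⟨r, hr⟩ : ∃ r, (2 * (r * w) + 1) * d * n + 1 ≤ 2 ^ r * d := by
    refine ⟨2 * (4 * w * n + n + 1), ?_⟩
    have h4 := Nat.lt_two_pow_self (n := 4 * w * n + n + 1)
    have h5 : (2 * (2 * (4 * w * n + n + 1) * w) + 1) * n + 1 ≤ 2 ^ (2 * (4 * w * n + n + 1)) := by
      rw [mul_comm 2 (4 * w * n + n + 1), pow_mul]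
      generalize 2 ^ (4 * w * n + n + 1) = P at h4
      nlinarith [Nat.zero_le (w * n), Nat.zero_le n]
    nlinarith
  have h6 := nilfin (D := D) (fun q : ℤ × Fin d => ψ ((T q.1 : Lam) • γ • b q.2) - 1) n
    (Finset.Icc (-(r * w : ℕ) : ℤ) (r * w : ℕ) ×ˢ Finset.univ) fun q _ x => by
      rw [smul_comm]; exact hN _ x
  rw [Finset.card_product, Finset.card_univ, Fintype.card_fin, Int.card_Icc,
    show (((r * w : ℕ) : ℤ) + 1 - -((r * w : ℕ) : ℤ)).toNat = 2 * (r * w) + 1 by omega] at h6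
  have h7 : JJ ψ (WW (fun i => γ • b i) (r * w)) ^ (2 ^ r * d) ≤ Module.annihilator S D := by
    refine (Ideal.pow_le_pow_right hr).trans ?_
    rwa [JJ, WW, Set.image_image]
  have h8 := (h3 r).trans (Le.sup_ann (J := ⊥) le_sup_left h7)
  rw [Le, Submodule.bot_smul] at h8
  refine (Submodule.mem_bot S).1 (h8 (Submodule.smul_mem_smul ?_ trivial))
  have := prod_mem_JJ (ψ := ψ) (X := WW (fun i => γ • b i) 0) Finset.univ
    (b := fun i => γ • b i) fun i _ => mem_WW.2 ⟨0, by simp, by simp, i, by simp⟩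
  rwa [Finset.card_univ, Fintype.card_fin] at this

theorem law (hF : FewV L) : ∃ e, 0 < e ∧ ∃ c k : ℕ, ∀ (B S D : Type) [AddCommGroup B]
    [Module Lam B] [CommRing S] [AddCommGroup D] [Module S D] (ψ : AddChar B S) (τ : D ≃ₗ[ℤ] D),
    IsFrame L ψ τ → JJ ψ (Set.range fun b : B => dl e ^ c • b) ^ k • (⊤ : Submodule S D) ≤ ⊥ := by
  obtain ⟨d, hd, e₁, he₁, c₁, h₁⟩ := star hF
  obtain ⟨e₂, he₂, c₂, n, h₂⟩ := nil_law hF
  have he := Nat.mul_pos he₁ he₂
  obtain ⟨F, hFF⟩ := lam_fg he (c₁ + c₂)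
  obtain ⟨v₁, hv₁⟩ := dl_pow_dvd (dvd_mul_right e₁ e₂) (Nat.le_add_right c₁ c₂)
  obtain ⟨v₂, hv₂⟩ := dl_pow_dvd (dvd_mul_left e₂ e₁) (Nat.le_add_left c₂ c₁)
  set γ := dl (e₁ * e₂) ^ (c₁ + c₂) with hγ
  have hN : ∀ (B S D : Type) [AddCommGroup B] [Module Lam B] [CommRing S] [AddCommGroup D]
      [Module S D] (ψ : AddChar B S) (τ : D ≃ₗ[ℤ] D), IsFrame L ψ τ → ∀ (b : B) (x : D),
      (ψ (γ • b) - 1) ^ n • x = 0 := fun B S D _ _ _ _ _ ψ τ h b x => by
    rw [hv₂, mul_smul]; exact h₂ B S D ψ τ h _ x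
  have hC : ∀ (B S D : Type) [AddCommGroup B] [Module Lam B] [CommRing S] [AddCommGroup D]
      [Module S D] (ψ : AddChar B S) (τ : D ≃ₗ[ℤ] D), IsFrame L ψ τ → ∀ (b : Fin d → B) (y : D),
      (∏ i, (ψ (γ ^ (F.card * d * n + 1 + 1) • b i) - 1)) • y ∈
      JJ ψ (Submodule.span Lam (Set.range fun i => γ ^ (F.card * d * n + 1 + 1) • b i)) ^ (2 * d) •
        (⊤ : Submodule S D) := fun B S D _ _ _ _ _ ψ τ h =>
    club (fun B₁ b hb y => by
      simp only [hv₁, mul_smul]
      exact h₁ B S D ψ τ h B₁ _ (fun i => B₁.smul_mem _ (hb i)) y) hFF (hN B S D ψ τ h)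
  obtain ⟨w, hw⟩ := exists_window _ _ (hC _ _ _ _ _ (frame_GR L (Fin d → Lam))
    (fun i => Pi.single i 1) (x0 L _))
  refine ⟨_, he, (c₁ + c₂) * (F.card * d * n + 1 + 1), d, fun B S D _ _ _ _ _ ψ τ h => ?_⟩
  rw [pow_mul, ← hγ]
  refine JJ_pow_le fun a ha y => ?_
  choose b hb using ha
  simp only [← hb]
  refine window_kill (n := n) (w := w) hd (fun b x => ?_) (fun b y => ?_) b y
  · rw [pow_succ', mul_smul]; exact hN B S D ψ τ h _ x
  · let φ : (Fin d → Lam) →ₗ[Lam] B := Fintype.linearCombination Lam b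
    have hφ : ∀ i, φ (Pi.single i 1) = b i := fun i => by simp [φ]
    have h' := h.subst φ.toAddMonoidHom 1 fun v => φ.map_smul _ v
    have h3 := semi_mem (h'.evR y) (J := JJ ψ (WW (fun i =>
      γ ^ (F.card * d * n + 1 + 1) • b i) w) ^ (2 * d)) (Y := ⊤) (by
        rw [Ideal.map_pow]
        refine Ideal.pow_right_mono ?_ _
        rw [Ideal.map_le_iff_le_comap]
        refine JJ_le fun v hv => ?_
        obtain ⟨j, h1, h2, i, rfl⟩ := mem_WW.1 hv
        show hat _ (_ - 1) ∈ JJ ψ _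
        rw [map_sub, hat_ofB, map_one (hat _)]
        refine mem_JJ (mem_WW.2 ⟨j, h1, h2, i, ?_⟩)
        simp only [LinearMap.toAddMonoidHom_coe, map_smul, hφ]) (fun _ => trivial) hw
    rw [map_smulₛₗ (h'.evR y), h'.evR_x0, map_prod] at h3
    simpa only [map_sub, hat_ofB, map_one (hat _), AddChar.compAddMonoidHom_apply,
      LinearMap.toAddMonoidHom_coe, map_smul, hφ] using h3

end Pool.Agent.P.MP_ecb9b3_al
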