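import Pool.Agent.P.MP_ecb9b3_al.Sect

/-! A module over a finitely generated nilpotent group with few submodules in its square is
Noetherian. -/

namespace Pool.Agent.P.MP_ecb9b3_al

open Submodule Function Polynomial
open scoped commutatorElement

set_option maxHeartbeats 400000

variable {G : Type} [Group G] {A : Type} [AddCommGroup A]

theorem sec_exists (ρ : Representation ℤ G A) {Y X : Submodule ℤ A} (hY : Inv ρ ⊤ Y)
    (hX : Inv ρ ⊤ X) : ∃ (A' : Type) (_ : AddCommGroup A') (ρ' : Representation ℤ G A')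
      (π : X →ₗ[ℤ] A'), Surjective π ∧ (∀ x, π x = 0 ↔ (x : A) ∈ Y) ∧
      ∀ g x, ρ' g (π x) = π ⟨ρ g x, hX g (Subgroup.mem_top g) _ x.2⟩ := by
  refine ⟨X ⧸ Y.submoduleOf X, inferInstance,
    (ρ.subrepresentation X fun g x hx => hX g (Subgroup.mem_top g) x hx).quotient
      (Y.submoduleOf X) fun g x hx => hY g (Subgroup.mem_top g) _ hx,
    (Y.submoduleOf X).mkQ, mkQ_surjective _, fun x => ?_, fun g x => rfl⟩
  rw [mkQ_apply, Submodule.Quotient.mk_eq_zero]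
  rfl

theorem sec_few {ρ : Representation ℤ G A} {Y X : Submodule ℤ A}
    (hX : Inv ρ ⊤ X) (hYX : Y ≤ X) {A' : Type} [AddCommGroup A'] {ρ' : Representation ℤ G A'}
    {π : X →ₗ[ℤ] A'} (hs : Surjective π) (h0 : ∀ x, π x = 0 ↔ (x : A) ∈ Y)
    (he : ∀ g x, ρ' g (π x) = π ⟨ρ g x, hX g (Subgroup.mem_top g) _ x.2⟩)
    (h : Few2 ρ Y X) : Few2 ρ' ⊥ ⊤ := by
  intro F hF _ _ hinj
  refine h (fun E => ((F E).comap (π.prodMap π)).map (X.subtype.prodMap X.subtype)) ?_ ?_ ?_ ?_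
  · rintro E g _ ⟨p, hp, rfl⟩
    refine ⟨(⟨ρ g p.1, hX g (Subgroup.mem_top g) _ p.1.2⟩,
      ⟨ρ g p.2, hX g (Subgroup.mem_top g) _ p.2.2⟩), ?_, rfl⟩
    have := hF E g _ hp
    simp only [LinearMap.prodMap_apply, he] at this
    exact this
  · rintro E ⟨a, b⟩ ⟨ha, hb⟩
    refine ⟨(⟨a, hYX ha⟩, ⟨b, hYX hb⟩), ?_, rfl⟩
    show (π _, π _) ∈ F E
    rw [(h0 _).2 ha, (h0 _).2 hb]
    exact zero_mem _
  · rintro E _ ⟨p, _, rfl⟩
    exact ⟨p.1.2, p.2.2⟩
  · refine (map_injective_of_injective ?_).comp ((comap_injective_of_surjective ?_).comp hinj)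
    · exact X.injective_subtype.prodMap X.injective_subtype
    · exact hs.prodMap hs

theorem sec_fg {ρ : Representation ℤ G A} {Y X : Submodule ℤ A}
    (hX : Inv ρ ⊤ X) {A' : Type} [AddCommGroup A'] {ρ' : Representation ℤ G A'}
    {π : X →ₗ[ℤ] A'} (hs : Surjective π) (h0 : ∀ x, π x = 0 ↔ (x : A) ∈ Y)
    (he : ∀ g x, ρ' g (π x) = π ⟨ρ g x, hX g (Subgroup.mem_top g) _ x.2⟩)
    (h : FGo ρ' ⊥ ⊤) : FGo ρ Y X := by
  obtain ⟨s, hsf, -, hs2⟩ := h
  choose l hl using hs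
  refine ⟨(fun a => (l a : A)) '' s, hsf.image _, ?_, fun x hx => ?_⟩
  · rintro _ ⟨a, _, rfl⟩; exact (l a).2
  have h1 : gen ρ' ⊤ s ≤ ((gen ρ ⊤ ((fun a => (l a : A)) '' s)).comap X.subtype).map π := by
    refine gen_le ?_ fun a ha => ⟨l a, subset_gen ⟨a, ha, rfl⟩, hl a⟩
    rintro g hg _ ⟨y, hy, rfl⟩
    exact ⟨_, inv_gen _ g hg _ hy, (he g y).symm⟩
  obtain ⟨y, hy, hy'⟩ := h1 (by simpa using hs2 (mem_top (x := π ⟨x, hx⟩)))
  have h2 := (h0 (⟨x, hx⟩ - y)).1 (by rw [map_sub, hy', sub_self])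
  exact mem_sup.2 ⟨_, h2, _, hy, by simp⟩

theorem per_of_finite {C : Type} [CommRing C]
    (h : ∀ c : C, c ≠ 0 → Finite (C ⧸ Ideal.span {c})) (c : C) (hc : c ≠ 0) (s : C) :
    ∃ a b, 0 < b ∧ c ∣ s ^ a * (s ^ b - 1) := by
  haveI := h c hc
  obtain ⟨i, j, hij, he⟩ := Finite.exists_ne_map_eq_of_infinite
    (fun n : ℕ => Ideal.Quotient.mk (Ideal.span {c}) (s ^ n))
  wlog hlt : i < j generalizing i j
  · exact this j i hij.symm he.symm (by omega)
  refine ⟨i, j - i, by omega, ?_⟩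
  rw [mul_sub, ← pow_add, Nat.add_sub_cancel' hlt.le, mul_one, ← Ideal.mem_span_singleton]
  exact Ideal.Quotient.eq.1 he.symm

theorem fin_case (p : ℕ) [Fact p.Prime] (ρ : Representation ℤ G A) (hp : ∀ x : A, p • x = 0)
    (K : Subgroup G) [K.FiniteIndex] (hK : ∀ g ∈ K, ∀ x, ρ g x = x) (hfew : Few2 ρ ⊥ ⊤) :
    FGo ρ ⊥ ⊤ := by
  by_contra hn
  letI : Module (ZMod p) A := AddCommGroup.zmodModule hp
  obtain ⟨f, hf, hf'⟩ := exists_seq_of_forall_finset_exists
    (fun q : A × (A →+ ZMod p) => q.2 q.1 ≠ 0)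
    (fun q q' => (∀ g, q.2 (ρ g q'.1) = 0) ∧ ∀ g, q'.2 (ρ g q.1) = 0) (by
    intro s _
    let Θ : A → (s → G ⧸ K → ZMod p) := fun x q g => q.1.2 (ρ g.out x)
    let F := gen ρ ⊤ (Prod.fst '' (s : Set (A × (A →+ ZMod p))))
    obtain ⟨y, hy, hyF⟩ : ∃ y, Θ y = 0 ∧ y ∉ F := by
      by_contra hc
      push Not at hc
      let l : Set.range Θ → A := fun v => v.2.choose
      have hl : ∀ v, Θ (l v) = v := fun v => v.2.choose_spec
      refine hn ⟨Prod.fst '' (s : Set (A × (A →+ ZMod p))) ∪ Set.range l,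
        (s.finite_toSet.image _).union (Set.finite_range l), fun _ _ => mem_top, fun x _ => ?_⟩
      have h1 : x - l ⟨Θ x, x, rfl⟩ ∈ F := hc _ (by
        funext q g
        have := congrFun (congrFun (hl ⟨Θ x, x, rfl⟩) q) g
        simp only [Θ, map_sub, Pi.zero_apply] at this ⊢
        rw [this, sub_self])
      have h2 := add_mem (gen_mono Set.subset_union_left h1)
        (subset_gen (ρ := ρ) (N := ⊤) (Set.mem_union_right
          (Prod.fst '' (s : Set (A × (A →+ ZMod p)))) (Set.mem_range_self (f := l) ⟨Θ x, x, rfl⟩)))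
      rw [sub_add_cancel] at h2
      exact mem_sup_right h2
    obtain ⟨φ, hφ, hφ'⟩ := exists_dual_map_eq_bot_of_notMem (R := ZMod p)
      (p := AddSubgroup.toZModSubmodule p F.toAddSubgroup) (x := y) hyF inferInstance
    refine ⟨(y, φ.toAddMonoidHom), hφ, fun q hq => ⟨fun g => ?_, fun g => ?_⟩⟩
    · obtain ⟨k, hk⟩ := QuotientGroup.mk_out_eq_mul K g
      have := congrFun (congrFun hy ⟨q, hq⟩) (g : G ⧸ K)
      simp only [Θ, hk, rho_mul, hK k k.2] at this
      exact this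
    · have : φ (ρ g q.1) ∈ (AddSubgroup.toZModSubmodule p F.toAddSubgroup).map φ :=
        mem_map_of_mem (mem_gen (Subgroup.mem_top g) ⟨q, hq, rfl⟩)
      rwa [hφ', mem_bot] at this)
  refine hfew.indep (fun k => ⨅ g : G, LinearMap.ker ((f k).2.toIntLinearMap ∘ₗ ρ g)) ?_
    (fun k => (f k).1) ?_ ?_
  · intro k g _ x hx
    simp only [mem_iInf, LinearMap.mem_ker, LinearMap.comp_apply] at hx ⊢
    intro h
    rw [← rho_mul]
    exact hx _
  · intro k hk
    simp only [mem_iInf, LinearMap.mem_ker, LinearMap.comp_apply] at hk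
    exact hf k (by simpa using hk 1)
  · intro j k hjk
    simp only [mem_iInf, LinearMap.mem_ker, LinearMap.comp_apply]
    rcases lt_or_gt_of_ne hjk with h | h
    · exact (hf' j k h).1
    · exact (hf' k j h).2

theorem poly_ind (p : ℕ) (Q : (ZMod p)[X] → Prop) (hint : ∀ k : ℤ, Q k) (hX : Q X)
    (hadd : ∀ a b, Q a → Q b → Q (a + b)) (hmul : ∀ a b, Q a → Q b → Q (a * b)) (q) : Q q := by
  induction q using Polynomial.induction_on with
  | C a =>
    obtain ⟨k, rfl⟩ := ZMod.intCast_surjective a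
    simpa using hint k
  | add a b ha hb => exact hadd a b ha hb
  | monomial n a h => rw [pow_succ, ← mul_assoc]; exact hmul _ _ h hX

theorem poly_module' (R : Type) [CommRing R] [Module R A] (f : Module.End R A) :
    ∃ _ : Module R[X] A, ∀ x : A, (X : R[X]) • x = f x :=
  ⟨Module.compHom A (Polynomial.aeval f).toRingHom, fun x => by
    show Polynomial.aeval f (X : R[X]) x = _
    rw [aeval_X]⟩

theorem poly_module (p : ℕ) (hp : ∀ x : A, p • x = 0) (f : A →+ A) :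
    ∃ _ : Module (ZMod p)[X] A, ∀ x : A, (X : (ZMod p)[X]) • x = f x :=
  letI : Module (ZMod p) A := AddCommGroup.zmodModule hp
  poly_module' (ZMod p) (f.toZModLinearMap p)

theorem change_ring {C : Type} [CommRing C] [Module C A] {ρ : Representation ℤ G A}
    {ρ' : Representation C G A} (h : ∀ g x, ρ' g x = ρ g x)
    (hS : ∀ S : Submodule ℤ A, Inv ρ ⊤ S → ∀ c : C, ∀ x ∈ S, c • x ∈ S) :
    (Few2 ρ ⊥ ⊤ → Few2 ρ' ⊥ ⊤) ∧ ∀ Y X : Submodule C A,
      (FGo ρ Y.toAddSubgroup.toIntSubmodule X.toAddSubgroup.toIntSubmodule ↔ FGo ρ' Y X) := by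
  have hgen : ∀ s x, x ∈ gen ρ ⊤ s ↔ x ∈ gen ρ' ⊤ s := by
    intro s x
    refine ⟨fun hx => gen_le (S := (gen ρ' ⊤ s).toAddSubgroup.toIntSubmodule)
      (fun g hg x hx => h g x ▸ inv_gen s g hg x hx) (fun x hx => subset_gen (ρ := ρ') hx) hx,
      fun hx => gen_le (S := ⟨(gen ρ ⊤ s).toAddSubmonoid, fun c x hx => hS _ (inv_gen s) c x hx⟩)
      (fun g hg x hx => (h g x).symm ▸ inv_gen s g hg x hx)
      (fun x hx => subset_gen (ρ := ρ) hx) hx⟩
  refine ⟨fun hfew F hF _ _ hinj => hfew.graph (fun E => (F E).toAddSubgroup.toIntSubmodule)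
    (fun E g p hp => by rw [← h, ← h]; exact hF E g p hp) ?_, fun Y X => ?_⟩
  · exact (AddSubgroup.toIntSubmodule.injective.comp toAddSubgroup_injective).comp hinj
  · refine exists_congr fun s => and_congr Iff.rfl (and_congr Iff.rfl ?_)
    constructor
    · intro h1 x hx
      obtain ⟨a, ha, b, hb, rfl⟩ := mem_sup.1 (h1 (x := x) hx)
      exact add_mem_sup ha ((hgen s b).1 hb)
    · intro h1 x hx
      obtain ⟨a, ha, b, hb, rfl⟩ := mem_sup.1 (h1 (x := x) hx)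
      exact add_mem_sup ha ((hgen s b).2 hb)

theorem lemL_prime (hfg : Group.FG G) (c : ℕ) (p : ℕ) [Fact p.Prime] :
    ∀ K : Subgroup G, K.Normal → (⊤ : Subgroup G).lowerCentralSeries c ≤ K →
      ∀ (A : Type) [AddCommGroup A] (ρ : Representation ℤ G A), (∀ x : A, p • x = 0) →
      (∀ g ∈ K, ∀ x, ρ g x = x) → Few2 ρ ⊥ ⊤ → FGo ρ ⊥ ⊤ := by
  refine (nc_lcs hfg c).induction _ ?_
  intro K hK hc ih A _ ρ hp hKA hfew
  by_cases hfin : K.FiniteIndex
  · exact fin_case p ρ hp K hKA hfew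
  obtain ⟨z, hz, hz'⟩ := lemB hfg c K hc hfin
  by_contra hn
  obtain ⟨inst, hX⟩ := poly_module p hp (ρ z).toAddMonoidHom
  replace hX : ∀ x : A, (X : (ZMod p)[X]) • x = ρ z x := hX
  have hcomm : ∀ g x, ρ g (ρ z x) = ρ z (ρ g x) := fun g x => by
    rw [← hKA _ (hz g) (ρ g (ρ z x)), ← rho_mul, ← rho_mul, ← rho_mul, commutatorElement_def]
    congr 2; group
  have hsm : ∀ g (q : (ZMod p)[X]) (x : A), ρ g (q • x) = q • ρ g x := by
    intro g q
    refine poly_ind p (fun q => ∀ x : A, ρ g (q • x) = q • ρ g x) ?_ ?_ ?_ ?_ q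
    · intro k x; rw [Int.cast_smul_eq_zsmul, Int.cast_smul_eq_zsmul, map_zsmul]
    · intro x; rw [hX, hX, hcomm]
    · intro a b ha hb x; rw [add_smul, add_smul, map_add, ha, hb]
    · intro a b ha hb x; rw [mul_smul, mul_smul, ha, hb]
  let ρ' : Representation (ZMod p)[X] G A :=
    { toFun := fun g => { toFun := ρ g, map_add' := map_add _, map_smul' := hsm g }
      map_one' := by ext x; simp
      map_mul' := fun g h => by ext x; simp }
  have hcr := change_ring (ρ := ρ) (ρ' := ρ') (fun g x => rfl) (by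
    intro S hS q
    refine poly_ind p (fun q => ∀ x ∈ S, q • x ∈ S) ?_ ?_ ?_ ?_ q
    · intro k x hx; rw [Int.cast_smul_eq_zsmul]; exact zsmul_mem hx k
    · intro x hx; rw [hX]; exact hS z (Subgroup.mem_top z) x hx
    · intro a b ha hb x hx; rw [add_smul]; exact add_mem (ha x hx) (hb x hx)
    · intro a b ha hb x hx; rw [mul_smul]; exact ha _ (hb x hx))
  have hper := per_of_finite (C := (ZMod p)[X]) fun c hc => by
    haveI := (AdjoinRoot.powerBasis hc).finite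
    exact Module.finite_of_finite (ZMod p) (M := AdjoinRoot c)
  obtain ⟨Y, W, q, hY, hW, hYW, hq, hqW, hnf⟩ := lemLC (ρ := ρ') hper (by
      intro w hw
      have hd : (1 + w * X).natDegree = w.natDegree + 1 := by
        rw [natDegree_add_eq_right_of_natDegree_lt] <;> simp [natDegree_mul_X hw]
      refine ⟨X, fun h => ?_, fun h => ?_⟩
      · rw [h] at hd; simp at hd
      · rw [natDegree_eq_zero_of_isUnit h] at hd; omega)
    (good_top (K := K) hKA (ch_top hfg c K hK hc)) (hcr.1 hfew)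
    (fun h => hn (by simpa using (hcr.2 ⊥ ⊤).2 h))
  obtain ⟨a, b, hb, v, hv⟩ := hper q hq X
  have hXn : ∀ (n : ℕ) (x : A), (X ^ n : (ZMod p)[X]) • x = ρ (z ^ n) x := by
    intro n
    induction n with
    | zero => simp
    | succ n ih => intro x; rw [pow_succ, mul_smul, ih, hX, pow_succ, rho_mul]
  have hzb : ∀ x ∈ W, ρ (z ^ b) x - x ∈ Y := by
    intro x hx
    have h1 : (X ^ a * (X ^ b - 1) : (ZMod p)[X]) • x ∈ Y := by
      rw [hv, mul_comm, mul_smul]; exact smul_mem _ _ (hqW x hx)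
    rw [mul_smul, sub_smul, one_smul, hXn, hXn] at h1
    have h2 : ρ (z ^ a)⁻¹ _ ∈ Y := hY (z ^ a)⁻¹ (Subgroup.mem_top _) _ h1
    rwa [Representation.inv_self_apply] at h2
  have hY' : Inv ρ ⊤ Y.toAddSubgroup.toIntSubmodule := hY
  have hW' : Inv ρ ⊤ W.toAddSubgroup.toIntSubmodule := hW
  obtain ⟨A', _, ρ₁, π, hs, h0, he⟩ := sec_exists ρ hY' hW'
  refine hnf ((hcr.2 Y W).1 (sec_fg hW' hs h0 he (ih (K ⊔ Subgroup.zpowers (z ^ b))
    (normal_sup_zpowers (pow_central hz b)) (lt_of_le_of_ne le_sup_left fun h => hz' b hb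
      (h ▸ Subgroup.mem_sup_right (Subgroup.mem_zpowers _))) A' ρ₁ ?_ ?_
      (sec_few hW' hYW hs h0 he (hfew.mono bot_le le_top)))))
  · intro x
    obtain ⟨x, rfl⟩ := hs x
    rw [← map_nsmul, h0]
    show p • (x : A) ∈ Y
    rw [hp]; exact zero_mem _
  · have h3 : K ⊔ Subgroup.zpowers (z ^ b) ≤ ρ₁.asGroupHom.ker := by
      refine sup_le (fun g hg => ?_) (Subgroup.zpowers_le.2 ?_)
      · ext x
        obtain ⟨x, rfl⟩ := hs x
        rw [Representation.asGroupHom_apply, he, Units.val_one, Module.End.one_apply]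
        exact congrArg π (Subtype.ext (hKA g hg _))
      · ext x
        obtain ⟨x, rfl⟩ := hs x
        rw [Representation.asGroupHom_apply, he, Units.val_one, Module.End.one_apply, ← sub_eq_zero,
          ← map_sub, h0]
        exact hzb x x.2
    intro g hg x
    rw [← Representation.asGroupHom_apply, MonoidHom.mem_ker.1 (h3 hg)]
    rfl

theorem prime_red {ρ : Representation ℤ G A} (n : ℕ) (hn : n ≠ 0) : ∀ Y X : Submodule ℤ A,
    Inv ρ ⊤ Y → Inv ρ ⊤ X → Y ≤ X → (∀ x ∈ X, (n : ℤ) • x ∈ Y) → ¬ FGo ρ Y X →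
    ∃ Y X : Submodule ℤ A, ∃ p : ℕ, p.Prime ∧ Inv ρ ⊤ Y ∧ Inv ρ ⊤ X ∧ Y ≤ X ∧
      (∀ x ∈ X, (p : ℤ) • x ∈ Y) ∧ ¬ FGo ρ Y X := by
  induction n using induction_on_primes with
  | zero => exact absurd rfl hn
  | one => exact fun Y X _ _ _ h h' => absurd (FGo.of_le fun x hx => by simpa using h x hx) h'
  | prime_mul p m hp ih =>
    intro Y X hY hX hYX h h'
    by_cases h1 : FGo ρ (X ⊓ col Y m) X
    · refine ih (right_ne_zero_of_mul hn) Y (X ⊓ col Y m) hY (hX.inf (inv_col hY _))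
        (le_inf hYX (le_col _ _)) (fun x hx => hx.2) fun h2 => h' (h2.trans h1 inf_le_left)
    · refine ⟨_, X, p, hp, hX.inf (inv_col hY _), hX, inf_le_left, fun x hx =>
        ⟨smul_mem _ _ hx, ?_⟩, h1⟩
      have := h x hx
      rw [Nat.cast_mul, mul_comm, mul_smul] at this
      exact this

theorem lemL_abs (hfg : Group.FG G) (c : ℕ) (ρ : Representation ℤ G A)
    (hK : ∀ g ∈ (⊤ : Subgroup G).lowerCentralSeries c, ∀ x, ρ g x = x) (hfew : Few2 ρ ⊥ ⊤) :
    FGo ρ ⊥ ⊤ := by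
  by_contra hn
  obtain ⟨Y, W, q, hY, hW, hYW, hq, hqW, hnf⟩ := lemLC (ρ := ρ)
    (per_of_finite fun c hc => Ideal.finiteQuotientOfFreeOfNeBot _ (by simpa using hc))
    (fun z hz => ⟨z, by nlinarith [mul_self_pos.2 hz], fun h => by
      rcases Int.isUnit_iff.1 h with h | h <;> nlinarith [mul_self_pos.2 hz]⟩)
    (good_top hK (ch_top hfg c _ inferInstance le_rfl)) hfew hn
  obtain ⟨Y, W, p, hp, hY, hW, hYW, hpW, hnf⟩ := prime_red q.natAbs (by simpa using hq) Y W hY hW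
    hYW (fun x hx => by
      rcases Int.natAbs_eq q with h | h
      · rw [← h]; exact hqW x hx
      · rw [← neg_mem_iff, ← neg_smul, ← h]; exact hqW x hx) hnf
  haveI := Fact.mk hp
  obtain ⟨A', _, ρ₁, π, hs, h0, he⟩ := sec_exists ρ hY hW
  refine hnf (sec_fg hW hs h0 he (lemL_prime hfg c p _ inferInstance le_rfl A' ρ₁ ?_ ?_
    (sec_few hW hYW hs h0 he (hfew.mono bot_le le_top))))
  · intro x
    obtain ⟨x, rfl⟩ := hs x
    rw [← map_nsmul, h0]
    simpa using hpW x x.2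
  · intro g hg x
    obtain ⟨x, rfl⟩ := hs x
    simp [he, hK g hg]

/-- Lemma L for sections. -/
theorem lemL (hfg : Group.FG G) (c : ℕ) (ρ : Representation ℤ G A) {Y W : Submodule ℤ A}
    (hY : Inv ρ ⊤ Y)
    (hK : ∀ g ∈ (⊤ : Subgroup G).lowerCentralSeries c, ∀ x ∈ W, ρ g x - x ∈ Y)
    (hfew : Few2 ρ Y W) : ACC ρ ⊤ Y W := by
  intro f hf hI h1 h2
  have hU : Inv ρ ⊤ (⨆ n, f n) := Inv.iSup hI
  have hYU : Y ≤ ⨆ n, f n := (h1 0).trans (le_iSup f 0)
  obtain ⟨A', _, ρ₁, π, hs, h0, he⟩ := sec_exists ρ hY hU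
  obtain ⟨s, hsf, hs1, hs2⟩ := sec_fg hU hs h0 he (lemL_abs hfg c ρ₁ (by
      intro g hg x
      obtain ⟨x, rfl⟩ := hs x
      rw [he, ← sub_eq_zero, ← map_sub, h0]
      exact hK g hg x (iSup_le h2 x.2))
    (sec_few hU hYU hs h0 he (hfew.mono le_rfl (iSup_le h2))))
  choose! k hk using fun x hx => (mem_iSup_of_directed f hf.directed_le).1 (hs1 x hx)
  obtain ⟨n, hn⟩ := (hsf.image k).bddAbove
  refine ⟨n, fun m hm => le_antisymm ((le_iSup f m).trans (hs2.trans (sup_le (h1 n)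
    (gen_le (hI n) fun x hx => hf (hn ⟨x, hx, rfl⟩) (hk x hx))))) (hf hm)⟩

end Pool.Agent.P.MP_ecb9b3_al
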