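import Pool.Agent.P.MP_ecb9b3_al.GLaw
import Pool.Agent.P.MP_ecb9b3_al.Dia

/-! Finitely generated soluble groups of a small variety are virtually metanilpotent and satisfy
the maximal condition on normal subgroups. -/

namespace Pool.Agent.P.MP_ecb9b3_al

open Function Subgroup
open scoped commutatorElement

set_option maxHeartbeats 400000

variable {L : Set (FreeGroup ℕ)} {G : Type} [Group G]

theorem finiteIndex_comap {G' : Type} [Group G'] (f : G →* G') (hf : Surjective f)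
    (H : Subgroup G') [h : H.FiniteIndex] : (H.comap f).FiniteIndex :=
  ⟨by rw [index_comap_of_surjective _ hf]; exact h.index_ne_zero⟩

theorem level {e c : ℕ} (hd : ∀ (G : Type) [Group G], InV L G → ∀ x y t : G,
      (∀ i, Commute (zz x y t i) x ∧ Commute (zz x y t i) y ∧ Commute (zz x y t i) t) →
      ⁅En (t ^ e) c x, y⁆ = 1) (hV : InV L G) (M H : Subgroup G) [hM : M.Normal] [H.Normal]
    {s : G} (hs : s ∈ H) (j : ℕ) : ∀ x ∈ M, (∀ y ∈ M, ⁅x, y⁆ ∈ upz M ⊥ 1 ⊓ upz H ⊥ j) →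
      ∀ y ∈ M, ⁅En (s ^ e) (c * j) x, y⁆ = 1 := by
  induction j with
  | zero => exact fun x _ h y hy => mem_bot.1 (mem_upz.1 (h y hy).2)
  | succ j ih =>
    intro x hx h
    rw [mul_add, mul_one, En_add]
    refine ih _ (En_mem _ _ hx) fun y hy => ?_
    have hz : ∀ i, zz x y s i ∈ upz M ⊥ 1 ⊓ upz H ⊥ (j + 1) := fun i => by
      have := (inferInstance : (upz M ⊥ 1 ⊓ upz H ⊥ (j + 1)).Normal).conj_mem _
        (h _ (hM.conj_mem y hy (s ^ i)⁻¹)) (s ^ i)
      rw [conjugate_commutatorElement,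
        show s ^ i * ((s ^ i)⁻¹ * y * (s ^ i)⁻¹⁻¹) * (s ^ i)⁻¹ = y by group] at this
      exact this
    have hc : ∀ i, ∀ m ∈ M, Commute (zz x y s i) m := fun i m hm =>
      (commutatorElement_eq_one_iff_commute.1 (mem_bot.1 (mem_upz.1 (hz i).1 m hm))).symm
    rw [← QuotientGroup.ker_mk' (upz M ⊥ 1 ⊓ upz H ⊥ j), MonoidHom.mem_ker, map_commutatorElement,
      map_En, map_pow]
    refine hd _ (hV.quot _) _ _ _ fun i => ?_
    rw [← map_zz]
    refine ⟨(hc i x hx).map _, (hc i y hy).map _, ((comm_mem_iff _ _ _).1 ?_).symm⟩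
    exact ⟨comm_mem_right s (hz i).1, mem_upz.2 (mem_upz.1 (hz i).2 s hs)⟩

theorem virt_nil (hF : FewV L) (c k : ℕ) : ∀ (G : Type) [Group G], Group.FG G → InV L G →
    ((⊤ : Subgroup G).lowerCentralSeries c).lowerCentralSeries k ≤ ⊥ →
    (∃ H : Subgroup G, H.Normal ∧ H.FiniteIndex ∧ ∃ n, ∀ x ∈ (⊤ : Subgroup G).lowerCentralSeries c ⊓
      upz ((⊤ : Subgroup G).lowerCentralSeries c) ⊥ 1, UP H ⊥ n x) →
    ∃ H : Subgroup G, H.Normal ∧ H.FiniteIndex ∧ ∃ c', H.lowerCentralSeries c' ≤ ⊥ := by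
  obtain ⟨e, he, c₀, hd⟩ := dia hF
  induction k with
  | zero => exact fun G _ _ _ h _ => ⟨⊤, inferInstance, inferInstance, c, h⟩
  | succ k ih =>
    rintro G _ hfg hV hk ⟨H, hH, hHf, n, hn⟩
    set M := (⊤ : Subgroup G).lowerCentralSeries c with hM
    set Z := M ⊓ upz M ⊥ 1 with hZ
    have hs := QuotientGroup.mk'_surjective Z
    have hMm : M.map (QuotientGroup.mk' Z) = (⊤ : Subgroup (G ⧸ Z)).lowerCentralSeries c :=
      map_lcs_top _ hs c
    obtain ⟨H', hH', hHf', c', hc'⟩ := ih (G ⧸ Z) inferInstance (hV.quot Z) (by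
      rw [← hMm, ← map_lowerCentralSeries, map_le_iff_le_comap, MonoidHom.comap_bot,
        QuotientGroup.ker_mk']
      exact fun x hx => ⟨lcs_le _ _ hx, mem_upz.2 (UP_of_lcs hk hx)⟩) (by
      refine Uprime inferInstance c _ (fun a ha b hb => ?_) (fun W _ hW t _ => ?_) _ inferInstance
        le_rfl _ inferInstance le_rfl fun a ha b hb => ?_
      · exact commutatorElement_eq_one_iff_mul_comm.1 (mem_bot.1 (mem_upz.1 hb.2 a ha.1))
      · obtain ⟨t, rfl⟩ := hs t
        refine ⟨H.index * e, Nat.mul_pos (Nat.pos_of_ne_zero hHf.index_ne_zero) he, c₀ * n,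
          fun w hw => ?_⟩
        obtain ⟨h1, h2⟩ := hW hw
        rw [← hMm] at h1
        obtain ⟨x, hx, rfl⟩ := h1
        have h3 : ∀ y ∈ M, ⁅x, y⁆ ∈ Z := fun y hy => by
          rw [comm_mem_iff]
          exact (commutatorElement_eq_one_iff_commute.1 (mem_bot.1
            (mem_upz.1 h2 _ (hMm ▸ mem_map_of_mem _ hy)))).symm
        have h4 := level hd hV M H (H.pow_index_mem t) n x hx fun y hy =>
          ⟨(h3 y hy).2, mem_upz.2 (hn _ (h3 y hy))⟩
        rw [← map_pow, ← map_En, ← MonoidHom.mem_ker, QuotientGroup.ker_mk', pow_mul]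
        exact ⟨En_mem _ _ hx, mem_upz.2 fun y hy => comm_mem_swap (mem_bot.2 (h4 y hy))⟩
      · exact (commutatorElement_eq_one_iff_mul_comm.1 (mem_bot.1 (mem_upz.1 hb.2 a ha))).symm)
    haveI := finiteIndex_comap _ hs H'
    refine ⟨H ⊓ H'.comap (QuotientGroup.mk' Z), inferInstance, inferInstance, c' + n,
      lcs_le_of_UP fun x hx => UP.mono inf_le_left le_rfl (hn x ?_)⟩
    rw [← QuotientGroup.ker_mk' Z, MonoidHom.mem_ker]
    refine mem_bot.1 (hc' (lcs_mono (H := (H ⊓ H'.comap (QuotientGroup.mk' Z)).map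
      (QuotientGroup.mk' Z)) (map_le_iff_le_comap.2 inf_le_right) c' ?_))
    rw [← map_lowerCentralSeries]
    exact mem_map_of_mem _ hx

/-- The image of an abelian normal subgroup under the iterated commutator with `u`. -/
def EnImg (W : Subgroup G) [W.Normal] (hab : ∀ a ∈ W, ∀ b ∈ W, a * b = b * a) (u : G) (k : ℕ) :
    Subgroup G where
  carrier := {x | ∃ w ∈ W, En u k w = x}
  one_mem' := ⟨1, one_mem _, En_one u k⟩
  mul_mem' := by
    rintro _ _ ⟨a, ha, rfl⟩ ⟨b, hb, rfl⟩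
    exact ⟨a * b, mul_mem ha hb, En_mul hab u k ha hb⟩
  inv_mem' := by
    rintro _ ⟨a, ha, rfl⟩
    exact ⟨a⁻¹, inv_mem ha, En_inv hab u k ha⟩

theorem claimZ (hF : FewV L) (hfg : Group.FG G) (hV : InV L G) (c k : ℕ) (D : Subgroup G)
    (hD : ((⊤ : Subgroup G).lowerCentralSeries c).lowerCentralSeries k ≤ D) (hnc : NC D ⊤) :
    ∀ N : Subgroup G, N.Normal → D ≤ N → ∀ X Y : Subgroup G, X.Normal → Y.Normal → Y ≤ X →
      (∀ a ∈ X, ∀ b ∈ X, ⁅a, b⁆ ∈ Y) → (∀ n ∈ N, ∀ x ∈ X, ⁅n, x⁆ ∈ Y) →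
      ∃ H : Subgroup G, H.Normal ∧ H.FiniteIndex ∧ ∃ c' k', ∀ x ∈ X,
        UP (H.lowerCentralSeries c') Y k' x := by
  obtain ⟨e, he, c₀, k₀, hg⟩ := glaw_rel hF
  refine hnc.induction _ ?_
  intro N hN hDN ih X Y hX hY hYX hab hNX
  by_cases hA : ∃ W' : Subgroup G, W'.Normal ∧ N < W' ∧ ∃ k₁, ∀ x ∈ X, UP W' Y k₁ x
  · obtain ⟨W', hW', hlt, k₁, hk₁⟩ := hA
    have key : ∀ j, ∃ H : Subgroup G, H.Normal ∧ H.FiniteIndex ∧ ∃ c' k', ∀ x ∈ X ⊓ upz W' Y j,
        UP (H.lowerCentralSeries c') Y k' x := by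
      intro j
      induction j with
      | zero => exact ⟨⊤, inferInstance, inferInstance, 0, 0, fun x hx => mem_upz.1 hx.2⟩
      | succ j ihj =>
        obtain ⟨H₁, hH₁, hf₁, c₁, n₁, h₁⟩ := ihj
        obtain ⟨H₂, hH₂, hf₂, c₂, n₂, h₂⟩ := ih W' hW' hlt (X ⊓ upz W' Y (j + 1))
          (X ⊓ upz W' Y j) inferInstance inferInstance
          (fun x hx => ⟨hx.1, mem_upz.2 (mem_upz.1 hx.2).succ⟩)
          (fun a ha b hb => ⟨hYX (hab a ha.1 b hb.1),
            mem_upz.2 (UP.of_le (n := 0) (hab a ha.1 b hb.1) (Nat.zero_le j))⟩)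
          fun w hw x hx => ⟨comm_mem_right w hx.1, mem_upz.2 (mem_upz.1 hx.2 w hw)⟩
        refine ⟨H₁ ⊓ H₂, inferInstance, inferInstance, max c₁ c₂, n₁ + n₂, fun x hx => ?_⟩
        refine UP.trans (Y' := X ⊓ upz W' Y j) (fun y hy => (h₁ y hy).mono ?_ le_rfl)
          ((h₂ x hx).mono ?_ le_rfl)
        · exact (Subgroup.lowerCentralSeries_antitone _ (le_max_left _ _)).trans
            (lcs_mono inf_le_left _)
        · exact (Subgroup.lowerCentralSeries_antitone _ (le_max_right _ _)).trans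
            (lcs_mono inf_le_right _)
    obtain ⟨H, hH, hf, c', k', h⟩ := key k₁
    exact ⟨H, hH, hf, c', k', fun x hx => h x ⟨hx, mem_upz.2 (hk₁ x hx)⟩⟩
  have hs := QuotientGroup.mk'_surjective N
  obtain ⟨H', hH', hHf', c', hc'⟩ := virt_nil hF c k (G ⧸ N) inferInstance (hV.quot N) (by
    rw [← map_lcs_top _ hs, ← map_lowerCentralSeries, map_le_iff_le_comap, MonoidHom.comap_bot,
      QuotientGroup.ker_mk']
    exact hD.trans hDN) (by
    have hAab : ∀ a ∈ (⊤ : Subgroup (G ⧸ N)).lowerCentralSeries c ⊓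
        upz ((⊤ : Subgroup (G ⧸ N)).lowerCentralSeries c) ⊥ 1,
        ∀ b ∈ (⊤ : Subgroup (G ⧸ N)).lowerCentralSeries c ⊓
        upz ((⊤ : Subgroup (G ⧸ N)).lowerCentralSeries c) ⊥ 1, a * b = b * a := fun a ha b hb =>
      commutatorElement_eq_one_iff_mul_comm.1 (mem_bot.1 (mem_upz.1 hb.2 a ha.1))
    refine Uprime inferInstance c _ hAab (fun W hWn hW t ht => ?_) _ inferInstance
      le_rfl _ inferInstance le_rfl fun a ha b hb => ?_
    · have hWab : ∀ a ∈ W, ∀ b ∈ W, a * b = b * a := fun a ha b hb => hAab a (hW ha) b (hW hb)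
      obtain ⟨t, rfl⟩ := hs t
      refine ⟨e, he, c₀, fun w hw => ?_⟩
      haveI : (EnImg W hWab (QuotientGroup.mk' N t ^ e) c₀).Normal := ⟨by
        rintro _ ⟨a, ha, rfl⟩ g
        exact ⟨_, hWn.conj_mem a ha g, En_conj (pow_central ht e) c₀ ha g⟩⟩
      by_contra hne
      refine hA ⟨(EnImg W hWab (QuotientGroup.mk' N t ^ e) c₀).comap (QuotientGroup.mk' N),
        inferInstance, lt_of_le_of_ne (fun x hx => ?_) fun h => hne ?_, k₀,
        hg G hV X Y (W.comap (QuotientGroup.mk' N)) _ hX hY inferInstance hab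
          (fun a ha b hb => hNX _ ((comm_mem_iff N a b).2 (hWab _ ha _ hb))) t ?_⟩
      · have h1 : QuotientGroup.mk' N x = 1 := (QuotientGroup.eq_one_iff x).2 hx
        rw [mem_comap, h1]
        exact one_mem _
      · obtain ⟨x, hx⟩ := hs (En (QuotientGroup.mk' N t ^ e) c₀ w)
        have : x ∈ N := h ▸ ⟨w, hw, hx.symm⟩
        rw [← hx]
        exact (QuotientGroup.eq_one_iff x).2 this
      · rintro w' ⟨a, ha, hw'⟩
        obtain ⟨a, rfl⟩ := hs a
        refine ⟨a, ha, hNX _ ?_⟩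
        rw [← map_pow, ← map_En] at hw'
        exact QuotientGroup.eq.1 hw'
    · exact (commutatorElement_eq_one_iff_mul_comm.1 (mem_bot.1 (mem_upz.1 hb.2 a ha))).symm)
  haveI := finiteIndex_comap _ hs H'
  refine ⟨H'.comap (QuotientGroup.mk' N), inferInstance, inferInstance, c', 1,
    fun x hx g hg => hNX g ?_ x hx⟩
  rw [← QuotientGroup.ker_mk' N, MonoidHom.mem_ker]
  refine mem_bot.1 (hc' (lcs_mono (map_comap_le (QuotientGroup.mk' N) H') c' ?_))
  rw [← map_lowerCentralSeries]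
  exact mem_map_of_mem _ hg

/-- The group has a metanilpotent normal subgroup of finite index. -/
def VM (G : Type) [Group G] : Prop :=
  ∃ H : Subgroup G, H.Normal ∧ H.FiniteIndex ∧ ∃ c k,
    (H.lowerCentralSeries c).lowerCentralSeries k ≤ ⊥

theorem vm_of_sub (H : Subgroup G) [hH : H.FiniteIndex] (h : VM H) : VM G := by
  obtain ⟨K, _, hK, c, k, h⟩ := h
  haveI : (K.map H.subtype).FiniteIndex :=
    ⟨by rw [index_map_subtype]; exact mul_ne_zero hK.index_ne_zero hH.index_ne_zero⟩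
  refine ⟨(K.map H.subtype).normalCore, inferInstance, inferInstance, c, k,
    (lcs_mono (lcs_mono (normalCore_le _) c) k).trans ?_⟩
  rw [← map_lowerCentralSeries, ← map_lowerCentralSeries, le_bot_iff.1 h, Subgroup.map_bot]

theorem vm (hF : FewV L) (d : ℕ) : ∀ (G : Type) [Group G], Group.FG G → InV L G →
    derivedSeries G d = ⊥ → VM G := by
  induction d with
  | zero => exact fun G _ _ _ h => ⟨⊤, inferInstance, inferInstance, 0, 0, h.le⟩
  | succ d ih =>
    intro G _ hfg hV h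
    set D := derivedSeries G d with hD
    have hs := QuotientGroup.mk'_surjective D
    obtain ⟨H', _, hHf', c, k, hk⟩ := ih (G ⧸ D) inferInstance (hV.quot D) (by
      rw [← map_derivedSeries_eq hs, Subgroup.map_eq_bot_iff, QuotientGroup.ker_mk'])
    haveI := finiteIndex_comap _ hs H'
    refine vm_of_sub (H'.comap (QuotientGroup.mk' D)) ?_
    set H := H'.comap (QuotientGroup.mk' D) with hH
    have hHV := hV.sub H
    have h1 : ((⊤ : Subgroup H).lowerCentralSeries c).lowerCentralSeries k ≤ D.subgroupOf H := by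
      intro x hx
      have h2 := mem_map_of_mem ((QuotientGroup.mk' D).comp H.subtype) hx
      rw [map_lowerCentralSeries, map_lowerCentralSeries] at h2
      have h3 := hk (lcs_mono (lcs_mono (map_le_iff_le_comap.2 fun y _ => y.2) c) k h2)
      exact (QuotientGroup.eq_one_iff (x : G)).1 (mem_bot.1 h3)
    have hs' := QuotientGroup.mk'_surjective (D.subgroupOf H)
    have h2 := NC_comap _ hs' (meta_nc hF (G := H ⧸ D.subgroupOf H) inferInstance (hHV.quot _) c k
      (by rwa [← map_lcs_top _ hs', ← map_lowerCentralSeries, map_le_iff_le_comap,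
        MonoidHom.comap_bot, QuotientGroup.ker_mk']))
    rw [QuotientGroup.ker_mk', comap_top] at h2
    have h3 : ∀ a ∈ D.subgroupOf H, ∀ b ∈ D.subgroupOf H, ⁅a, b⁆ ∈ (⊥ : Subgroup H) := by
      intro a ha b hb
      have : ⁅(a : G), (b : G)⁆ ∈ derivedSeries G (d + 1) := commutator_mem_commutator ha hb
      rw [h, mem_bot] at this
      exact mem_bot.2 (Subtype.ext this)
    obtain ⟨K, hK, hKf, c', k', h4⟩ := claimZ hF inferInstance hHV c k _ h1 h2 _ inferInstance
      le_rfl _ ⊥ inferInstance inferInstance bot_le h3 h3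
    refine ⟨K, hK, hKf, max c c', k + k', lcs_le_of_UP fun x hx => (h4 x (h1 (lcs_mono ?_ k
      hx))).mono (Subgroup.lowerCentralSeries_antitone _ (le_max_right _ _)) le_rfl⟩
    exact (Subgroup.lowerCentralSeries_antitone _ (le_max_left _ _)).trans (lcs_mono le_top _)

theorem nc_of_vm (hF : FewV L) (hfg : Group.FG G) (hV : InV L G) (h : VM G) :
    NC (⊥ : Subgroup G) ⊤ := by
  obtain ⟨H, hH, hHf, c, k, h⟩ := h
  have h1 := meta_nc hF (G := H) inferInstance (hV.sub H) c k (by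
    rw [le_bot_iff, ← map_subtype_inj, map_lowerCentralSeries, top_subtype_lowerCentralSeries,
      Subgroup.map_bot, le_bot_iff.1 h])
  refine NC.trans (E := H) (fun f hf hN _ h2 => ?_) ?_ bot_le le_top
  · obtain ⟨n, hn⟩ := h1 (fun n => (f n).subgroupOf H) (fun i j hij => comap_mono (hf hij))
      (fun n => by haveI := hN n; infer_instance) (fun _ => bot_le) fun _ => le_top
    refine ⟨n, fun m hm => ?_⟩
    rw [← map_subgroupOf_eq_of_le (h2 m), ← map_subgroupOf_eq_of_le (h2 n)]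
    exact congrArg _ (hn m hm)
  · have h3 : NC (⊥ : Subgroup (G ⧸ H)) ⊤ := fun f hf _ _ _ => by
      obtain ⟨n, hn⟩ := WellFoundedGT.monotone_chain_condition ⟨f, hf⟩
      exact ⟨n, fun m hm => (hn m hm).symm⟩
    have := NC_comap _ (QuotientGroup.mk'_surjective H) h3
    rwa [QuotientGroup.ker_mk', comap_top] at this

theorem hopf_of_nc (h : NC (⊥ : Subgroup G) ⊤) (φ : G →* G) (hφ : Surjective φ) : Injective φ := by
  let ψ : Monoid.End G := φ
  have hs : ∀ n : ℕ, Surjective (ψ ^ n : Monoid.End G) := fun n => by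
    rw [Monoid.End.coe_pow]; exact hφ.iterate n
  obtain ⟨n, hn⟩ := h (fun n => MonoidHom.ker (ψ ^ n : Monoid.End G))
    (monotone_nat_of_le_succ fun n x hx => by
      rw [MonoidHom.mem_ker] at hx ⊢
      rw [pow_succ']
      exact (congrArg ψ hx).trans (map_one ψ))
    (fun n => inferInstance) (fun _ => bot_le) fun _ => le_top
  rw [injective_iff_map_eq_one]
  intro x hx
  obtain ⟨y, rfl⟩ := hs n x
  have : y ∈ MonoidHom.ker (ψ ^ (n + 1) : Monoid.End G) := by
    rw [MonoidHom.mem_ker, pow_succ']; exact hx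
  rw [hn (n + 1) (Nat.le_succ n)] at this
  exact this

end Pool.Agent.P.MP_ecb9b3_al
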