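import Mathlib

/-! Upper series relative to a pair of subgroups, chain conditions on normal subgroups and
finitely generated nilpotent quotients. -/

namespace Pool.Agent.P.MP_ecb9b3_al

open Subgroup
open scoped commutatorElement

set_option maxHeartbeats 400000

variable {G : Type} [Group G]

/-- All `n`-fold commutators of `x` with elements of `H` lie in `Y`. -/
def UP (H Y : Subgroup G) : ℕ → G → Prop
  | 0, x => x ∈ Y
  | n + 1, x => ∀ h ∈ H, UP H Y n ⁅h, x⁆

theorem comm_mem_iff (N : Subgroup G) [N.Normal] (a b : G) :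
    ⁅a, b⁆ ∈ N ↔ Commute (QuotientGroup.mk' N a) (QuotientGroup.mk' N b) := by
  rw [← commutatorElement_eq_one_iff_commute, ← map_commutatorElement, ← MonoidHom.mem_ker,
    QuotientGroup.ker_mk']

theorem exists_up (H Y : Subgroup G) [hH : H.Normal] [hY : Y.Normal] (n : ℕ) :
    ∃ U : Subgroup G, U.Normal ∧ ∀ x, x ∈ U ↔ UP H Y n x := by
  induction n with
  | zero => exact ⟨Y, hY, fun x => Iff.rfl⟩
  | succ n ih =>
    obtain ⟨U, hU, hm⟩ := ih
    haveI : (H.map (QuotientGroup.mk' U)).Normal := hH.map _ (QuotientGroup.mk'_surjective U)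
    refine ⟨comap (QuotientGroup.mk' U) (centralizer (H.map (QuotientGroup.mk' U))),
      inferInstance, fun x => ?_⟩
    simp only [UP, ← hm, comm_mem_iff, mem_comap, mem_centralizer_iff]
    constructor
    · intro h a ha; exact h _ (mem_map_of_mem _ ha)
    · rintro h _ ⟨a, ha, rfl⟩; exact h a ha

/-- The subgroup of elements satisfying `UP H Y n`. -/
noncomputable def upz (H Y : Subgroup G) [H.Normal] [Y.Normal] (n : ℕ) : Subgroup G :=
  (exists_up H Y n).choose

instance upz_normal (H Y : Subgroup G) [H.Normal] [Y.Normal] (n : ℕ) : (upz H Y n).Normal :=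
  (exists_up H Y n).choose_spec.1

theorem mem_upz {H Y : Subgroup G} [H.Normal] [Y.Normal] {n : ℕ} {x : G} :
    x ∈ upz H Y n ↔ UP H Y n x :=
  (exists_up H Y n).choose_spec.2 x

theorem UP.mono {H H' Y Y' : Subgroup G} (hH : H' ≤ H) (hY : Y ≤ Y') :
    ∀ {n : ℕ} {x : G}, UP H Y n x → UP H' Y' n x
  | 0, _, h => hY h
  | _ + 1, _, h => fun a ha => UP.mono hH hY (h a (hH ha))

theorem UP.trans {H Y Y' : Subgroup G} {m : ℕ} (hY : ∀ y ∈ Y', UP H Y m y) :
    ∀ {n : ℕ} {x : G}, UP H Y' n x → UP H Y (m + n) x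
  | 0, x, h => hY x h
  | _ + 1, _, h => fun a ha => UP.trans hY (h a ha)

theorem comm_mem_right {Y : Subgroup G} [hY : Y.Normal] (h : G) {y : G} (hy : y ∈ Y) :
    ⁅h, y⁆ ∈ Y := by
  rw [commutatorElement_def]
  exact mul_mem (hY.conj_mem y hy h) (inv_mem hy)

theorem comm_mem_swap {Y : Subgroup G} {a b : G} (h : ⁅a, b⁆ ∈ Y) : ⁅b, a⁆ ∈ Y := by
  rw [← commutatorElement_inv]; exact inv_mem h

theorem UP.succ {H Y : Subgroup G} [Y.Normal] {n : ℕ} {x : G} (h : UP H Y n x) :
    UP H Y (n + 1) x := by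
  rw [add_comm]
  exact UP.trans (Y' := Y) (m := 1) (fun y hy a _ => comm_mem_right a hy) h

theorem UP.of_le {H Y : Subgroup G} [Y.Normal] {n m : ℕ} {x : G} (h : UP H Y n x) (hnm : n ≤ m) :
    UP H Y m x := by
  induction hnm with
  | refl => exact h
  | step _ ih => exact ih.succ

theorem lcs_le_of_UP {H Y : Subgroup G} [H.Normal] [Y.Normal] {n : ℕ} :
    ∀ {c : ℕ}, (∀ x ∈ H.lowerCentralSeries c, UP H Y n x) → H.lowerCentralSeries (c + n) ≤ Y := by
  induction n with
  | zero => intro c h x hx; exact h x hx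
  | succ n ih =>
    intro c h
    rw [show c + (n + 1) = (c + 1) + n by omega]
    refine ih fun x hx => mem_upz.1 ?_
    refine (commutator_le.2 fun a ha b hb => ?_) hx
    exact comm_mem_swap (mem_upz.2 (h a ha b hb))

theorem UP_of_lcs {H Y : Subgroup G} {n : ℕ} :
    ∀ {c : ℕ} {x : G}, H.lowerCentralSeries (c + n) ≤ Y → x ∈ H.lowerCentralSeries c →
      UP H Y n x := by
  induction n with
  | zero => intro c x h hx; exact h hx
  | succ n ih =>
    intro c x h hx a ha
    refine ih (c := c + 1) (by rwa [show c + 1 + n = c + (n + 1) by omega]) ?_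
    exact comm_mem_swap (commutator_mem_commutator hx ha)

theorem UP_map {G' : Type} [Group G'] (f : G →* G') {H : Subgroup G} {Y : Subgroup G'} :
    ∀ {n : ℕ} {x : G}, UP (H.map f) Y n (f x) ↔ UP H (Y.comap f) n x
  | 0, _ => Iff.rfl
  | n + 1, x => by
    constructor
    · intro h a ha
      rw [← UP_map f, map_commutatorElement]
      exact h _ (mem_map_of_mem _ ha)
    · rintro h _ ⟨a, ha, rfl⟩
      rw [← map_commutatorElement, UP_map f]
      exact h a ha

instance lcs_normal (H : Subgroup G) [H.Normal] (n : ℕ) : (H.lowerCentralSeries n).Normal := by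
  induction n with
  | zero => simpa
  | succ n _ => rw [Subgroup.lowerCentralSeries_succ]; infer_instance

theorem lcs_mono {H K : Subgroup G} (h : H ≤ K) (n : ℕ) :
    H.lowerCentralSeries n ≤ K.lowerCentralSeries n := by
  induction n with
  | zero => simpa
  | succ n ih => exact commutator_mono ih h

theorem lcs_le (H : Subgroup G) (n : ℕ) : H.lowerCentralSeries n ≤ H :=
  H.lowerCentralSeries_antitone (Nat.zero_le n)

/-- The ascending chain condition for normal subgroups between `D` and `E`. -/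
def NC (D E : Subgroup G) : Prop :=
  ∀ f : ℕ → Subgroup G, Monotone f → (∀ n, (f n).Normal) → (∀ n, D ≤ f n) → (∀ n, f n ≤ E) →
    ∃ n, ∀ m, n ≤ m → f m = f n

theorem NC.trans {D E F : Subgroup G} [hE : E.Normal] (h1 : NC D E) (h2 : NC E F) (hDE : D ≤ E)
    (hEF : E ≤ F) : NC D F := by
  intro f hf hN hD hF
  obtain ⟨a, ha⟩ := h1 (fun n => f n ⊓ E) (fun i j h => inf_le_inf_right _ (hf h))
    (fun n => by haveI := hN n; infer_instance) (fun n => le_inf (hD n) hDE) fun n => inf_le_right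
  obtain ⟨b, hb⟩ := h2 (fun n => f n ⊔ E) (fun i j h => sup_le_sup_right (hf h) _)
    (fun n => by haveI := hN n; infer_instance) (fun n => le_sup_right)
    fun n => sup_le (hF n) hEF
  refine ⟨max a b, fun m hm => le_antisymm (fun x hx => ?_) (hf hm)⟩
  have h3 : f m ⊓ E = f (max a b) ⊓ E :=
    (ha m ((le_max_left _ _).trans hm)).trans (ha _ (le_max_left _ _)).symm
  have h4 : f m ⊔ E = f (max a b) ⊔ E :=
    (hb m ((le_max_right _ _).trans hm)).trans (hb _ (le_max_right _ _)).symm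
  have h5 : x ∈ f (max a b) ⊔ E := h4 ▸ mem_sup_left hx
  obtain ⟨y, hy, e, he, rfl⟩ := mem_sup_of_normal_right.1 h5
  have h6 : e ∈ f m ⊓ E := ⟨by simpa using mul_mem (inv_mem (hf hm hy)) hx, he⟩
  rw [h3] at h6
  exact mul_mem hy h6.1

theorem NC.induction {D : Subgroup G} (h : NC D ⊤) (P : Subgroup G → Prop)
    (hP : ∀ N, N.Normal → D ≤ N → (∀ N', N'.Normal → N < N' → P N') → P N) :
    ∀ N, N.Normal → D ≤ N → P N := by
  have hwf : WellFoundedGT {N : Subgroup G // N.Normal ∧ D ≤ N} := by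
    rw [wellFoundedGT_iff_monotone_chain_condition]
    intro a
    obtain ⟨n, hn⟩ := h (fun n => (a n).1) (fun i j hij => a.monotone hij) (fun n => (a n).2.1)
      (fun n => (a n).2.2) fun n => le_top
    exact ⟨n, fun m hm => Subtype.ext (hn m hm).symm⟩
  intro N hN hD
  refine hwf.wf.induction (C := fun N => P N.1) ⟨N, hN, hD⟩ ?_
  intro N ih
  exact hP N.1 N.2.1 N.2.2 fun N' hN' hlt => ih ⟨N', hN', N.2.2.trans hlt.le⟩ hlt

theorem NC.mono {D D' E E' : Subgroup G} (h : NC D E) (hD : D ≤ D') (hE : E' ≤ E) : NC D' E' :=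
  fun f hf hN h1 h2 => h f hf hN (fun n => hD.trans (h1 n)) fun n => (h2 n).trans hE

/-- `N` is reached from `K` by adjoining finitely many elements, each central modulo the
previous term. -/
inductive Ch (K : Subgroup G) : Subgroup G → Prop
  | base : Ch K K
  | step (N : Subgroup G) (t : G) : Ch K N → N.Normal → (∀ g, ⁅t, g⁆ ∈ N) →
      Ch K (N ⊔ zpowers t)

theorem zpow_central {N : Subgroup G} [N.Normal] {t : G} (ht : ∀ g, ⁅t, g⁆ ∈ N) (k : ℤ) (g : G) :
    ⁅t ^ k, g⁆ ∈ N := by
  rw [comm_mem_iff, map_zpow]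
  exact ((comm_mem_iff N t g).1 (ht g)).zpow_left k

theorem pow_central {N : Subgroup G} [N.Normal] {t : G} (ht : ∀ g, ⁅t, g⁆ ∈ N) (k : ℕ) (g : G) :
    ⁅t ^ k, g⁆ ∈ N := by
  simpa using zpow_central ht k g

theorem mem_sup_zpowers {N : Subgroup G} [N.Normal] {t x : G} :
    x ∈ N ⊔ zpowers t ↔ ∃ n ∈ N, ∃ k : ℤ, n * t ^ k = x := by
  rw [mem_sup_of_normal_left]
  constructor
  · rintro ⟨n, hn, _, ⟨k, rfl⟩, rfl⟩; exact ⟨n, hn, k, rfl⟩
  · rintro ⟨n, hn, k, rfl⟩; exact ⟨n, hn, _, ⟨k, rfl⟩, rfl⟩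

theorem normal_sup_zpowers {N : Subgroup G} [hN : N.Normal] {t : G} (ht : ∀ g, ⁅t, g⁆ ∈ N) :
    (N ⊔ zpowers t).Normal := by
  refine ⟨fun x hx g => ?_⟩
  obtain ⟨n, hn, k, rfl⟩ := mem_sup_zpowers.1 hx
  refine mem_sup_zpowers.2 ⟨g * n * g⁻¹ * ⁅g, t ^ k⁆,
    mul_mem (hN.conj_mem n hn g) (comm_mem_swap (zpow_central ht k g)), k, ?_⟩
  rw [commutatorElement_def]; group

theorem Ch.le {K N : Subgroup G} (h : Ch K N) : K ≤ N := by
  induction h with
  | base => exact le_rfl
  | step N t _ _ _ ih => exact ih.trans le_sup_left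

theorem Ch.normal {K N : Subgroup G} (h : Ch K N) (hK : K.Normal) : N.Normal := by
  induction h with
  | base => exact hK
  | step N t _ hN ht _ => exact normal_sup_zpowers ht

theorem Ch.trans {K N M : Subgroup G} (h : Ch K N) (h' : Ch N M) : Ch K M := by
  induction h' with
  | base => exact h
  | step N t _ hN ht ih => exact Ch.step N t ih hN ht

theorem ch_closure {K : Subgroup G} (hK : K.Normal) (s : Set G) (hs : s.Finite)
    (h : ∀ t ∈ s, ∀ g, ⁅t, g⁆ ∈ K) : Ch K (K ⊔ closure s) := by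
  induction s, hs using Set.Finite.induction_on with
  | empty => simpa using Ch.base
  | @insert a s _ _ ih =>
    have h1 := ih fun t ht => h t (Set.mem_insert_of_mem _ ht)
    have h2 := Ch.step _ a h1 (h1.normal hK) fun g => mem_sup_left (h a (Set.mem_insert _ _) g)
    rwa [Set.insert_eq, Subgroup.closure_union, ← zpowers_eq_closure, sup_comm (zpowers a), ← sup_assoc]

theorem central_of_gens {S : Set G} (hS : closure S = ⊤) {N : Subgroup G} [N.Normal] {x : G}
    (h : ∀ s ∈ S, ⁅x, s⁆ ∈ N) (g : G) : ⁅x, g⁆ ∈ N := by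
  have hg : g ∈ closure S := hS ▸ mem_top g
  rw [comm_mem_iff]
  induction hg using closure_induction with
  | mem s hs => exact (comm_mem_iff N x s).1 (h s hs)
  | one => simp
  | mul a b _ _ ha hb => rw [map_mul]; exact ha.mul_right hb
  | inv a _ ha => rw [map_inv]; exact ha.inv_right

theorem lcs_nfg (hfg : Group.FG G) (n : ℕ) :
    ∃ s : Set G, s.Finite ∧ (⊤ : Subgroup G).lowerCentralSeries n = normalClosure s := by
  obtain ⟨S, hS, hfin⟩ := Group.fg_iff.1 hfg
  induction n with
  | zero =>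
    refine ⟨S, hfin, le_antisymm ?_ le_top⟩
    rw [Subgroup.lowerCentralSeries_zero, ← hS]
    exact closure_le_normalClosure
  | succ n ih =>
    obtain ⟨s, hs, h⟩ := ih
    refine ⟨Set.image2 (fun a b => ⁅a, b⁆) s S, hs.image2 _ hfin, le_antisymm ?_ ?_⟩
    · rw [Subgroup.lowerCentralSeries_succ, h, commutator_le]
      intro a ha b _
      have : normalClosure s ≤ upz ⊤ (normalClosure (Set.image2 (fun a b => ⁅a, b⁆) s S)) 1 := by
        refine normalClosure_le_normal fun x hx => mem_upz.2 fun g _ => ?_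
        refine comm_mem_swap (central_of_gens hS (fun y hy => ?_) g)
        exact subset_normalClosure ⟨x, hx, y, hy, rfl⟩
      exact comm_mem_swap (mem_upz.1 (this ha) b (mem_top b))
    · refine normalClosure_le_normal ?_
      rintro _ ⟨a, ha, b, _, rfl⟩
      exact commutator_mem_commutator (h ▸ subset_normalClosure ha) (mem_top b)

theorem ch_top (hfg : Group.FG G) (c : ℕ) : ∀ K : Subgroup G, K.Normal →
    (⊤ : Subgroup G).lowerCentralSeries c ≤ K → Ch K ⊤ := by
  induction c with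
  | zero =>
    intro K _ h
    have : K = ⊤ := top_le_iff.1 h
    subst this
    exact Ch.base
  | succ c ih =>
    intro K hK h
    obtain ⟨s, hs, hc⟩ := lcs_nfg hfg c
    have h1 := ch_closure hK s hs fun t ht g =>
      h (commutator_mem_commutator (hc ▸ subset_normalClosure ht) (mem_top g))
    haveI := h1.normal hK
    refine h1.trans (ih _ inferInstance ?_)
    rw [hc]
    exact normalClosure_le_normal fun x hx => mem_sup_right (subset_closure hx)

theorem Ch.nc {K N : Subgroup G} (h : Ch K N) : NC K N := by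
  induction h with
  | base => exact fun f _ _ h1 h2 => ⟨0, fun m _ =>
      (le_antisymm (h2 m) (h1 m)).trans (le_antisymm (h2 0) (h1 0)).symm⟩
  | step N t hc hN ht ih =>
    refine ih.trans ?_ hc.le le_sup_left
    intro f hf _ h1 h2
    let g : ℕ →o Ideal ℤ := ⟨fun n => AddSubgroup.toIntSubmodule
      (AddSubgroup.comap (zmultiplesHom (Additive G) (Additive.ofMul t)) (f n).toAddSubgroup),
      fun i j hij k hk => hf hij hk⟩
    have hg : ∀ n (k : ℤ), k ∈ g n ↔ t ^ k ∈ f n := fun n k => Iff.rfl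
    obtain ⟨n, hn⟩ := monotone_stabilizes_iff_noetherian.2 (inferInstance : IsNoetherian ℤ ℤ) g
    refine ⟨n, fun m hm => le_antisymm (fun x hx => ?_) (hf hm)⟩
    obtain ⟨a, ha, k, rfl⟩ := mem_sup_zpowers.1 (h2 m hx)
    have : t ^ k ∈ f m := by simpa using mul_mem (inv_mem (h1 m ha)) hx
    rw [← hg, ← hn m hm, hg] at this
    exact mul_mem (h1 n ha) this

theorem nc_lcs (hfg : Group.FG G) (c : ℕ) : NC ((⊤ : Subgroup G).lowerCentralSeries c) ⊤ :=
  (ch_top hfg c _ inferInstance le_rfl).nc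

theorem comm_pow_right {s x : G} (h : Commute ⁅s, x⁆ x) (e : ℕ) : ⁅s, x ^ e⁆ = ⁅s, x⁆ ^ e := by
  have h1 : s * x * s⁻¹ = ⁅s, x⁆ * x := by rw [commutatorElement_def]; group
  rw [commutatorElement_def s (x ^ e), ← conj_pow, h1, h.mul_pow]
  group

theorem Ch.finite {K N : Subgroup G} [K.Normal] (h : Ch K N)
    (ht : ∀ x : G, ∃ e, 0 < e ∧ x ^ e ∈ K) :
    (N.map (QuotientGroup.mk' K) : Set (G ⧸ K)).Finite := by
  induction h with
  | base =>
    rw [(Subgroup.map_eq_bot_iff _).2 (by rw [QuotientGroup.ker_mk'])]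
    simp
  | step N t _ hN _ ih =>
    haveI : (N.map (QuotientGroup.mk' K)).Normal := hN.map _ (QuotientGroup.mk'_surjective K)
    rw [Subgroup.map_sup, normal_mul, MonoidHom.map_zpowers]
    refine ih.mul (IsOfFinOrder.finite_zpowers ?_)
    obtain ⟨e, he, h⟩ := ht t
    refine isOfFinOrder_iff_pow_eq_one.2 ⟨e, he, ?_⟩
    rw [← map_pow, ← MonoidHom.mem_ker, QuotientGroup.ker_mk']
    exact h

theorem lemB (hfg : Group.FG G) (c : ℕ) (K : Subgroup G) [hK : K.Normal]
    (hc : (⊤ : Subgroup G).lowerCentralSeries c ≤ K) (hinf : ¬ K.FiniteIndex) :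
    ∃ z : G, (∀ g, ⁅z, g⁆ ∈ K) ∧ ∀ e, 0 < e → z ^ e ∉ K := by
  by_contra hcon
  push Not at hcon
  obtain ⟨S, hS, hfin⟩ := Group.fg_iff.1 hfg
  have h1 : ∀ i, ∀ x, UP ⊤ K (i + 1) x → ∃ e, 0 < e ∧ UP ⊤ K i (x ^ e) := by
    intro i
    induction i with
    | zero => exact fun x hx => hcon x fun g => comm_mem_swap (hx g (mem_top g))
    | succ i ih =>
      intro x hx
      choose e he he' using fun s => ih _ (hx s (mem_top s))
      refine ⟨∏ s ∈ hfin.toFinset, e s, Finset.prod_pos fun s _ => he s, fun g _ => ?_⟩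
      refine mem_upz.1 (comm_mem_swap (central_of_gens hS (fun s hs => comm_mem_swap ?_) g))
      rw [← QuotientGroup.ker_mk' (upz ⊤ K i), MonoidHom.mem_ker, map_commutatorElement, map_pow,
        comm_pow_right, ← map_commutatorElement, ← map_pow, ← MonoidHom.mem_ker,
        QuotientGroup.ker_mk']
      · obtain ⟨k, hk⟩ := Finset.dvd_prod_of_mem e (hfin.mem_toFinset.2 hs)
        rw [hk, pow_mul]
        exact pow_mem (mem_upz.2 (he' s)) k
      · rw [← map_commutatorElement, ← comm_mem_iff]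
        exact comm_mem_swap (mem_upz.2 (hx s (mem_top s) x (mem_top x)))
  have h2 : ∀ i, ∀ x, UP ⊤ K i x → ∃ e, 0 < e ∧ x ^ e ∈ K := by
    intro i
    induction i with
    | zero => exact fun x hx => ⟨1, one_pos, by rw [pow_one]; exact hx⟩
    | succ i ih =>
      intro x hx
      obtain ⟨e, he, h⟩ := h1 i x hx
      obtain ⟨e', he', h'⟩ := ih _ h
      exact ⟨e * e', Nat.mul_pos he he', by rwa [pow_mul]⟩
  have h3 := (ch_top hfg c K hK hc).finite fun x =>
    h2 c x (UP_of_lcs (c := 0) (by simpa using hc) (mem_top x))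
  rw [map_top_of_surjective _ (QuotientGroup.mk'_surjective K), coe_top, Set.finite_univ_iff] at h3
  exact hinf finiteIndex_of_finite_quotient

/-- Iterated commutator with a fixed element. -/
def En (u : G) (k : ℕ) (x : G) : G := (fun y => ⁅u, y⁆)^[k] x

theorem En_zero (u x : G) : En u 0 x = x := rfl

theorem En_succ (u : G) (k : ℕ) (x : G) : En u (k + 1) x = ⁅u, En u k x⁆ :=
  Function.iterate_succ_apply' _ _ _

theorem En_succ' (u : G) (k : ℕ) (x : G) : En u (k + 1) x = En u k ⁅u, x⁆ := rfl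

theorem En_add (u : G) (k l : ℕ) (x : G) : En u (k + l) x = En u k (En u l x) :=
  Function.iterate_add_apply _ _ _ _

theorem map_En {G' : Type} [Group G'] (f : G →* G') (u : G) (k : ℕ) (x : G) :
    f (En u k x) = En (f u) k (f x) := by
  induction k with
  | zero => rfl
  | succ k ih => rw [En_succ, En_succ, map_commutatorElement, ih]

theorem En_mem {W : Subgroup G} [W.Normal] (u : G) (k : ℕ) {x : G} (hx : x ∈ W) :
    En u k x ∈ W := by
  induction k with
  | zero => exact hx
  | succ k ih => rw [En_succ]; exact comm_mem_right u ih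

theorem En_mul {W : Subgroup G} [hW : W.Normal] (hab : ∀ a ∈ W, ∀ b ∈ W, a * b = b * a) (u : G)
    (k : ℕ) {x y : G} (hx : x ∈ W) (hy : y ∈ W) : En u k (x * y) = En u k x * En u k y := by
  induction k with
  | zero => rfl
  | succ k ih =>
    rw [En_succ, En_succ, En_succ, ih]
    have ha := En_mem u k hx
    have hb := En_mem u k hy
    generalize En u k x = a at *
    generalize En u k y = b at *
    have h1 := hab _ (comm_mem_right u hb) _ (inv_mem ha)
    calc ⁅u, a * b⁆ = u * a * u⁻¹ * (⁅u, b⁆ * a⁻¹) := by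
          simp only [commutatorElement_def]; group
      _ = ⁅u, a⁆ * ⁅u, b⁆ := by rw [h1, commutatorElement_def u a]; group

theorem En_one (u : G) (k : ℕ) : En u k 1 = 1 := by
  induction k with
  | zero => rfl
  | succ k ih => rw [En_succ, ih, commutatorElement_one_right]

theorem En_inv {W : Subgroup G} [hW : W.Normal] (hab : ∀ a ∈ W, ∀ b ∈ W, a * b = b * a) (u : G)
    (k : ℕ) {x : G} (hx : x ∈ W) : En u k x⁻¹ = (En u k x)⁻¹ := by
  rw [eq_inv_iff_mul_eq_one, ← En_mul hab u k (inv_mem hx) hx, inv_mul_cancel, En_one]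

theorem En_conj {W : Subgroup G} [hW : W.Normal] {u : G}
    (hu : ∀ g, ⁅u, g⁆ ∈ centralizer (W : Set G)) (k : ℕ) {x : G} (hx : x ∈ W) (g : G) :
    En u k (g * x * g⁻¹) = g * En u k x * g⁻¹ := by
  induction k with
  | zero => rfl
  | succ k ih =>
    rw [En_succ, En_succ, ih]
    have ha := En_mem u k hx
    generalize En u k x = a at *
    have h1 := (comm_mem_swap (hu g)) _ (hW.conj_mem _ (hW.conj_mem a ha g) u)
    calc ⁅u, g * a * g⁻¹⁆ = (u * (g * a * g⁻¹) * u⁻¹ * ⁅g, u⁆) * ⁅g, u⁆⁻¹ * (g * a⁻¹ * g⁻¹) := by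
          simp only [commutatorElement_def]; group
      _ = g * ⁅u, a⁆ * g⁻¹ := by rw [h1]; simp only [commutatorElement_def]; group

theorem En_comm {W : Subgroup G} [hW : W.Normal] (hab : ∀ a ∈ W, ∀ b ∈ W, a * b = b * a) {u : G}
    (hu : ∀ g, ⁅u, g⁆ ∈ centralizer (W : Set G)) (k : ℕ) {x : G} (hx : x ∈ W) (g : G) :
    En u k ⁅g, x⁆ = ⁅g, En u k x⁆ := by
  rw [commutatorElement_def, En_mul hab u k (hW.conj_mem x hx g) (inv_mem hx), En_conj hu k hx,
    En_inv hab u k hx, commutatorElement_def]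

/-- If every element that is central modulo the centraliser of an invariant subgroup has a power
acting unipotently on it, then a subgroup of finite index acts nilpotently. -/
theorem Uprime (hfg : Group.FG G) (c : ℕ) (A : Subgroup G)
    (hab : ∀ a ∈ A, ∀ b ∈ A, a * b = b * a)
    (hyp : ∀ W : Subgroup G, W.Normal → W ≤ A → ∀ t : G,
      (∀ g, ⁅t, g⁆ ∈ centralizer (W : Set G)) → ∃ e, 0 < e ∧ ∃ k, ∀ w ∈ W, En (t ^ e) k w = 1) :
    ∀ K : Subgroup G, K.Normal → (⊤ : Subgroup G).lowerCentralSeries c ≤ K →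
      ∀ W : Subgroup G, W.Normal → W ≤ A → K ≤ centralizer (W : Set G) →
      ∃ H : Subgroup G, H.Normal ∧ H.FiniteIndex ∧ ∃ n, ∀ w ∈ W, UP H ⊥ n w := by
  refine (nc_lcs hfg c).induction _ ?_
  intro K hK hc ih W hW hWA hKW
  by_cases hfin : K.FiniteIndex
  · refine ⟨K, hK, hfin, 1, fun w hw k hk => ?_⟩
    exact mem_bot.2 (commutatorElement_eq_one_iff_mul_comm.2 (hKW hk w hw).symm)
  obtain ⟨z, hz, hz'⟩ := lemB hfg c K hc hfin
  obtain ⟨e, he, k, hk⟩ := hyp W hW hWA z fun g => hKW (hz g)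
  have hu := pow_central hz e
  have hu' := hz' e he
  generalize z ^ e = u at *
  have habW : ∀ a ∈ W, ∀ b ∈ W, a * b = b * a := fun a ha b hb => hab a (hWA ha) b (hWA hb)
  have hN1 : (W ⊓ centralizer {u}).Normal := by
    refine ⟨fun x hx g => ⟨hW.conj_mem x hx.1 g, ?_⟩⟩
    have h1 := En_conj (fun g => hKW (hu g)) 1 hx.1 g
    have h2 : En u 1 x = 1 :=
      commutatorElement_eq_one_iff_mul_comm.2 (hx.2 u (Set.mem_singleton u))
    rw [h2, mul_one, mul_inv_cancel] at h1
    rintro _ rfl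
    exact commutatorElement_eq_one_iff_mul_comm.1 h1
  obtain ⟨H, hH, hHf, n, hn⟩ := ih (K ⊔ zpowers u) (normal_sup_zpowers hu)
    (lt_of_le_of_ne le_sup_left fun h => hu' (h ▸ mem_sup_right (mem_zpowers u)))
    (W ⊓ centralizer {u}) hN1 (inf_le_left.trans hWA) (by
      refine sup_le (fun x hx w hw => hKW hx w hw.1) ?_
      rw [zpowers_le]
      exact fun w hw => (hw.2 u (Set.mem_singleton u)).symm)
  refine ⟨H, hH, hHf, n * k, fun w hw => ?_⟩
  have key : ∀ i, ∀ w ∈ W, En u i w = 1 → UP H ⊥ (n * i) w := by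
    intro i
    induction i with
    | zero => intro w _ h; exact mem_bot.2 h
    | succ i ihi =>
      have aux : ∀ m, ∀ w ∈ W, UP H ⊥ m (En u i w) → UP H ⊥ (n * i + m) w := by
        intro m
        induction m with
        | zero => exact fun w hw h => ihi w hw (mem_bot.1 h)
        | succ m ihm =>
          intro w hw h a ha
          refine ihm _ (comm_mem_right a hw) ?_
          rw [En_comm habW (fun g => hKW (hu g)) i hw]
          exact h a ha
      intro w hw h
      rw [En_succ] at h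
      refine aux n w hw (hn _ ⟨En_mem u i hw, ?_⟩)
      rintro _ rfl
      exact commutatorElement_eq_one_iff_mul_comm.1 h
  exact key k w hw (hk w hw)

end Pool.Agent.P.MP_ecb9b3_al
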