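import Pool.Agent.P.MP_ecb9b3_al.Defs

/-! Closure properties of varieties, the consequence of smallness we use, and affine groups. -/

namespace Pool.Agent.P.MP_ecb9b3_al

open Function

variable {L : Set (FreeGroup ℕ)}

theorem InV.of_inj {G H : Type} [Group G] [Group H] (f : G →* H) (hf : Injective f)
    (h : InV L H) : InV L G := fun w hw g => hf (by
  have := h w hw (f.comp g)
  simpa using this)

theorem InV.sub {G : Type} [Group G] (h : InV L G) (K : Subgroup G) : InV L K :=
  h.of_inj K.subtype K.subtype_injective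

theorem InV.of_surj {G H : Type} [Group G] [Group H] (f : G →* H) (hf : Surjective f)
    (h : InV L G) : InV L H := by
  intro w hw g
  choose s hs using hf
  have : g = f.comp (FreeGroup.lift fun i => s (g (FreeGroup.of i))) := by
    ext i; simp [hs]
  rw [this, MonoidHom.comp_apply, h w hw, map_one]

theorem InV.quot {G : Type} [Group G] (h : InV L G) (K : Subgroup G) [K.Normal] :
    InV L (G ⧸ K) :=
  h.of_surj (QuotientGroup.mk' K) (QuotientGroup.mk'_surjective K)

theorem InV.pi {ι : Type} {G : ι → Type} [∀ i, Group (G i)] (h : ∀ i, InV L (G i)) :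
    InV L (∀ i, G i) := by
  intro w hw g
  funext i
  exact h i w hw ((Pi.evalMonoidHom G i).comp g)

theorem InV.prod {G H : Type} [Group G] [Group H] (h : InV L G) (h' : InV L H) :
    InV L (G × H) := by
  intro w hw g
  ext
  · exact h w hw ((MonoidHom.fst G H).comp g)
  · exact h' w hw ((MonoidHom.snd G H).comp g)

/-- No finitely generated group of the variety has an injective family of normal subgroups
indexed by the subsets of `ℕ`. -/
def FewV (L : Set (FreeGroup ℕ)) : Prop :=
  ∀ (G : Type) [Group G], Group.FG G → InV L G → ∀ F : Set ℕ → Subgroup G,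
    (∀ E, (F E).Normal) → ¬ Injective F

theorem iso_equiv : Equivalence (fun G H : FGIn L => Iso G H) :=
  ⟨fun G => by letI := G.grp; exact ⟨MulEquiv.refl _⟩,
   fun {G H} ⟨e⟩ => by letI := G.grp; letI := H.grp; exact ⟨e.symm⟩,
   fun {G H K} ⟨e⟩ ⟨e'⟩ => by letI := G.grp; letI := H.grp; letI := K.grp; exact ⟨e.trans e'⟩⟩

theorem countable_of_fg (G : Type) [Group G] (h : Group.FG G) : Countable G := by
  obtain ⟨S, hS, hfin⟩ := Group.fg_iff.1 h
  haveI := hfin.countable.to_subtype
  have hs : Surjective (FreeGroup.lift (fun x : S => (x : G))) := by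
    rw [← MonoidHom.range_eq_top, FreeGroup.range_lift_eq_closure]
    simpa using hS
  exact hs.countable

theorem countable_hom (G H : Type) [Group G] [Group H] (h : Group.FG G) (h' : Group.FG H) :
    Countable (G →* H) := by
  obtain ⟨S, hS, hfin⟩ := Group.fg_iff.1 h
  haveI := hfin.to_subtype
  haveI := countable_of_fg H h'
  refine Injective.countable (f := fun (f : G →* H) (x : S) => f x) ?_
  intro f g hfg
  refine MonoidHom.eq_of_eqOn_dense hS fun x hx => ?_
  exact congrFun hfg ⟨x, hx⟩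

theorem Small.few (h : Small L) : FewV L := by
  intro G _ hfg hV F hN hinj
  let c : ULift.{1} (Set ℕ) → Quot (fun G H : FGIn L => Iso G H) := fun E =>
    haveI := hN E.down
    Quot.mk _ (FGIn.mk (G ⧸ F E.down) inferInstance (hV.quot _))
  have hfib : ∀ b, Cardinal.mk (c ⁻¹' {b}) ≤ Cardinal.aleph0 := by
    intro b
    obtain ⟨H, rfl⟩ := Quot.exists_rep b
    letI := H.grp
    haveI := countable_hom G H.carrier hfg H.fg
    rw [Cardinal.mk_le_aleph0_iff]
    have key : ∀ E : c ⁻¹' {Quot.mk _ H}, ∃ f : G →* H.carrier, f.ker = F E.1.down := by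
      rintro ⟨E, hE⟩
      haveI := hN E.down
      obtain ⟨e⟩ := (iso_equiv.eqvGen_iff).1 (Quot.eqvGen_exact hE)
      let e' : (G ⧸ F E.down) ≃* H.carrier := e
      refine ⟨e'.toMonoidHom.comp (QuotientGroup.mk' _), ?_⟩
      ext x
      simp [MonoidHom.mem_ker]
    choose φ hφ using key
    refine Injective.countable (f := φ) fun E E' hE => ?_
    have := hφ E
    rw [hE, hφ E'] at this
    exact Subtype.ext (ULift.ext _ _ (hinj this).symm)
  have h1 := Cardinal.mk_le_mk_mul_of_mk_preimage_le c hfib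
  have h2 : Cardinal.mk (ULift.{1} (Set ℕ)) = Cardinal.continuum := by simp
  rw [h2] at h1
  exact absurd h1 (not_le.2 (Cardinal.mul_lt_of_lt Cardinal.aleph0_le_continuum h
    Cardinal.aleph0_lt_continuum))

/-- Independent families give injective families. -/
theorem inj_of_indep {α β : Type*} [CompleteLattice α] [Membership β α]
    (hmem : ∀ (s : Set ℕ) (V : ℕ → α) (y : β), y ∈ (⨅ k ∈ s, V k) ↔ ∀ k ∈ s, y ∈ V k)
    (V : ℕ → α) (y : ℕ → β) (h1 : ∀ k, y k ∉ V k) (h2 : ∀ j k, j ≠ k → y k ∈ V j) :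
    Injective (fun s : Set ℕ => ⨅ k ∈ s, V k) := by
  intro s t hst
  have key : ∀ s : Set ℕ, ∀ k, k ∈ s ↔ y k ∉ (⨅ k ∈ s, V k) := by
    intro s k
    rw [hmem]
    refine ⟨fun hk h => h1 k (h k hk), fun h => ?_⟩
    by_contra hk
    exact h fun j hj => h2 j k (fun e => hk (e ▸ hj))
  ext k
  rw [key s, key t]
  simp only at hst
  rw [hst]

section affine

open Equiv

/-- The group generated by the permutations in `X` and the translations. -/
def Aff {D : Type} [AddCommGroup D] (X : Set (D → D)) : Subgroup (Perm D) :=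
  Subgroup.closure {π | (π : D → D) ∈ X ∨ ∃ d, ∀ x, π x = x + d}

/-- The affine group of `X` lies in the variety. -/
def PA (L : Set (FreeGroup ℕ)) {D : Type} [AddCommGroup D] (X : Set (D → D)) : Prop :=
  InV L (Aff X)

theorem PA.mono {D : Type} [AddCommGroup D] {X X' : Set (D → D)} (h : PA L X)
    (hX : ∀ π : Perm D, (π : D → D) ∈ X' → π ∈ Aff X) : PA L X' := by
  have hle : Aff X' ≤ Aff X := by
    rw [Aff, Subgroup.closure_le]
    rintro π (hπ | hπ)
    · exact hX π hπ
    · exact Subgroup.subset_closure (Or.inr hπ)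
  exact InV.of_inj (Subgroup.inclusion hle) (Subgroup.inclusion_injective hle) h

theorem InV_of_sep {D : Type} (A : Subgroup (Perm D))
    (hsep : ∀ x y : D, x ≠ y → ∃ (D' : Type) (A' : Subgroup (Perm D')) (h : D → D'),
      InV L A' ∧ h x ≠ h y ∧ ∀ π ∈ A, ∃ π' ∈ A', ∀ x, h (π x) = π' (h x)) : InV L A := by
  intro w hw f
  apply Subtype.ext
  ext x
  by_contra hne
  obtain ⟨D', A', h, hV, hxy, hA⟩ := hsep _ _ hne
  choose p hp hp' using hA
  let f' : FreeGroup ℕ →* A' := FreeGroup.lift fun i =>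
    ⟨p _ (f (FreeGroup.of i)).2, hp _ _⟩
  have key : ∀ w : FreeGroup ℕ, ∀ x, h ((f w : Perm D) x) = (f' w : Perm D') (h x) := by
    intro w
    induction w using FreeGroup.induction_on with
    | C1 => simp
    | of i => intro x; simp [f', hp']
    | inv_of i ih =>
      intro x
      have := ih ((f (FreeGroup.of i)⁻¹ : Perm D) x)
      simp only [map_inv, Subgroup.coe_inv, Perm.coe_inv, apply_symm_apply] at this ⊢
      rw [this]; simp
    | mul a b iha ihb => intro x; simp [iha, ihb]
  have := key w x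
  rw [hV w hw f'] at this
  exact hxy (by simpa using this)

theorem clos_lift {D D' : Type} {S : Set (Perm D)} {A' : Subgroup (Perm D')} (h : D → D')
    (hX : ∀ π ∈ S, ∃ π' ∈ A', ∀ x, h (π x) = π' (h x)) :
    ∀ π ∈ Subgroup.closure S, ∃ π' ∈ A', ∀ x, h (π x) = π' (h x) := by
  intro π hπ
  induction hπ using Subgroup.closure_induction with
  | mem π hπ => exact hX π hπ
  | one => exact ⟨1, one_mem _, fun x => rfl⟩
  | mul a b _ _ iha ihb =>
    obtain ⟨a', ha, ha'⟩ := iha
    obtain ⟨b', hb, hb'⟩ := ihb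
    exact ⟨a' * b', mul_mem ha hb, fun x => by simp [ha', hb']⟩
  | inv a _ iha =>
    obtain ⟨a', ha, ha'⟩ := iha
    refine ⟨a'⁻¹, inv_mem ha, fun x => ?_⟩
    have := ha' (a⁻¹ x)
    simp only [Perm.coe_inv, apply_symm_apply] at this ⊢
    rw [this]; simp

theorem aff_lift {D D' : Type} [AddCommGroup D] [AddCommGroup D'] {X : Set (D → D)}
    {X' : Set (D' → D')} (h : D →+ D')
    (hX : ∀ π : Perm D, (π : D → D) ∈ X → ∃ π' ∈ Aff X', ∀ x, h (π x) = π' (h x)) :
    ∀ π ∈ Aff X, ∃ π' ∈ Aff X', ∀ x, h (π x) = π' (h x) := by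
  refine clos_lift h ?_
  rintro π (hπ | ⟨d, hd⟩)
  · exact hX π hπ
  · exact ⟨Equiv.addRight (h d), Subgroup.subset_closure (Or.inr ⟨h d, fun x => rfl⟩),
      fun x => by simp [hd]⟩

/-- Transfer of `PA` along a separating family of equivariant additive maps. -/
theorem PA_of_sep {D : Type} [AddCommGroup D] {X : Set (D → D)}
    (hsep : ∀ x : D, x ≠ 0 → ∃ (D' : Type) (_ : AddCommGroup D') (X' : Set (D' → D'))
      (h : D →+ D'), PA L X' ∧ h x ≠ 0 ∧
      ∀ π : Perm D, (π : D → D) ∈ X → ∃ π' ∈ Aff X', ∀ x, h (π x) = π' (h x)) : PA L X := by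
  refine InV_of_sep _ fun x y hxy => ?_
  obtain ⟨D', _, X', h, hPA, hne, hX⟩ := hsep (x - y) (sub_ne_zero.2 hxy)
  exact ⟨D', Aff X', h, hPA, fun e => hne (by rw [map_sub, e, sub_self]), aff_lift h hX⟩

/-- A group of the variety acting on an abelian group through a faithful embedding of the module
as a normal subgroup gives `PA`. -/
theorem PA_conj {G D : Type} [Group G] [AddCommGroup D] (hG : InV L G)
    (ι : D → G) (hadd : ∀ x y, ι (x + y) = ι x * ι y) (hι : Injective ι) (X : Set (D → D))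
    (hX : ∀ φ ∈ X, ∃ g : G, ∀ x, ι (φ x) = g * ι x * g⁻¹) : PA L X := by
  let θ : G × G →* Perm G := MonoidHom.mk'
    (fun p => (Equiv.mulLeft p.1).trans (Equiv.mulRight p.2⁻¹))
    (fun p q => by ext x; simp [mul_assoc])
  have hθ : ∀ p x, θ p x = p.1 * x * p.2⁻¹ := fun p x => rfl
  have hV : InV L θ.range := InV.of_surj θ.rangeRestrict θ.rangeRestrict_surjective (hG.prod hG)
  refine InV_of_sep _ fun x y hxy => ⟨G, θ.range, ι, hV, fun e => hxy (hι e), clos_lift ι ?_⟩
  rintro π (hπ | ⟨d, hd⟩)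
  · obtain ⟨g, hg⟩ := hX _ hπ
    exact ⟨θ (g, g), ⟨_, rfl⟩, fun x => by rw [hθ, hg]⟩
  · exact ⟨θ (1, (ι d)⁻¹), ⟨_, rfl⟩, fun x => by rw [hθ, hd, hadd]; simp⟩

end affine

end Pool.Agent.P.MP_ecb9b3_al
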