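import Pool.Agent.P.MP_ecb9b3_al.Hall
import Pool.Agent.P.MP_ecb9b3_al.Var

/-! A module that is not finitely generated and has few submodules in its square has a
section that is not finitely generated and is killed by a nonzero scalar. -/

namespace Pool.Agent.P.MP_ecb9b3_al

open Submodule Function

set_option maxHeartbeats 400000

variable {C : Type} [CommRing C] {G : Type} [Group G] {A : Type} [AddCommGroup A] [Module C A]

/-- No injective family, indexed by subsets of `ℕ`, of invariant submodules between `Y × Y` and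
`X × X`. -/
def Few2 (ρ : Representation C G A) (Y X : Submodule C A) : Prop :=
  ∀ F : Set ℕ → Submodule C (A × A), (∀ E g, ∀ p ∈ F E, (ρ g p.1, ρ g p.2) ∈ F E) →
    (∀ E, Y.prod Y ≤ F E) → (∀ E, F E ≤ X.prod X) → ¬ Injective F

/-- The section `X / Y` is finitely generated. -/
def FGo (ρ : Representation C G A) (Y X : Submodule C A) : Prop :=
  ∃ s : Set A, s.Finite ∧ (∀ x ∈ s, x ∈ X) ∧ X ≤ Y ⊔ gen ρ ⊤ s

variable {ρ : Representation C G A}

theorem Few2.mono {Y X Y' X' : Submodule C A} (h : Few2 ρ Y X) (hY : Y ≤ Y') (hX : X' ≤ X) :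
    Few2 ρ Y' X' := fun F h1 h2 h3 =>
  h F h1 (fun E => (prod_mono hY hY).trans (h2 E)) fun E => (h3 E).trans (prod_mono hX hX)

theorem Few2.graph (h : Few2 ρ ⊥ ⊤) (F : Set ℕ → Submodule C (A × A))
    (h1 : ∀ E g, ∀ p ∈ F E, (ρ g p.1, ρ g p.2) ∈ F E) : ¬ Injective F :=
  h F h1 (fun E => by simp) fun E => by simp

theorem Few2.indep (h : Few2 ρ ⊥ ⊤) (V : ℕ → Submodule C A) (hV : ∀ k, Inv ρ ⊤ (V k)) (y : ℕ → A)
    (h1 : ∀ k, y k ∉ V k) (h2 : ∀ j k, j ≠ k → y k ∈ V j) : False := by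
  have hi := inj_of_indep (fun s V y => by simp [mem_iInf]) V y h1 h2
  refine h.graph (fun s => (⨅ k ∈ s, V k).prod ⊤) ?_ ?_
  · intro E g p hp
    simp only [mem_prod, mem_iInf, mem_top, and_true] at hp ⊢
    exact fun k hk => hV k g (Subgroup.mem_top g) _ (hp k hk)
  · intro s t hst
    apply hi
    ext x
    have := SetLike.ext_iff.1 hst (x, 0)
    simpa using this

theorem gen_mono {N : Subgroup G} {s t : Set A} (h : s ⊆ t) : gen ρ N s ≤ gen ρ N t :=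
  gen_le (inv_gen t) fun _ hx => subset_gen (h hx)

theorem FGo.trans {Y X W : Submodule C A} (h1 : FGo ρ Y X) (h2 : FGo ρ X W) (hXW : X ≤ W) :
    FGo ρ Y W := by
  obtain ⟨s, hs, hs1, hs2⟩ := h1
  obtain ⟨t, ht, ht1, ht2⟩ := h2
  refine ⟨s ∪ t, hs.union ht, ?_, ht2.trans (sup_le (hs2.trans (sup_le_sup_left
    (gen_mono Set.subset_union_left) _)) (le_sup_of_le_right (gen_mono Set.subset_union_right)))⟩
  rintro x (hx | hx)
  · exact hXW (hs1 x hx)
  · exact ht1 x hx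

theorem FGo.of_le {Y X : Submodule C A} (h : X ≤ Y) : FGo ρ Y X :=
  ⟨∅, Set.finite_empty, by simp, le_sup_of_le_left h⟩

theorem FGo.sup {X W : Submodule C A} (h1 : FGo ρ ⊥ X) (h2 : FGo ρ ⊥ W) : FGo ρ ⊥ (X ⊔ W) := by
  refine h1.trans ?_ le_sup_left
  obtain ⟨t, ht, ht1, ht2⟩ := h2
  exact ⟨t, ht, fun x hx => mem_sup_right (ht1 x hx),
    sup_le le_sup_left (ht2.trans (sup_le_sup_right bot_le _))⟩

/-- Elements with the multiple by `c` in `Y`. -/
def col (Y : Submodule C A) (c : C) : Submodule C A := Y.comap (LinearMap.lsmul C A c)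

theorem mem_col {Y : Submodule C A} {c : C} {x : A} : x ∈ col Y c ↔ c • x ∈ Y := Iff.rfl

theorem inv_col {Y : Submodule C A} (h : Inv ρ ⊤ Y) (c : C) : Inv ρ ⊤ (col Y c) :=
  fun g hg x hx => by rw [mem_col, ← map_smul]; exact h g hg _ hx

theorem le_col (Y : Submodule C A) (c : C) : Y ≤ col Y c := fun _ hx => smul_mem _ _ hx

theorem mem_of_coprime {Y : Submodule C A} {c d : C} (h : IsCoprime c d) {x : A} (hc : c • x ∈ Y)
    (hd : d • x ∈ Y) : x ∈ Y := by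
  obtain ⟨a, b, hab⟩ := h
  rw [← one_smul C x, ← hab, add_smul, mul_smul, mul_smul]
  exact add_mem (smul_mem _ _ hc) (smul_mem _ _ hd)

/-- Elements with a multiple by a member of the submonoid `M` in `Y`. -/
def sat (Y : Submodule C A) (M : Submonoid C) : Submodule C A where
  carrier := {x | ∃ d ∈ M, d • x ∈ Y}
  zero_mem' := ⟨1, one_mem _, by simp⟩
  add_mem' := by
    rintro x y ⟨d, hd, hx⟩ ⟨d', hd', hy⟩
    refine ⟨d * d', mul_mem hd hd', ?_⟩
    rw [smul_add]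
    exact add_mem (by rw [mul_comm, mul_smul]; exact smul_mem _ _ hx)
      (by rw [mul_smul]; exact smul_mem _ _ hy)
  smul_mem' := by
    rintro c x ⟨d, hd, hx⟩
    exact ⟨d, hd, by rw [smul_comm]; exact smul_mem _ _ hx⟩

theorem inv_sat {Y : Submodule C A} (h : Inv ρ ⊤ Y) (M : Submonoid C) : Inv ρ ⊤ (sat Y M) := by
  rintro g hg x ⟨d, hd, hx⟩
  exact ⟨d, hd, by rw [← map_smul]; exact h g hg _ hx⟩

theorem le_sat (Y : Submodule C A) (M : Submonoid C) : Y ≤ sat Y M :=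
  fun x hx => ⟨1, one_mem _, by simpa using hx⟩

theorem sat_sat {Y : Submodule C A} {M : Submonoid C} {x : A} {d : C} (hd : d ∈ M)
    (h : d • x ∈ sat Y M) : x ∈ sat Y M := by
  obtain ⟨d', hd', hx⟩ := h
  exact ⟨d' * d, mul_mem hd' hd, by rwa [mul_smul]⟩

/-- The submonoid of elements coprime to `c`. -/
def cop (c : C) : Submonoid C where
  carrier := {d | IsCoprime d c}
  one_mem' := isCoprime_one_left
  mul_mem' := IsCoprime.mul_left

open Classical in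
/-- Truncated power series in `m` with exponents in `E`. -/
noncomputable def ps (m : C) (E : Set ℕ) (n : ℕ) : C :=
  ∑ i ∈ Finset.range n, if i ∈ E then m ^ i else 0

theorem ps_dvd (m : C) (E : Set ℕ) {n n' : ℕ} (h : n ≤ n') : m ^ n ∣ ps m E n' - ps m E n := by
  induction h with
  | refl => simp
  | @step k hk ih =>
    rw [ps, Finset.sum_range_succ, ← ps, add_sub_right_comm]
    refine dvd_add ih ?_
    split_ifs
    · exact pow_dvd_pow m hk
    · exact dvd_zero _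

/-- Graph of the endomorphism given by the power series with exponents in `E`. -/
def Gam (Y : Submodule C A) (m : C) (E : Set ℕ) : Submodule C (A × A) where
  carrier := {p | ∃ n₀, ∀ n, n₀ ≤ n → p.2 - ps m E n • p.1 ∈ Y}
  zero_mem' := ⟨0, by simp⟩
  add_mem' := by
    rintro p q ⟨a, ha⟩ ⟨b, hb⟩
    refine ⟨max a b, fun n hn => ?_⟩
    convert add_mem (ha n (le_of_max_le_left hn)) (hb n (le_of_max_le_right hn)) using 1
    simp only [Prod.snd_add, Prod.fst_add, smul_add]; abel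
  smul_mem' := by
    rintro c p ⟨a, ha⟩
    refine ⟨a, fun n hn => ?_⟩
    convert smul_mem _ c (ha n hn) using 1
    simp only [Prod.smul_snd, Prod.smul_fst, smul_sub, smul_comm c]

theorem Gam_sep {Y : Submodule C A} {m : C} {E F : Set ℕ} {k : ℕ}
    (hlt : ∀ i < k, i ∈ E ↔ i ∈ F) (hE : k ∈ E) (hF : k ∉ F) (h : Gam Y m E = Gam Y m F)
    {x : A} {n : ℕ} (hx : m ^ n • x ∈ Y) : m ^ k • x ∈ Y := by
  have h1 : ∀ n', n ≤ n' → ps m E n • x - ps m E n' • x ∈ Y := by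
    intro n' hn
    obtain ⟨v, hv⟩ := ps_dvd m E hn
    rw [← neg_sub, ← sub_smul, hv, mul_comm, mul_smul]
    exact neg_mem (smul_mem _ _ hx)
  have h2 : (x, ps m E n • x) ∈ Gam Y m E := ⟨n, h1⟩
  rw [h] at h2
  obtain ⟨n₀, h2⟩ := h2
  let n' := max n₀ (max n (k + 1))
  have h3 := sub_mem (h2 n' (le_max_left _ _)) (h1 n' (by omega))
  obtain ⟨v, hv⟩ := ps_dvd m E (show k + 1 ≤ n' by omega)
  obtain ⟨w, hw⟩ := ps_dvd m F (show k + 1 ≤ n' by omega)
  have h4 : ps m E (k + 1) - ps m F (k + 1) = m ^ k := by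
    have : ps m E k = ps m F k := Finset.sum_congr rfl fun i hi => by
      by_cases hi' : i ∈ E
      · rw [if_pos hi', if_pos ((hlt i (Finset.mem_range.1 hi)).1 hi')]
      · rw [if_neg hi', if_neg fun h => hi' ((hlt i (Finset.mem_range.1 hi)).2 h)]
    rw [ps, ps, Finset.sum_range_succ, Finset.sum_range_succ, if_pos hE, if_neg hF, ← ps, ← ps,
      this]
    ring
  have h5 : ps m E n' - ps m F n' = (1 + m * (v - w)) * m ^ k := by
    linear_combination hv - hw + h4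
  refine mem_of_coprime (c := 1 + m * (v - w)) (d := m ^ n) ?_ ?_ ?_
  · exact IsCoprime.pow_right ⟨1, -(v - w), by ring⟩
  · rw [← mul_smul, ← h5, sub_smul]
    convert h3 using 1; abel
  · rw [smul_comm]; exact smul_mem _ _ hx

theorem tor_fg [IsDomain C]
    (hper : ∀ c : C, c ≠ 0 → ∀ s : C, ∃ a b, 0 < b ∧ c ∣ s ^ a * (s ^ b - 1))
    (hfew : Few2 ρ ⊥ ⊤)
    (H : ∀ Y X : Submodule C A, ∀ c : C, Inv ρ ⊤ Y → Inv ρ ⊤ X → Y ≤ X → c ≠ 0 →
      (∀ x ∈ X, c • x ∈ Y) → FGo ρ Y X)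
    {Y : Submodule C A} (hY : Inv ρ ⊤ Y) : FGo ρ Y (sat Y (nonZeroDivisors C)) := by
  by_cases h : ∀ s : Finset C, (∀ c ∈ s, c ≠ 0 ∧ ¬ col Y c ≤ Y) →
      ∃ d, (d ≠ 0 ∧ ¬ col Y d ≤ Y) ∧ ∀ c ∈ s, IsCoprime c d
  · exfalso
    obtain ⟨c, hc, hc'⟩ := exists_seq_of_forall_finset_exists _ _ h
    choose y hy hy' using fun k => SetLike.not_le_iff_exists.1 (hc k).2
    refine hfew.indep (fun k => sat Y (cop (c k))) (fun k => inv_sat hY _) y ?_ ?_
    · rintro k ⟨d, hd, hdy⟩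
      exact hy' k (mem_of_coprime hd hdy (hy k))
    · intro j k hjk
      refine ⟨c k, ?_, hy k⟩
      rcases lt_or_gt_of_ne hjk with h | h
      · exact (hc' j k h).symm
      · exact hc' k j h
  push Not at h
  obtain ⟨s, hs, h⟩ := h
  set m := ∏ c ∈ s, c with hm
  have hm0 : m ≠ 0 := Finset.prod_ne_zero_iff.2 fun c hc => (hs c hc).1
  have h1 : ∀ d, d ≠ 0 → IsCoprime m d → col Y d ≤ Y := by
    intro d hd hmd
    by_contra hc
    obtain ⟨c, hc, hc'⟩ := h d ⟨hd, hc⟩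
    exact hc' (hmd.of_isCoprime_of_dvd_left (Finset.dvd_prod_of_mem _ hc))
  have h2 : ∀ x ∈ sat Y (nonZeroDivisors C), ∃ n, m ^ n • x ∈ Y := by
    rintro x ⟨d, hd, hx⟩
    have hd0 := nonZeroDivisors.ne_zero hd
    obtain ⟨a, b, hb, v, hv⟩ := hper d hd0 m
    by_cases h0 : m ^ b - 1 = 0
    · refine ⟨0, ?_⟩
      rw [pow_zero, one_smul]
      refine h1 d hd0 ⟨m ^ (b - 1), 0, ?_⟩ hx
      rw [← pow_succ, Nat.sub_add_cancel hb, zero_mul, add_zero]
      exact sub_eq_zero.1 h0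
    · refine ⟨a, h1 _ h0 ⟨m ^ (b - 1), -1, ?_⟩ ?_⟩
      · rw [← pow_succ, Nat.sub_add_cancel hb]; ring
      · rw [mem_col, ← mul_smul, mul_comm, hv, mul_comm, mul_smul]
        exact smul_mem _ _ hx
  by_cases h3 : ∃ n, ∀ x ∈ sat Y (nonZeroDivisors C), m ^ n • x ∈ Y
  · obtain ⟨n, hn⟩ := h3
    exact H _ _ (m ^ n) hY (inv_sat hY _) (le_sat _ _) (pow_ne_zero n hm0) hn
  exfalso
  refine hfew.graph (Gam Y m) ?_ ?_
  · rintro E g p ⟨a, ha⟩
    refine ⟨a, fun n hn => ?_⟩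
    have := hY g (Subgroup.mem_top g) _ (ha n hn)
    rwa [map_sub, map_smul] at this
  · intro E F hEF
    by_contra hne
    have hex : ∃ k, ¬ (k ∈ E ↔ k ∈ F) := by
      by_contra hc
      push Not at hc
      exact hne (Set.ext hc)
    classical
    have hk := Nat.find_spec hex
    have hlt : ∀ i < Nat.find hex, i ∈ E ↔ i ∈ F := fun i hi => not_not.1 (Nat.find_min hex hi)
    refine h3 ⟨Nat.find hex, fun x hx => ?_⟩
    obtain ⟨n, hn⟩ := h2 x hx
    by_cases hE : Nat.find hex ∈ E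
    · exact Gam_sep hlt hE (fun hF => hk ⟨fun _ => hF, fun _ => hE⟩) hEF hn
    · refine Gam_sep (fun i hi => (hlt i hi).symm) ?_ hE hEF.symm hn
      by_contra hF
      exact hk ⟨fun h => absurd h hE, fun h => absurd h hF⟩

theorem lemLC [IsDomain C]
    (hper : ∀ c : C, c ≠ 0 → ∀ s : C, ∃ a b, 0 < b ∧ c ∣ s ^ a * (s ^ b - 1))
    (hnu : ∀ z : C, z ≠ 0 → ∃ u, 1 + z * u ≠ 0 ∧ ¬ IsUnit (1 + z * u))
    (hG : Good ρ ⊤) (hfew : Few2 ρ ⊥ ⊤) (hn : ¬ FGo ρ ⊥ ⊤) :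
    ∃ Y X : Submodule C A, ∃ c : C, Inv ρ ⊤ Y ∧ Inv ρ ⊤ X ∧ Y ≤ X ∧ c ≠ 0 ∧
      (∀ x ∈ X, c • x ∈ Y) ∧ ¬ FGo ρ Y X := by
  by_contra hcon
  push Not at hcon
  have htor := @tor_fg C _ G _ A _ _ ρ _ hper hfew hcon
  let P : Submodule C A × Submodule C A × C × A → Prop := fun q =>
    Inv ρ ⊤ q.1 ∧ Inv ρ ⊤ q.2.1 ∧ FGo ρ ⊥ q.2.1 ∧ q.1 ≤ q.2.1 ∧ q.2.2.1 ≠ 0 ∧ q.2.2.2 ∈ q.2.1 ∧
      q.2.2.2 ∉ q.1 ⊔ LinearMap.range (LinearMap.lsmul C A q.2.2.1)
  obtain ⟨f, hf, hf'⟩ := exists_seq_of_forall_finset_exists P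
    (fun q q' => q.2.1 ≤ q'.1 ∧ IsCoprime q.2.2.1 q'.2.2.1) (by
    intro s hs
    have hS : Inv ρ ⊤ (s.sup fun q => q.2.1) ∧ FGo ρ ⊥ (s.sup fun q => q.2.1) := by
      refine Finset.sup_induction (p := fun S => Inv ρ ⊤ S ∧ FGo ρ ⊥ S)
        ⟨inv_bot, FGo.of_le le_rfl⟩ (fun a ha b hb => ⟨ha.1.sup hb.1, ha.2.sup hb.2⟩) ?_
      exact fun q hq => ⟨(hs q hq).2.1, (hs q hq).2.2.1⟩
    set S := s.sup fun q => q.2.1
    set T := sat S (nonZeroDivisors C)
    have hT : FGo ρ ⊥ T := hS.2.trans (htor hS.1) (le_sat _ _)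
    have hTI : Inv ρ ⊤ T := inv_sat hS.1 _
    obtain ⟨x₀, hx₀⟩ : ∃ x₀, x₀ ∉ T := by
      by_contra hc
      push Not at hc
      exact hn (by rwa [eq_top_iff'.2 hc] at hT)
    have hS' : Inv ρ ⊤ (T ⊔ gen ρ ⊤ {x₀}) := hTI.sup (inv_gen _)
    set T' := sat (T ⊔ gen ρ ⊤ {x₀}) (nonZeroDivisors C)
    have hT' : FGo ρ ⊥ T' := (hT.sup ⟨{x₀}, Set.finite_singleton _, fun x hx => subset_gen hx,
      le_sup_right⟩).trans (htor hS') (le_sat _ _)
    have hT'I : Inv ρ ⊤ T' := inv_sat hS' _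
    have hTT : T ≤ T' := le_sup_left.trans (le_sat _ _)
    obtain ⟨s', hs', hs1, hs2⟩ := id hT'
    have he : T' = gen ρ ⊤ s' := le_antisymm (by simpa using hs2) (gen_le hT'I hs1)
    obtain ⟨z, hz, hΦ⟩ := (hG s' hs').2 T hTI (he ▸ hTT)
    rw [← he] at hΦ
    set m := ∏ q ∈ s, q.2.2.1
    have hm0 : m ≠ 0 := Finset.prod_ne_zero_iff.2 fun q hq => (hs q hq).2.2.2.2.1
    obtain ⟨u, hu0, hu⟩ := hnu (z * m) (mul_ne_zero hz hm0)
    obtain ⟨x, hx, hx'⟩ : ∃ x ∈ T', x ∉ T ⊔ LinearMap.range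
        (LinearMap.lsmul C A (1 + z * m * u)) := by
      by_contra hc
      push Not at hc
      rw [mul_assoc] at hu0 hu hc
      obtain ⟨d, hd, hdx⟩ := (hΦ (m * u)).2 hu (fun x hx => by
        obtain ⟨a, ha, _, ⟨y, rfl⟩, rfl⟩ := mem_sup.1 (hc x hx)
        rw [LinearMap.lsmul_apply] at hx ⊢
        refine ⟨y, sat_sat (mem_nonZeroDivisors_of_ne_zero hu0) ?_, by
          rwa [add_sub_cancel_right]⟩
        have := sub_mem hx (hTT ha)
        rwa [add_sub_cancel_left] at this) x₀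
        (le_sat _ _ (mem_sup_right (subset_gen (Set.mem_singleton _))))
      exact hx₀ (sat_sat (mem_nonZeroDivisors_of_ne_zero hd) hdx)
    refine ⟨(T, T', 1 + z * m * u, x), ⟨hTI, hT'I, hT', hTT, hu0, hx, hx'⟩, fun q hq =>
      ⟨(Finset.le_sup (f := fun q => q.2.1) hq).trans (le_sat _ _), ?_⟩⟩
    refine IsCoprime.of_isCoprime_of_dvd_left (y := m) ⟨-(z * u), 1, by ring⟩
      (Finset.dvd_prod_of_mem _ hq))
  refine hfew.indep (fun k => (f k).1 ⊔ LinearMap.range (LinearMap.lsmul C A (f k).2.2.1)) ?_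
    (fun k => (∏ j ∈ Finset.range k, (f j).2.2.1) • (f k).2.2.2) ?_ ?_
  · intro k
    refine (hf k).1.sup ?_
    rintro g _ _ ⟨y, rfl⟩
    exact ⟨ρ g y, by simp⟩
  · intro k hk
    refine (hf k).2.2.2.2.2.2 (mem_of_coprime (d := (f k).2.2.1) ?_ hk (mem_sup_right ⟨_, rfl⟩))
    exact IsCoprime.prod_left fun j hj => (hf' j k (Finset.mem_range.1 hj)).2
  · intro j k hjk
    rcases lt_or_gt_of_ne hjk with h | h
    · obtain ⟨v, hv⟩ := Finset.dvd_prod_of_mem (fun j => (f j).2.2.1) (Finset.mem_range.2 h)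
      exact mem_sup_right ⟨v • (f k).2.2.2, by rw [LinearMap.lsmul_apply, hv, mul_smul]⟩
    · exact mem_sup_left (smul_mem _ _ ((hf' k j h).1 (hf k).2.2.2.2.2.1))

end Pool.Agent.P.MP_ecb9b3_al
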