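import Pool.Agent.P.MP_ecb9b3_al.Dag

/-! A product of `d` elements `ψ ((T ^ e - 1) ^ c • b) - 1` lies one step deeper in the
augmentation filtration. -/

namespace Pool.Agent.P.MP_ecb9b3_al

open Function LaurentPolynomial

set_option maxHeartbeats 400000

variable {L : Set (FreeGroup ℕ)} {B S D : Type} [AddCommGroup B] [Module Lam B] [CommRing S]
  [AddCommGroup D] [Module S D] {ψ : AddChar B S} {τ : D ≃ₗ[ℤ] D} {ι : Type} [Fintype ι]

/-- The shifted product. -/
noncomputable def mu (ψ : AddChar B S) (τ : D ≃ₗ[ℤ] D) (b : ι → B) (y : D) (γ : (ι → ℤ) × ℤ) : D :=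
  (∏ i, (ψ ((T (γ.1 i) : Lam) • b i) - 1)) • (τ ^ γ.2) y

/-- Linear extension of the shifted product. -/
noncomputable def emu (ψ : AddChar B S) (τ : D ≃ₗ[ℤ] D) (b : ι → B) (y : D) :
    ZG ((ι → ℤ) × ℤ) →+ D :=
  (Finsupp.linearCombination ℤ (mu ψ τ b y)).toAddMonoidHom.comp
    AddMonoidAlgebra.coeffAddEquiv.toAddMonoidHom

theorem emu_single (b : ι → B) (y : D) (γ : (ι → ℤ) × ℤ) (a : ℤ) :
    emu ψ τ b y (AddMonoidAlgebra.single γ a) = a • mu ψ τ b y γ := by
  simp [emu]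

theorem emu_ofB (b : ι → B) (y : D) (γ : (ι → ℤ) × ℤ) :
    emu ψ τ b y (ofB _ γ) = mu ψ τ b y γ := (emu_single b y γ 1).trans (one_smul _ _)

theorem emu_shift (b : ι → B) (y : D) (γ : (ι → ℤ) × ℤ) (a : ℤ) (p : ZG ((ι → ℤ) × ℤ)) :
    emu ψ τ b y (AddMonoidAlgebra.single γ a * p) =
      a • emu ψ τ (fun i => (T (γ.1 i) : Lam) • b i) ((τ ^ γ.2) y) p := by
  induction p using AddMonoidAlgebra.induction_linear with
  | zero => simp
  | add p q hp hq => rw [mul_add, map_add, map_add, hp, hq, smul_add]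
  | single γ' a' =>
    rw [AddMonoidAlgebra.single_mul_single, emu_single, emu_single, mul_smul, mu, mu,
      ← zpow_add_apply, Prod.snd_add, add_comm γ.2]
    simp only [smul_smul, ← T_add, Prod.fst_add, Pi.add_apply, add_comm]

/-- The universal ideal of relations of the shifted product. -/
noncomputable def UA (L : Set (FreeGroup ℕ)) (ι : Type) [Fintype ι] : Ideal (ZG ((ι → ℤ) × ℤ)) where
  carrier := {p | ∀ (B S D : Type) [AddCommGroup B] [Module Lam B] [CommRing S] [AddCommGroup D]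
    [Module S D] (ψ : AddChar B S) (τ : D ≃ₗ[ℤ] D), IsFrame L ψ τ → ∀ (B₁ : Submodule Lam B)
    (b : ι → B), (∀ i, b i ∈ B₁) → ∀ y,
    emu ψ τ b y p ∈ JJ ψ B₁ ^ (Fintype.card ι + 1) • (⊤ : Submodule S D)}
  zero_mem' := fun B S D _ _ _ _ _ ψ τ h B₁ b hb y => by simp
  add_mem' := fun hp hq B S D _ _ _ _ _ ψ τ h B₁ b hb y => by
    rw [map_add]; exact add_mem (hp B S D ψ τ h B₁ b hb y) (hq B S D ψ τ h B₁ b hb y)
  smul_mem' := fun q p hp B S D _ _ _ _ _ ψ τ h B₁ b hb y => by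
    rw [smul_eq_mul]
    induction q using AddMonoidAlgebra.induction_linear with
    | zero => simp
    | add a b ha hb => rw [add_mul, map_add]; exact add_mem ha hb
    | single γ a =>
      rw [emu_shift]
      exact zsmul_mem (hp B S D ψ τ h B₁ _ (fun i => B₁.smul_mem _ (hb i)) _) a

omit [Module Lam B] [Fintype ι] in
theorem prod_mem_JJ {X : Set B} (s : Finset ι) {b : ι → B} (hb : ∀ i ∈ s, b i ∈ X) :
    ∏ i ∈ s, (ψ (b i) - 1) ∈ JJ ψ X ^ s.card := by
  rw [← Finset.prod_const]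
  exact Ideal.prod_mem_prod fun i hi => mem_JJ (hb i hi)

omit [Fintype ι] in
theorem IsFrame.prod_zpow (h : IsFrame L ψ τ) (n : ℤ) (s : Finset ι) (b : ι → B) (x : D) :
    (τ ^ n) ((∏ i ∈ s, (ψ (b i) - 1)) • x) =
      (∏ i ∈ s, (ψ ((T n : Lam) • b i) - 1)) • (τ ^ n) x := by
  classical
  induction s using Finset.induction_on with
  | empty => simp
  | insert a s ha ih =>
    rw [Finset.prod_insert ha, Finset.prod_insert ha, mul_smul, mul_smul, h.beta_zpow, ih]

variable [DecidableEq ι]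

theorem IsFrame.mu_split (h : IsFrame L ψ τ) (b : ι → B) (y : D) {i₀ : ι} {I : Finset ι}
    (hI : i₀ ∉ I) (n l : ℤ) :
    mu ψ τ b y (n • (Pi.single i₀ 1, 0) + l • ((0, 1) + ∑ k ∈ I, (Pi.single k 1, 0))) =
      (∏ i ∈ Finset.univ \ insert i₀ I, (ψ (b i) - 1)) •
        (ψ ((T n : Lam) • b i₀) - 1) • (τ ^ l) ((∏ i ∈ I, (ψ (b i) - 1)) • y) := by
  rw [mu, h.prod_zpow, ← Finset.prod_sdiff (Finset.subset_univ (insert i₀ I)),
    Finset.prod_insert hI, mul_smul, mul_smul]
  have h1 : ∀ i, (n • ((Pi.single i₀ 1, 0) : (ι → ℤ) × ℤ) +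
      l • ((0, 1) + ∑ k ∈ I, (Pi.single k 1, 0))).1 i =
      (if i = i₀ then n else 0) + if i ∈ I then l else 0 := by
    intro i
    simp [Prod.fst_sum, Finset.sum_apply, Pi.single_apply]
  have h2 : (n • ((Pi.single i₀ 1, 0) : (ι → ℤ) × ℤ) +
      l • ((0, 1) + ∑ k ∈ I, (Pi.single k 1, 0))).2 = l := by
    simp [Prod.snd_sum]
  simp only [h1, h2]
  congr 1
  · refine Finset.prod_congr rfl fun i hi => ?_
    simp only [Finset.mem_sdiff, Finset.mem_insert, not_or] at hi
    simp [hi.2.1, hi.2.2]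
  · congr 1
    · simp [hI]
    · congr 1
      refine Finset.prod_congr rfl fun i hi => ?_
      rw [if_neg (fun e : i = i₀ => hI (e ▸ hi)), if_pos hi, zero_add]

theorem emu_update (B₁ : Submodule Lam B) {b : ι → B} (hb : ∀ i, b i ∈ B₁) (y : D) (i : ι)
    {x x' : B} (hx : x ∈ B₁) (hx' : x' ∈ B₁) (p : ZG ((ι → ℤ) × ℤ)) :
    emu ψ τ (update b i (x - x')) y p - (emu ψ τ (update b i x) y p - emu ψ τ (update b i x') y p)
      ∈ JJ ψ B₁ ^ (Fintype.card ι + 1) • (⊤ : Submodule S D) := by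
  induction p using AddMonoidAlgebra.induction_linear with
  | zero => simp
  | add p q hp hq =>
    simp only [map_add]
    convert add_mem hp hq using 1; abel
  | single γ a =>
    simp only [emu_single, ← smul_sub]
    refine zsmul_mem ?_ a
    have key : ∀ z, mu ψ τ (update b i z) y γ = ((ψ ((T (γ.1 i) : Lam) • z) - 1) *
        ∏ k ∈ Finset.univ.erase i, (ψ ((T (γ.1 k) : Lam) • b k) - 1)) • (τ ^ γ.2) y := by
      intro z
      rw [mu, ← Finset.mul_prod_erase _ _ (Finset.mem_univ i), update_self]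
      congr 2
      exact Finset.prod_congr rfl fun k hk => by rw [update_of_ne (Finset.mem_erase.1 hk).1]
    rw [key, key, key, ← sub_smul, ← sub_smul, ← sub_mul, ← sub_mul]
    refine Submodule.smul_mem_smul ?_ trivial
    have h1 : Fintype.card ι + 1 = 2 + (Finset.univ.erase i).card := by
      rw [Finset.card_erase_of_mem (Finset.mem_univ i), Finset.card_univ]
      have := Fintype.card_pos_iff.2 ⟨i⟩
      omega
    rw [h1, pow_add]
    refine Ideal.mul_mem_mul ?_ (prod_mem_JJ _ fun k _ => B₁.smul_mem _ (hb k))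
    have h2 : ψ ((T (γ.1 i) : Lam) • x) =
        ψ ((T (γ.1 i) : Lam) • (x - x')) * ψ ((T (γ.1 i) : Lam) • x') := by
      rw [← AddChar.map_add_eq_mul, ← smul_add, sub_add_cancel]
    have h3 := neg_mem (Ideal.mul_mem_mul
      (mem_JJ (ψ := ψ) (B₁.smul_mem (T (γ.1 i) : Lam) (sub_mem hx hx')))
      (mem_JJ (ψ := ψ) (B₁.smul_mem (T (γ.1 i) : Lam) hx')))
    rw [pow_two, h2]
    convert h3 using 1; ring

theorem emu_dl (B₁ : Submodule Lam B) (y : D) (i : ι) (e k : ℕ) (p : ZG ((ι → ℤ) × ℤ)) :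
    ∀ b : ι → B, (∀ i, b i ∈ B₁) →
      emu ψ τ b y ((ofB _ ((Pi.single i 1, 0) : (ι → ℤ) × ℤ) ^ e - 1) ^ k * p) -
        emu ψ τ (update b i (dl e ^ k • b i)) y p
      ∈ JJ ψ B₁ ^ (Fintype.card ι + 1) • (⊤ : Submodule S D) := by
  induction k with
  | zero => intro b _; simp
  | succ k ih =>
    intro b hb
    have h1 := ih (update b i (dl e • b i)) (fun j => by
      rcases eq_or_ne j i with rfl | h
      · rw [update_self]; exact B₁.smul_mem _ (hb j)
      · rw [update_of_ne h]; exact hb j)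
    rw [update_self, update_idem, smul_smul, ← pow_succ] at h1
    rw [pow_succ' _ k, mul_assoc]
    generalize (ofB _ ((Pi.single i 1, 0) : (ι → ℤ) × ℤ) ^ e - 1) ^ k * p = p' at *
    have h2 := emu_update (ψ := ψ) (τ := τ) B₁ hb y i (B₁.smul_mem (T 1 ^ e : Lam) (hb i)) (hb i) p'
    have h3 : emu ψ τ b y (ofB _ ((Pi.single i 1, 0) : (ι → ℤ) × ℤ) ^ e * p') =
        emu ψ τ (update b i ((T 1 ^ e : Lam) • b i)) y p' := by
      rw [← AddChar.map_nsmul_eq_pow]
      refine (emu_shift b y _ 1 p').trans ?_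
      rw [one_smul]
      congr 2
      · funext j
        rcases eq_or_ne j i with rfl | h
        · simp
        · simp [h]
    have h4 : dl e • b i = (T 1 ^ e : Lam) • b i - b i := by rw [dl, sub_smul, one_smul]
    rw [← h4, update_eq_self] at h2
    rw [sub_mul, one_mul, map_sub, h3]
    convert sub_mem h1 h2 using 1; abel

theorem emu_prod (B₁ : Submodule Lam B) (y : D) (e k : ℕ) (A : Finset ι) :
    ∀ b : ι → B, (∀ i, b i ∈ B₁) →
      emu ψ τ b y (∏ i ∈ A, (ofB _ ((Pi.single i 1, 0) : (ι → ℤ) × ℤ) ^ e - 1) ^ k) -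
        emu ψ τ (fun i => if i ∈ A then dl e ^ k • b i else b i) y 1
      ∈ JJ ψ B₁ ^ (Fintype.card ι + 1) • (⊤ : Submodule S D) := by
  induction A using Finset.induction_on with
  | empty => intro b _; simp
  | insert a A ha ih =>
    intro b hb
    rw [Finset.prod_insert ha]
    have h1 := emu_dl (ψ := ψ) (τ := τ) B₁ y a e k
      (∏ i ∈ A, (ofB _ ((Pi.single i 1, 0) : (ι → ℤ) × ℤ) ^ e - 1) ^ k) b hb
    have h2 := ih (update b a (dl e ^ k • b a)) (fun j => by
      rcases eq_or_ne j a with rfl | h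
      · rw [update_self]; exact B₁.smul_mem _ (hb j)
      · rw [update_of_ne h]; exact hb j)
    have h3 : (fun i => if i ∈ A then dl e ^ k • update b a (dl e ^ k • b a) i
        else update b a (dl e ^ k • b a) i) =
        fun i => if i ∈ insert a A then dl e ^ k • b i else b i := by
      funext i
      rcases eq_or_ne i a with rfl | h
      · simp [ha]
      · simp [h]
    rw [h3] at h2
    convert add_mem h1 h2 using 1; abel

theorem star (hF : FewV L) : ∃ d, 0 < d ∧ ∃ e, 0 < e ∧ ∃ c : ℕ, ∀ (B S D : Type) [AddCommGroup B]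
    [Module Lam B] [CommRing S] [AddCommGroup D] [Module S D] (ψ : AddChar B S) (τ : D ≃ₗ[ℤ] D),
    IsFrame L ψ τ → ∀ (B₁ : Submodule Lam B) (b : Fin d → B), (∀ i, b i ∈ B₁) → ∀ y : D,
      (∏ i, (ψ (dl e ^ c • b i) - 1)) • y ∈ JJ ψ B₁ ^ (d + 1) • (⊤ : Submodule S D) := by
  obtain ⟨N, c, hc, hd⟩ := dagger hF
  let u : Multiplicative ((Fin (c.support.card + 1) → ℤ) × ℤ) →* (ZG _)ˣ :=
    (ofB ((Fin (c.support.card + 1) → ℤ) × ℤ)).toMonoidHom.toHomUnits
  have hu : ∀ γ, (u γ : ZG _) = ofB _ γ.toAdd := fun γ => rfl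
  obtain ⟨e, he, c', h⟩ := PL (0 : Fin (c.support.card + 1)) N c hc (by simp)
    (fun i => u (Multiplicative.ofAdd (Pi.single i 1, 0))) (u (Multiplicative.ofAdd (0, 1)))
    (UA L _) (by
      intro I hI m B S D _ _ _ _ _ ψ τ h B₁ b hb y
      have h1 := hd B S D ψ τ h B₁ _ (h.inv_JJ B₁ I.card) _ (hb 0) _
        (Submodule.smul_mem_smul (prod_mem_JJ I fun i _ => hb i) (Submodule.mem_top (x := y))) m
      have h2 := Submodule.smul_mem_smul
        (prod_mem_JJ (ψ := ψ) (Finset.univ \ insert 0 I) fun i _ => hb i) h1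
      have h3 : (Finset.univ \ insert 0 I).card + (2 + I.card) =
          Fintype.card (Fin (c.support.card + 1)) + 1 := by
        have := Finset.card_sdiff_add_card_eq_card (Finset.subset_univ (insert 0 I))
        rw [Finset.card_insert_of_notMem hI, Finset.card_univ] at this
        omega
      rw [← mul_smul, ← mul_smul, mul_assoc, ← pow_add, ← pow_add, h3, smul_sub,
        Finset.smul_sum] at h2
      simp only [← map_prod, ← map_mul, ← map_zpow, hu, map_sub, map_sum, map_zsmul, emu_ofB,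
        toAdd_mul, toAdd_zpow, toAdd_prod, toAdd_ofAdd, h.mu_split b y hI]
      have h4 := h.mu_split b y hI 0 (m * N)
      rw [zero_smul, zero_add, T_zero, one_smul] at h4
      rw [h4]
      simp only [smul_comm _ (c _)] at h2
      exact h2)
  refine ⟨c.support.card + 1, Nat.succ_pos _, e, he, c', fun B S D _ _ _ _ _ ψ τ hfr B₁ b hb y => ?_⟩
  have h1 := h B S D ψ τ hfr B₁ b hb y
  have h2 := emu_prod (ψ := ψ) (τ := τ) B₁ y e c' Finset.univ b hb
  have h3 := sub_mem h1 h2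
  simp only [hu, toAdd_ofAdd, sub_sub_cancel, Finset.mem_univ, if_true, Fintype.card_fin] at h3
  rw [← (ofB _).map_zero_eq_one, emu_ofB, mu] at h3
  simpa using h3

end Pool.Agent.P.MP_ecb9b3_al
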